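import Pool.Agent.U26.SG.Stm3

/-!
# Project SG (helper26), part 6: all sequences of eigenfunctions of planar domains

No quantum ergodicity: only bounds for the local `L²` norms. Statements of the packages.
-/

set_option autoImplicit false
open MeasureTheory Filter Topology Complex
open scoped ContDiff ENNReal BoundedContinuousFunction

namespace Pool.Agent.U26.SG

open Pool.Agent.W745.RW (lap TF W Sol)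
open Pool.Agent.N661.BR (MW lin IsCutoff IsStationary)

noncomputable section

/-- as `Dt`, with bounds instead of limits of the second moments -/
structure Dt2 {Z : Type} [MeasurableSpace Z] (P : Measure Z) (X : ℕ → ℤ → ℂ → Z → ℂ)
    (φ : ℕ → Z → ℝ) (C : ℝ) : Prop where
  prob : IsProbabilityMeasure P
  wm : ∀ i, Measurable (φ i)
  w01 : ∀ i z, φ i z ∈ Set.Icc (0 : ℝ) 1
  wlim : Tendsto (fun i => ∫ z, φ i z ∂P) atTop (𝓝 1)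
  m0 : ∀ n a, AEMeasurable (X n a 0) P
  mw : ∀ i w, ∀ᶠ n in atTop, AEMeasurable (fun z => (φ i z : ℂ) * X n 0 w z) P
  sym : ∀ n, ∀ᵐ z ∂P, Sym fun a => X n a 0 z
  isoInt0 : ∀ i a, ∀ᶠ n in atTop, Integrable (fun z => φ i z * ‖X n a 0 z‖ ^ 2) P
  isoInt : ∀ i w, ∀ᶠ n in atTop, Integrable (fun z => φ i z * ‖X n 0 w z‖ ^ 2) P
  bd : ∀ i a, ∀ᶠ n in atTop, ∫ z, φ i z * ‖X n a 0 z‖ ^ 2 ∂P ≤ C
  tay : ∀ (i : ℕ) (w : ℂ) (ε : ℝ), 0 < ε → ∀ᶠ N in atTop, ∀ᶠ n in atTop,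
    ∫ z, φ i z * ‖X n 0 w z - PS N (fun a => X n a 0 z) w‖ ^ 2 ∂P ≤ ε

/-- PROK2: as `S_PROK`, with a bound `C` instead of the limit `1` of the second moments -/
def S_PROK2 : Prop := ∀ (Z : Type) (_ : MeasurableSpace Z) (P : Measure Z)
  (_ : IsProbabilityMeasure P) (Y : ℕ → ℤ → Z → ℂ) (φ : ℕ → Z → ℝ) (C : ℝ), 0 ≤ C →
  (∀ n a, AEMeasurable (Y n a) P) → (∀ i, Measurable (φ i)) →
  (∀ i z, φ i z ∈ Set.Icc (0 : ℝ) 1) → Tendsto (fun i => ∫ z, φ i z ∂P) atTop (𝓝 1) →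
  (∀ i a, ∀ᶠ n in atTop, Integrable (fun z => φ i z * ‖Y n a z‖ ^ 2) P) →
  (∀ i a, ∀ᶠ n in atTop, ∫ z, φ i z * ‖Y n a z‖ ^ 2 ∂P ≤ C) →
  (∀ n, ∀ᵐ z ∂P, Sym fun a => Y n a z) →
  ∃ (σ : ℕ → ℕ) (Λ : Measure (ℤ → ℂ)), StrictMono σ ∧ IsProbabilityMeasure Λ ∧
    (∀ᵐ x ∂Λ, Sym x) ∧ (∀ a : ℤ, ∫⁻ x, ‖x a‖ₑ ^ 2 ∂Λ ≤ ENNReal.ofReal C) ∧
    ∀ g : (ℤ → ℂ) →ᵇ ℂ, Tendsto (fun n => ∫ z, g (fun a => Y (σ n) a z) ∂P) atTop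
      (𝓝 (∫ x, g x ∂Λ))

/-- COMP2: compactness -/
def S_COMP2 : Prop := ∀ (Z : Type) (_ : MeasurableSpace Z) (P : Measure Z)
  (X : ℕ → ℤ → ℂ → Z → ℂ) (φ : ℕ → Z → ℝ) (C : ℝ), 0 ≤ C → Dt2 P X φ C →
  ∃ (σ : ℕ → ℕ) (μ : Measure MW), StrictMono σ ∧ IsProbabilityMeasure μ ∧
    Integrable (fun f : MW => f 0 ^ 2) μ ∧
    ∀ (k : ℕ) (w : Fin k → ℂ) (t : Fin k → ℝ) (i : ℕ) (η : ℝ), 0 < η → ∀ᶠ n in atTop,
      ‖(∫ z, (φ i z : ℂ) * Complex.exp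
          (I * (((∑ j, (t j : ℂ) * X (σ n) 0 (w j) z).re : ℝ) : ℂ)) ∂P) -
        ∫ f : MW, Complex.exp (I * (lin w t f : ℝ)) ∂μ‖ ≤ 1 - (∫ z, φ i z ∂P) + η

/-- solutions on `Ω` with locally bounded `L²` norms -/
structure Loc2 (Ω : Set ℂ) (h : ℕ → ℝ) (u : ℕ → ℂ → ℝ) (C : ℝ) : Prop where
  op : IsOpen Ω
  sol : ∀ n, Sol Ω (h n) (u n)
  hlim : Tendsto h atTop (𝓝 0)
  int : ∀ n, IntegrableOn (fun z => u n z ^ 2) Ω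
  bd : ∀ n, ∫ z in Ω, u n z ^ 2 ≤ C

/-- EN: the energy identity: all the `W k` have asymptotically at most the mass of `u` -/
def S_EN : Prop := ∀ (Ω : Set ℂ) (h : ℕ → ℝ) (u : ℕ → ℂ → ℝ) (C : ℝ), Loc2 Ω h u C →
  ∀ φ, TF Ω φ → (∀ z, 0 ≤ φ z) → ∀ (a : ℤ) (ε : ℝ), 0 < ε → ∀ᶠ n in atTop,
    |(∫ z, φ z * ‖W (h n) (u n) a z‖ ^ 2) - ∫ z, φ z * u n z ^ 2| ≤ ε

/-- TR: the remainder of the Taylor expansion (uses EN) -/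
def S_TR : Prop := ∀ (Ω : Set ℂ) (h : ℕ → ℝ) (u : ℕ → ℂ → ℝ) (C : ℝ), Loc2 Ω h u C →
  ∀ φ, TF Ω φ → (∀ z, 0 ≤ φ z) → ∀ (w : ℂ) (ε : ℝ), 0 < ε → ∀ᶠ N in atTop, ∀ᶠ n in atTop,
    ∫ z, φ z * ‖W (h n) (u n) 0 (z + (h n : ℂ) * w) -
      PS N (fun a => W (h n) (u n) a z) w‖ ^ 2 ≤ ε

/-- STL: a law on `MW` is stationary if its characteristic functional is invariant -/
def S_STL : Prop := ∀ μ : Measure MW, IsProbabilityMeasure μ →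
  (∀ (k : ℕ) (w : Fin k → ℂ) (t : Fin k → ℝ) (x : ℂ),
    ∫ f : MW, Complex.exp (I * (lin (fun j => w j + x) t f : ℝ)) ∂μ =
      ∫ f : MW, Complex.exp (I * (lin w t f : ℝ)) ∂μ) → IsStationary μ

/-- PL2: planar domains have stationary local limits with finite second moment -/
def S_PL2 : Prop := ∀ (Ω : Set ℂ), IsOpen Ω → Bornology.IsBounded Ω → Ω.Nonempty →
  ∀ (lam : ℕ → ℝ), (∀ n, 0 < lam n) → Tendsto lam atTop atTop → ∀ (u : ℕ → ℂ → ℝ),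
  (∀ n, ContDiffOn ℝ ∞ (u n) Ω) → (∀ n, ∀ z ∈ Ω, lap (u n) z + lam n * u n z = 0) →
  ∀ C : ℝ, (∀ n, IntegrableOn (fun z => u n z ^ 2) Ω) → (∀ n, ∫ z in Ω, u n z ^ 2 ≤ C) →
  ∀ χ : ℝ → ℝ, IsCutoff χ →
  ∃ (σ : ℕ → ℕ) (μ : Measure MW), StrictMono σ ∧ IsProbabilityMeasure μ ∧
    IsStationary μ ∧ Integrable (fun f : MW => f 0 ^ 2) μ ∧
    Pool.Agent.U26.SB.ConvergesAlong σ χ Ω lam u μ

end

end Pool.Agent.U26.SG
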