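import Pool.Agent.U26.SG.Comp3
import Pool.Agent.U26.SG.Stm6

/-!
# COMP2: compactness with bounded second moments
-/

set_option autoImplicit false
open MeasureTheory Filter Topology Complex
open scoped ContDiff ENNReal BoundedContinuousFunction

namespace Pool.Agent.U26.SG

open Pool.Agent.W745.RW (lap dx dy)
open Pool.Agent.Y265.RW (sy rr)
open Pool.Agent.N661.BR (MW lin)

noncomputable section

/-- almost all sequences have moderate growth -/
theorem ae_mod2 {Λ : Measure (ℤ → ℂ)} [IsProbabilityMeasure Λ] {D : ℝ} (h1 : ∀ᵐ x ∂Λ, Sym x)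
    (h2 : ∀ a : ℤ, ∫⁻ x, ‖x a‖ₑ ^ 2 ∂Λ ≤ ENNReal.ofReal D) : ∀ᵐ x ∂Λ, Mod x := by
  have hs : Summable fun k : ℤ => ((1 : ℝ) / 4) ^ k.natAbs := by
    refine Summable.of_nat_of_neg ?_ ?_
    · simpa using summable_geometric_of_lt_one (by norm_num : (0:ℝ) ≤ 1/4) (by norm_num)
    · simpa using summable_geometric_of_lt_one (by norm_num : (0:ℝ) ≤ 1/4) (by norm_num)
  have hm : ∀ k : ℤ, Measurable fun x : ℤ → ℂ =>
      ENNReal.ofReal ((1 / 4) ^ k.natAbs) * ‖x k‖ₑ ^ 2 := fun k =>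
    ((measurable_pi_apply k).enorm.pow_const 2).const_mul _
  have h3 : ∫⁻ x, ∑' k : ℤ, ENNReal.ofReal ((1 / 4) ^ k.natAbs) * ‖x k‖ₑ ^ 2 ∂Λ ≠ ⊤ := by
    rw [lintegral_tsum fun k => (hm k).aemeasurable]
    refine ne_top_of_le_ne_top
      (b := (∑' k : ℤ, ENNReal.ofReal (((1 : ℝ) / 4) ^ k.natAbs)) * ENNReal.ofReal D) ?_ ?_
    · rw [← ENNReal.ofReal_tsum_of_nonneg (fun k => by positivity) hs]
      exact ENNReal.mul_ne_top ENNReal.ofReal_ne_top ENNReal.ofReal_ne_top
    · rw [← ENNReal.tsum_mul_right]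
      refine ENNReal.tsum_le_tsum fun k => ?_
      rw [lintegral_const_mul _ ((measurable_pi_apply k).enorm.pow_const 2)]
      exact mul_le_mul_right (h2 k) _
  have h4 := ae_lt_top (Measurable.tsum hm) h3
  filter_upwards [h1, h4] with x hx1 hx2
  refine ⟨hx1, ?_⟩
  set T := (∑' k : ℤ, ENNReal.ofReal ((1 / 4) ^ k.natAbs) * ‖x k‖ₑ ^ 2).toReal with hT
  have hT0 : 0 ≤ T := ENNReal.toReal_nonneg
  obtain ⟨C, hC⟩ := exists_nat_ge √T
  refine ⟨C, fun k => ?_⟩
  have h5 : ENNReal.ofReal ((1 / 4) ^ k.natAbs) * ‖x k‖ₑ ^ 2 ≤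
      ∑' k : ℤ, ENNReal.ofReal ((1 / 4) ^ k.natAbs) * ‖x k‖ₑ ^ 2 := ENNReal.le_tsum k
  have h6 := ENNReal.toReal_mono hx2.ne h5
  rw [ENNReal.toReal_mul, ENNReal.toReal_ofReal (by positivity), ENNReal.toReal_pow,
    toReal_enorm] at h6
  have h7 : ‖x k‖ ^ 2 ≤ T * 4 ^ k.natAbs := by
    have h8 : (0 : ℝ) < 4 ^ k.natAbs := by positivity
    rw [one_div_pow] at h6
    have h9 := mul_le_mul_of_nonneg_right h6 h8.le
    have e : 1 / (4 : ℝ) ^ k.natAbs * ‖x k‖ ^ 2 * 4 ^ k.natAbs = ‖x k‖ ^ 2 := by field_simp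
    rwa [e] at h9
  have h8 : T * 4 ^ k.natAbs ≤ (C * 2 ^ k.natAbs) ^ 2 := by
    have e : ((2 : ℝ) ^ k.natAbs) ^ 2 = 4 ^ k.natAbs := by
      rw [← pow_mul, mul_comm, pow_mul]
      norm_num
    rw [mul_pow, e]
    refine mul_le_mul_of_nonneg_right ?_ (by positivity)
    calc T = √T ^ 2 := (Real.sq_sqrt hT0).symm
      _ ≤ (C : ℝ) ^ 2 := pow_le_pow_left₀ (Real.sqrt_nonneg _) hC 2
  exact abs_le_of_sq_le_sq' (h7.trans h8) (by positivity) |>.2

theorem Ph_zero (hSER : S_SER) {x : ℤ → ℂ} (h : Mod x) : ((Ph hSER x 0 : ℝ) : ℂ) = x 0 := by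
  have h1 := Ph_spec hSER h 0
  have h2 : HasSum (tm x 0) (x 0) := by
    have h3 : HasSum (tm x 0) (tm x 0 (0, 0)) := by
      refine hasSum_single (0, 0) fun p hp => ?_
      unfold tm
      have h4 : p.1 ≠ 0 ∨ p.2 ≠ 0 := by
        by_contra hc
        push Not at hc
        exact hp (Prod.ext hc.1 hc.2)
      rcases h4 with h4 | h4
      · simp [zero_pow h4]
      · simp [zero_pow h4]
    have e : tm x 0 (0, 0) = x 0 := by
      unfold tm
      simp
    rwa [e] at h3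
  exact h1.unique h2

theorem c1b {Z : Type} [MeasurableSpace Z] {P : Measure Z}
    {X : ℕ → ℤ → ℂ → Z → ℂ} {φ : ℕ → Z → ℝ} {C : ℝ} (H : Dt2 P X φ C) {k : ℕ} (w : Fin k → ℂ)
    (t : Fin k → ℝ) (i : ℕ) {δ : ℝ} (hδ : 0 < δ) :
    ∀ᶠ N in atTop, ∀ᶠ n in atTop, ∫ z, φ i z *
      ‖∑ j, (t j : ℂ) * (X n 0 (w j) z - PS N (fun a => X n a 0 z) (w j))‖ ^ 2 ∂P ≤ δ := by
  have hP := H.prob
  set S : ℝ := ∑ j, (k : ℝ) * t j ^ 2 with hS
  have hS0 : 0 ≤ S := Finset.sum_nonneg fun j _ => by positivity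
  set ε' := δ / (S + 1) with hε'
  have hε0 : 0 < ε' := by positivity
  have hT : ∀ᶠ N in atTop, ∀ j : Fin k, ∀ᶠ n in atTop,
      ∫ z, φ i z * ‖X n 0 (w j) z - PS N (fun a => X n a 0 z) (w j)‖ ^ 2 ∂P ≤ ε' :=
    eventually_all.2 fun j => H.tay i (w j) ε' hε0
  filter_upwards [hT] with N hN
  have hmw : ∀ᶠ n in atTop, ∀ j, AEMeasurable (fun z => (φ i z : ℂ) * X n 0 (w j) z) P :=
    eventually_all.2 fun j => H.mw i (w j)
  have hi1 : ∀ᶠ n in atTop, ∀ j, Integrable (fun z => φ i z * ‖X n 0 (w j) z‖ ^ 2) P :=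
    eventually_all.2 fun j => H.isoInt i (w j)
  have hi0 : ∀ᶠ n in atTop, ∀ p : ↥(Finset.range N ×ˢ Finset.range N),
      Integrable (fun z => φ i z * ‖X n ((p.1.1 : ℤ) - p.1.2) 0 z‖ ^ 2) P :=
    eventually_all.2 fun p => H.isoInt0 i _
  filter_upwards [eventually_all.2 hN, hmw, hi1, hi0] with n h1 hmw hi1 hi0
  have hD : ∀ j0 : Fin k, Integrable (fun z => φ i z * ‖X n 0 (w j0) z -
      PS N (fun a => X n a 0 z) (w j0)‖ ^ 2) P := by
    intro j0
    have h := int_lin (P := P) (H.wm i) (H.w01 i)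
      (J := Fin 1 ⊕ (Fin 1 × ↥(Finset.range N ×ˢ Finset.range N)))
      (Sum.elim (fun _ => ((1 : ℝ) : ℂ)) (fun q => -((1 : ℝ) : ℂ) * cf (w j0) q.2.1))
      (V := fun j z => X n ((Sum.elim (fun _ => (0 : ℤ))
        (fun q => (q.2.1.1 : ℤ) - q.2.1.2)) j) ((Sum.elim (fun _ => w j0) (fun _ => (0 : ℂ))) j) z)
        ?_ ?_
    · have e1 : ∀ z : Z, _ := fun z => sum_D (k := 1) (N := N) (fun _ => w j0) (fun _ => 1)
        (fun a v => X n a v z)
      simp only [e1] at h
      simpa using h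
    · rintro (j | q)
      · exact hmw j0
      · exact (Complex.measurable_ofReal.comp (H.wm i)).aemeasurable.mul (H.m0 _ _)
    · rintro (j | q)
      · exact hi1 j0
      · exact hi0 q.2
  have h2 : ∫ z, φ i z *
      ‖∑ j, (t j : ℂ) * (X n 0 (w j) z - PS N (fun a => X n a 0 z) (w j))‖ ^ 2 ∂P ≤
      ∫ z, ∑ j, ((k : ℝ) * t j ^ 2) * (φ i z * ‖X n 0 (w j) z -
        PS N (fun a => X n a 0 z) (w j)‖ ^ 2) ∂P := by
    refine integral_mono_of_nonneg (Filter.Eventually.of_forall fun z =>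
      mul_nonneg (H.w01 i z).1 (by positivity))
      (integrable_finsetSum _ fun j _ => (hD j).const_mul _)
      (Filter.Eventually.of_forall fun z => ?_)
    have h3 : ‖∑ j, (t j : ℂ) * (X n 0 (w j) z - PS N (fun a => X n a 0 z) (w j))‖ ^ 2 ≤
        (k : ℝ) * ∑ j, ‖(t j : ℂ) * (X n 0 (w j) z - PS N (fun a => X n a 0 z) (w j))‖ ^ 2 := by
      refine (pow_le_pow_left₀ (norm_nonneg _) (norm_sum_le _ _) 2).trans ?_
      have := sq_sum_le_card_mul_sum_sq (s := (Finset.univ : Finset (Fin k)))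
        (f := fun j => ‖(t j : ℂ) * (X n 0 (w j) z - PS N (fun a => X n a 0 z) (w j))‖)
      simpa using this
    refine (mul_le_mul_of_nonneg_left h3 (H.w01 i z).1).trans (le_of_eq ?_)
    rw [Finset.mul_sum, Finset.mul_sum]
    refine Finset.sum_congr rfl fun j _ => ?_
    rw [norm_mul, mul_pow, Complex.norm_real, Real.norm_eq_abs, sq_abs]
    ring
  refine h2.trans ?_
  rw [integral_finsetSum _ fun j _ => (hD j).const_mul _]
  calc ∑ j, ∫ z, ((k : ℝ) * t j ^ 2) * (φ i z * ‖X n 0 (w j) z -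
        PS N (fun a => X n a 0 z) (w j)‖ ^ 2) ∂P ≤ ∑ j, ((k : ℝ) * t j ^ 2) * ε' := by
        refine Finset.sum_le_sum fun j _ => ?_
        rw [integral_const_mul]
        exact mul_le_mul_of_nonneg_left (h1 j) (by positivity)
    _ = S * ε' := by rw [hS, Finset.sum_mul]
    _ ≤ (S + 1) * ε' := mul_le_mul_of_nonneg_right (by linarith) hε0.le
    _ = δ := by
        rw [hε']
        field_simp

/-- COMP2 -/
theorem t_COMP2 (hPROK : S_PROK2) (hSER : S_SER) : S_COMP2 := by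
  intro Z _ P X φ C hC H
  have hP := H.prob
  obtain ⟨σ, Λ, hσ, hΛ, hs, hm, hg⟩ := hPROK Z _ P inferInstance (fun n a => X n a 0) φ C hC H.m0
    H.wm H.w01 H.wlim H.isoInt0 H.bd H.sym
  have hmod := ae_mod2 hs hm
  refine ⟨σ, Λ.map (Ph hSER), hσ,
    Measure.isProbabilityMeasure_map (Ph_meas hSER).aemeasurable, ?_, ?_⟩
  · have hev : Measurable fun f : MW => f 0 :=
      (measurable_pi_apply (0 : ℂ)).comp measurable_subtype_coe
    rw [integrable_map_measure (hev.pow_const 2).aestronglyMeasurable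
      (Ph_meas hSER).aemeasurable]
    refine ⟨((hev.pow_const 2).comp (Ph_meas hSER)).aestronglyMeasurable, ?_⟩
    refine lt_of_le_of_lt ?_ (lt_of_le_of_lt (hm 0) ENNReal.ofReal_lt_top)
    refine lintegral_mono_ae ?_
    filter_upwards [hmod] with x hx
    have h0 := Ph_zero hSER hx
    show ‖(Ph hSER x 0) ^ 2‖ₑ ≤ ‖x 0‖ₑ ^ 2
    rw [← h0, enorm_pow]
    refine le_of_eq ?_
    congr 1
    rw [← ofReal_norm, ← ofReal_norm, Complex.norm_real]
  intro k w t i η hη
  -- the finite sums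
  set B : ℕ → (ℤ → ℂ) → ℝ := fun N x => (∑ j, (t j : ℂ) * PS N x (w j)).re with hB
  have hBc : ∀ N, Continuous (B N) := fun N => Complex.continuous_re.comp
    (continuous_finsetSum _ fun j _ => continuous_const.mul (PS_cont N (w j)))
  have hEc : ∀ N, Continuous fun x => Complex.exp (I * (B N x : ℂ)) := fun N =>
    Complex.continuous_exp.comp (continuous_const.mul (Complex.continuous_ofReal.comp (hBc N)))
  -- the limit N → ∞
  have hlinm : Measurable fun f : MW => lin w t f := by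
    unfold lin
    refine Finset.measurable_fun_sum _ fun j _ => ?_
    exact ((measurable_pi_apply (w j)).comp measurable_subtype_coe).const_mul _
  have hint : ∫ f : MW, Complex.exp (I * (lin w t f : ℝ)) ∂(Λ.map (Ph hSER)) =
      ∫ x, Complex.exp (I * (lin w t (Ph hSER x) : ℝ)) ∂Λ := by
    rw [integral_map (Ph_meas hSER).aemeasurable]
    exact (Complex.continuous_exp.measurable.comp ((Complex.measurable_ofReal.comp
      hlinm).const_mul I)).aestronglyMeasurable
  have hC5 : Tendsto (fun N => ∫ x, Complex.exp (I * (B N x : ℂ)) ∂Λ) atTop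
      (𝓝 (∫ x, Complex.exp (I * (lin w t (Ph hSER x) : ℝ)) ∂Λ)) := by
    refine tendsto_integral_of_dominated_convergence (fun _ => 1)
      (fun N => (hEc N).measurable.aestronglyMeasurable) (integrable_const _)
      (fun N => Filter.Eventually.of_forall fun x => (norm_exp_le _).le) ?_
    filter_upwards [hmod] with x hx
    have h1 : Tendsto (fun N => ∑ j, (t j : ℂ) * PS N x (w j)) atTop
        (𝓝 (∑ j, (t j : ℂ) * (Ph hSER x (w j) : ℂ))) :=
      tendsto_finsetSum _ fun j _ => (PS_lim hSER hx (w j)).const_mul _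
    have h2 : (∑ j, (t j : ℂ) * (Ph hSER x (w j) : ℂ)).re = lin w t (Ph hSER x) := by
      unfold lin
      rw [Complex.re_sum]
      refine Finset.sum_congr rfl fun j _ => ?_
      rw [← Complex.ofReal_mul, Complex.ofReal_re]
    have h3 := (Complex.continuous_re.tendsto _).comp h1
    rw [h2] at h3
    exact (Complex.continuous_exp.tendsto _).comp
      (((Complex.continuous_ofReal.tendsto _).comp h3).const_mul I)
  obtain ⟨N, hN5, hN1⟩ := ((Metric.tendsto_nhds.1 hC5 (η / 4) (by positivity)).and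
    (c1b H w t i (δ := (η / 4) ^ 2) (by positivity))).exists
  -- weak convergence
  have hC4 := hg (BoundedContinuousFunction.ofNormedAddCommGroup
    (fun x => Complex.exp (I * (B N x : ℂ))) (hEc N) 1 fun x => (norm_exp_le _).le)
  simp only [BoundedContinuousFunction.coe_ofNormedAddCommGroup] at hC4
  have hmw : ∀ᶠ n in atTop, ∀ j, AEMeasurable (fun z => (φ i z : ℂ) * X n 0 (w j) z) P :=
    eventually_all.2 fun j => H.mw i (w j)
  have hi1 : ∀ᶠ n in atTop, ∀ j, Integrable (fun z => φ i z * ‖X n 0 (w j) z‖ ^ 2) P :=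
    eventually_all.2 fun j => H.isoInt i (w j)
  have hi0 : ∀ᶠ n in atTop, ∀ p : ↥(Finset.range N ×ˢ Finset.range N),
      Integrable (fun z => φ i z * ‖X n ((p.1.1 : ℤ) - p.1.2) 0 z‖ ^ 2) P :=
    eventually_all.2 fun p => H.isoInt0 i _
  filter_upwards [Metric.tendsto_nhds.1 hC4 (η / 4) (by positivity),
    hσ.tendsto_atTop.eventually hN1, hσ.tendsto_atTop.eventually hmw,
    hσ.tendsto_atTop.eventually hi1, hσ.tendsto_atTop.eventually hi0] with n h4 h1 hmw hi1 hi0
  rw [dist_eq_norm] at h4 hN5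
  -- measurability
  have hY : AEMeasurable (fun z => fun a => X (σ n) a 0 z) P :=
    aemeasurable_pi_lambda _ fun a => H.m0 (σ n) a
  have hEB : AEMeasurable (fun z => Complex.exp (I * (B N (fun a => X (σ n) a 0 z) : ℂ))) P :=
    (hEc N).measurable.comp_aemeasurable hY
  have hEBi : Integrable (fun z => Complex.exp (I * (B N (fun a => X (σ n) a 0 z) : ℂ))) P :=
    Integrable.mono' (integrable_const (1 : ℝ)) hEB.aestronglyMeasurable
      (Filter.Eventually.of_forall fun z => (norm_exp_le _).le)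
  have hφb : ∀ (z : Z) (e : ℝ), ‖(φ i z : ℂ) * Complex.exp (I * (e : ℂ))‖ ≤ 1 := by
    intro z e
    rw [norm_mul, norm_exp_le, mul_one, Complex.norm_real, Real.norm_of_nonneg (H.w01 i z).1]
    exact (H.w01 i z).2
  have hφEB : Integrable (fun z => (φ i z : ℂ) *
      Complex.exp (I * (B N (fun a => X (σ n) a 0 z) : ℂ))) P :=
    Integrable.mono' (integrable_const (1 : ℝ))
      ((Complex.measurable_ofReal.comp (H.wm i)).aemeasurable.mul hEB).aestronglyMeasurable
      (Filter.Eventually.of_forall fun z => hφb z _)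
  have hφEA : Integrable (fun z => (φ i z : ℂ) * Complex.exp
      (I * (((∑ j, (t j : ℂ) * X (σ n) 0 (w j) z).re : ℝ) : ℂ))) P := by
    refine Integrable.mono' (integrable_const (1 : ℝ)) ?_
      (Filter.Eventually.of_forall fun z => hφb z _)
    exact (meas_w (H.wm i) (fun j => (t j : ℂ)) hmw
      (fun v => Complex.exp (I * ((v.re : ℝ) : ℂ))) (by fun_prop)).aestronglyMeasurable
  have hD : Integrable (fun z => φ i z * ‖∑ j, (t j : ℂ) * (X (σ n) 0 (w j) z -
      PS N (fun a => X (σ n) a 0 z) (w j))‖ ^ 2) P := by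
    have h := int_lin (P := P) (H.wm i) (H.w01 i)
      (J := Fin k ⊕ (Fin k × ↥(Finset.range N ×ˢ Finset.range N)))
      (Sum.elim (fun j => (t j : ℂ)) (fun q => -(t q.1 : ℂ) * cf (w q.1) q.2.1))
      (V := fun j z => X (σ n) ((Sum.elim (fun _ => (0 : ℤ))
        (fun q => (q.2.1.1 : ℤ) - q.2.1.2)) j) ((Sum.elim w (fun _ => (0 : ℂ))) j) z) ?_ ?_
    · have e1 : ∀ z : Z, _ := fun z => sum_D (N := N) w t (fun a v => X (σ n) a v z)
      simpa only [e1] using h
    · rintro (j | q)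
      · exact hmw j
      · exact (Complex.measurable_ofReal.comp (H.wm i)).aemeasurable.mul (H.m0 _ _)
    · rintro (j | q)
      · exact hi1 j
      · exact hi0 q.2
  have h2 := c2 (P := P) (H.w01 i) (A := fun z => (∑ j, (t j : ℂ) * X (σ n) 0 (w j) z).re)
    (B := fun z => B N (fun a => X (σ n) a 0 z))
    (D := fun z => ∑ j, (t j : ℂ) * (X (σ n) 0 (w j) z - PS N (fun a => X (σ n) a 0 z) (w j)))
    (fun z => by
      have e : (∑ j, (t j : ℂ) * X (σ n) 0 (w j) z).re - B N (fun a => X (σ n) a 0 z) =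
          (∑ j, (t j : ℂ) * (X (σ n) 0 (w j) z - PS N (fun a => X (σ n) a 0 z) (w j))).re := by
        rw [hB]
        simp only
        rw [← Complex.sub_re, ← Finset.sum_sub_distrib]
        congr 2
        funext j
        ring
      rw [e]
      exact Complex.abs_re_le_norm _) hφEA hφEB hD (by positivity : 0 < η / 4) h1
  have h3 := c3 (P := P) (H.wm i) (H.w01 i)
    (E := fun z => Complex.exp (I * (B N (fun a => X (σ n) a 0 z) : ℂ)))
    (fun z => (norm_exp_le _).le) hφEB hEBi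
  rw [hint]
  have key : ∀ a b c d e : ℂ, ‖a - e‖ ≤ ‖a - b‖ + ‖b - c‖ + ‖c - d‖ + ‖d - e‖ := by
    intro a b c d e
    have : a - e = (a - b) + (b - c) + (c - d) + (d - e) := by ring
    rw [this]
    exact (norm_add_le _ _).trans (add_le_add_left ((norm_add_le _ _).trans
      (add_le_add_left (norm_add_le _ _) _)) _)
  have h5 := key (∫ z, (φ i z : ℂ) * Complex.exp
      (I * (((∑ j, (t j : ℂ) * X (σ n) 0 (w j) z).re : ℝ) : ℂ)) ∂P)
    (∫ z, (φ i z : ℂ) * Complex.exp (I * (B N (fun a => X (σ n) a 0 z) : ℂ)) ∂P)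
    (∫ z, Complex.exp (I * (B N (fun a => X (σ n) a 0 z) : ℂ)) ∂P)
    (∫ x, Complex.exp (I * (B N x : ℂ)) ∂Λ)
    (∫ x, Complex.exp (I * (lin w t (Ph hSER x) : ℝ)) ∂Λ)
  linarith

end

end Pool.Agent.U26.SG
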