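import Pool.Agent.U458.SG.PROK
import Pool.Agent.U26.SG.Stm6

/-!
# PROK2: the package PROK of helper458 with a bound instead of a limit of the second moments
-/

set_option autoImplicit false
open MeasureTheory Filter Topology Complex
open scoped ContDiff ENNReal BoundedContinuousFunction

namespace Pool.Agent.U26.SG.Prok2

open Pool.Agent.U26.SG
open Pool.Agent.U458.SG (single_tight)

variable {Z : Type} [MeasurableSpace Z] {P : Measure Z} [IsProbabilityMeasure P]

lemma coord_tight {Y : ℕ → Z → ℂ} {φ : ℕ → Z → ℝ} (hY : ∀ n, AEMeasurable (Y n) P)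
    (hφm : ∀ i, Measurable (φ i)) (hφ : ∀ i z, φ i z ∈ Set.Icc (0 : ℝ) 1)
    (h1 : Tendsto (fun i => ∫ z, φ i z ∂P) atTop (𝓝 1))
    (h2 : ∀ i, ∀ᶠ n in atTop, Integrable (fun z => φ i z * ‖Y n z‖ ^ 2) P)
    {C : ℝ} (hC : 0 ≤ C) (h3 : ∀ i, ∀ᶠ n in atTop, ∫ z, φ i z * ‖Y n z‖ ^ 2 ∂P ≤ C)
    {ε : ℝ} (hε : 0 < ε) : ∃ R : ℝ, ∀ n, P {z | R < ‖Y n z‖} ≤ ENNReal.ofReal ε := by
  have hφi : ∀ i, Integrable (φ i) P := fun i =>
    (integrable_const (1 : ℝ)).mono' (hφm i).aestronglyMeasurable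
      (Eventually.of_forall fun z => by rw [Real.norm_eq_abs, abs_of_nonneg (hφ i z).1]; exact (hφ i z).2)
  have hφle : ∀ i, ∫ z, φ i z ∂P ≤ 1 := fun i => by
    have := integral_mono (hφi i) (integrable_const (1 : ℝ)) fun z => (hφ i z).2
    simpa using this
  -- choose `i`
  obtain ⟨i, hi⟩ : ∃ i, 1 - ε / 8 < ∫ z, φ i z ∂P :=
    (h1.eventually (lt_mem_nhds (show 1 - ε / 8 < 1 by linarith))).exists
  obtain ⟨R, hR0, hR⟩ : ∃ R : ℝ, 0 < R ∧ 2 * (C + 1) / R ^ 2 ≤ ε / 2 := by
    refine ⟨Real.sqrt (4 * (C + 1) / ε), Real.sqrt_pos.2 (by positivity), ?_⟩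
    rw [Real.sq_sqrt (by positivity)]
    apply le_of_eq; field_simp; norm_num
  have hev : ∀ᶠ n in atTop, P {z | R < ‖Y n z‖} ≤ ENNReal.ofReal ε := by
    filter_upwards [h2 i, h3 i]
      with n hn1 hn2
    have hsub : {z | R < ‖Y n z‖} ⊆ {z | (1:ℝ) / 2 ≤ 1 - φ i z} ∪ {z | R ^ 2 / 2 ≤ φ i z * ‖Y n z‖ ^ 2} := by
      intro z hz
      simp only [Set.mem_setOf_eq, Set.mem_union] at hz ⊢
      by_cases hc : (1:ℝ) / 2 ≤ 1 - φ i z
      · exact Or.inl hc
      · right
        push Not at hc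
        have e1 : (1:ℝ) / 2 ≤ φ i z := by linarith
        have e2 : R ^ 2 ≤ ‖Y n z‖ ^ 2 := by
          have := hz.le
          exact pow_le_pow_left₀ hR0.le this 2
        nlinarith [sq_nonneg R, sq_nonneg ‖Y n z‖]
    have m1 := mul_meas_ge_le_integral_of_nonneg (μ := P) (f := fun z => 1 - φ i z)
      (Eventually.of_forall fun z => by
        show (0:ℝ) ≤ 1 - φ i z
        linarith [(hφ i z).2]) ((integrable_const _).sub (hφi i)) (1 / 2)
    have m2 := mul_meas_ge_le_integral_of_nonneg (μ := P) (f := fun z => φ i z * ‖Y n z‖ ^ 2)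
      (Eventually.of_forall fun z => by
        show (0:ℝ) ≤ φ i z * ‖Y n z‖ ^ 2
        exact mul_nonneg (hφ i z).1 (by positivity)) hn1 (R ^ 2 / 2)
    rw [integral_sub (integrable_const _) (hφi i)] at m1
    simp only [integral_const, probReal_univ, smul_eq_mul, one_mul] at m1
    have k1 : P.real {z | (1:ℝ) / 2 ≤ 1 - φ i z} ≤ ε / 4 := by linarith
    have k2 : P.real {z | R ^ 2 / 2 ≤ φ i z * ‖Y n z‖ ^ 2} ≤ ε / 2 := by
      refine le_trans ?_ hR
      rw [le_div_iff₀ (by positivity)]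
      nlinarith
    have k3 : P.real {z | R < ‖Y n z‖} ≤ ε := by
      refine (measureReal_mono hsub).trans ((measureReal_union_le _ _).trans ?_)
      linarith
    rw [← ofReal_measureReal]
    exact ENNReal.ofReal_le_ofReal k3
  obtain ⟨N, hN⟩ := eventually_atTop.1 hev
  choose r hr using fun n => single_tight (P := P) (hY n) (ENNReal.ofReal_pos.2 hε)
  refine ⟨max R (∑ n ∈ Finset.range N, |r n|), fun n => ?_⟩
  by_cases hn : N ≤ n
  · refine (measure_mono fun z hz => ?_).trans (hN n hn)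
    rw [Set.mem_setOf_eq] at hz ⊢
    exact lt_of_le_of_lt (le_max_left _ _) hz
  · refine (measure_mono fun z hz => ?_).trans (hr n)
    rw [Set.mem_setOf_eq] at hz ⊢
    refine lt_of_le_of_lt ?_ hz
    refine le_trans ?_ (le_max_right _ _)
    refine (le_abs_self _).trans ?_
    exact Finset.single_le_sum (f := fun n => |r n|) (fun i _ => abs_nonneg _)
      (Finset.mem_range.2 (not_le.1 hn))

theorem t_PROK2 : S_PROK2 := by
  intro Z _ P _ Y φ C hC hY hφm hφ h1 h2 h3 hsym
  have hφi : ∀ i, Integrable (φ i) P := fun i =>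
    (integrable_const (1 : ℝ)).mono' (hφm i).aestronglyMeasurable
      (Eventually.of_forall fun z => by rw [Real.norm_eq_abs, abs_of_nonneg (hφ i z).1]; exact (hφ i z).2)
  let X : ℕ → Z → (ℤ → ℂ) := fun n z a => Y n a z
  have hX : ∀ n, AEMeasurable (X n) P := fun n => aemeasurable_pi_lambda _ fun a => hY n a
  have hprob : ∀ n, IsProbabilityMeasure (P.map (X n)) := fun n => Measure.isProbabilityMeasure_map (hX n)
  let L : ℕ → ProbabilityMeasure (ℤ → ℂ) := fun n => ⟨P.map (X n), hprob n⟩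
  have htight : IsTightMeasureSet {((μ : ProbabilityMeasure (ℤ → ℂ)) : Measure (ℤ → ℂ)) | μ ∈ Set.range L} := by
    rw [isTightMeasureSet_iff_exists_isCompact_measure_compl_le]
    intro ε hε
    obtain ⟨e, he0, he⟩ := ENNReal.exists_pos_sum_of_countable hε.ne' ℤ
    have hc : ∀ a : ℤ, ∃ R : ℝ, ∀ n, P {z | R < ‖Y n a z‖} ≤ (e a : ℝ≥0∞) := by
      intro a
      have := coord_tight (P := P) (Y := fun n => Y n a) (φ := φ) (fun n => hY n a) hφm hφ h1
        (fun i => h2 i a) hC (fun i => h3 i a) (ε := (e a : ℝ)) (NNReal.coe_pos.2 (he0 a))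
      simpa [ENNReal.ofReal_coe_nnreal] using this
    choose R hR using hc
    refine ⟨Set.pi Set.univ fun a => Metric.closedBall (0 : ℂ) (R a),
      isCompact_univ_pi fun a => isCompact_closedBall _ _, ?_⟩
    rintro μ ⟨_, ⟨n, rfl⟩, rfl⟩
    show (P.map (X n)) _ ≤ ε
    have hKc : IsCompact (Set.pi Set.univ fun a : ℤ => Metric.closedBall (0 : ℂ) (R a)) :=
      isCompact_univ_pi fun a => isCompact_closedBall _ _
    rw [Measure.map_apply_of_aemeasurable (hX n) hKc.measurableSet.compl]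
    have hsub : X n ⁻¹' (Set.pi Set.univ fun a : ℤ => Metric.closedBall (0 : ℂ) (R a))ᶜ ⊆
        ⋃ a : ℤ, {z | R a < ‖Y n a z‖} := by
      intro z hz
      simp only [Set.mem_preimage, Set.mem_compl_iff, Set.mem_pi, Set.mem_univ, true_imp_iff,
        mem_closedBall_zero_iff, not_forall, not_le] at hz
      obtain ⟨a, ha⟩ := hz
      exact Set.mem_iUnion.2 ⟨a, ha⟩
    refine (measure_mono hsub).trans ((measure_iUnion_le _).trans ?_)
    exact (ENNReal.tsum_le_tsum fun a => hR a n).trans he.le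
  have hcpt := isCompact_closure_of_isTightMeasureSet htight
  obtain ⟨Λ, -, σ, hσ, hlim⟩ := hcpt.tendsto_subseq (x := L) fun n => subset_closure (Set.mem_range_self n)
  have hint : ∀ g : (ℤ → ℂ) →ᵇ ℂ, Tendsto (fun n => ∫ z, g (fun a => Y (σ n) a z) ∂P) atTop
      (𝓝 (∫ x, g x ∂(Λ : Measure (ℤ → ℂ)))) := by
    intro g
    have h := (ProbabilityMeasure.tendsto_iff_forall_integral_rclike_tendsto ℂ).1 hlim g
    refine h.congr fun n => ?_
    show ∫ x, g x ∂(P.map (X (σ n))) = _
    rw [integral_map (hX _) g.continuous.aestronglyMeasurable]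
  have hintR : ∀ g : (ℤ → ℂ) →ᵇ ℝ, Tendsto (fun n => ∫ z, g (fun a => Y (σ n) a z) ∂P) atTop
      (𝓝 (∫ x, g x ∂(Λ : Measure (ℤ → ℂ)))) := by
    intro g
    have h := ProbabilityMeasure.tendsto_iff_forall_integral_tendsto.1 hlim g
    refine h.congr fun n => ?_
    show ∫ x, g x ∂(P.map (X (σ n))) = _
    rw [integral_map (hX _) g.continuous.aestronglyMeasurable]
  refine ⟨σ, (Λ : Measure (ℤ → ℂ)), hσ, inferInstance, ?_, ?_, hint⟩
  · -- symmetry
    have hcl : IsClosed {x : ℤ → ℂ | Sym x} := by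
      have e : {x : ℤ → ℂ | Sym x} = ⋂ k : ℤ, {x | x (-k) = (-1) ^ k.natAbs * starRingEnd ℂ (x k)} := by
        ext x
        simp only [Set.mem_setOf_eq, Set.mem_iInter]
        exact Iff.rfl
      rw [e]
      exact isClosed_iInter fun k => isClosed_eq (continuous_apply _)
        (continuous_const.mul (Complex.continuous_conj.comp (continuous_apply _)))
    have h1' : ∀ n, ((L n : Measure (ℤ → ℂ))) {x | Sym x} = 1 := by
      intro n
      show (P.map (X n)) {x | Sym x} = 1
      rw [Measure.map_apply_of_aemeasurable (hX n) hcl.measurableSet]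
      have h := hsym n
      have h' : P (X n ⁻¹' {x | Sym x})ᶜ = 0 := by
        rw [ae_iff] at h
        exact h
      have h3' := prob_compl_eq_zero_iff₀ ((hX n).nullMeasurable hcl.measurableSet) |>.1 h'
      exact h3'
    have hls := ProbabilityMeasure.limsup_measure_closed_le_of_tendsto hlim hcl
    have hls1 : (1 : ℝ≥0∞) ≤ (Λ : Measure (ℤ → ℂ)) {x | Sym x} := by
      refine le_trans ?_ hls
      have : (fun n => ((L ∘ σ) n : Measure (ℤ → ℂ)) {x | Sym x}) = fun _ => (1 : ℝ≥0∞) := by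
        funext n; exact h1' (σ n)
      rw [this, limsup_const]
    have hfin : (Λ : Measure (ℤ → ℂ)) {x | Sym x} = 1 := le_antisymm prob_le_one hls1
    have := (prob_compl_eq_zero_iff hcl.measurableSet).2 hfin
    rw [ae_iff]
    exact this
  · intro a
    have hK : ∀ K : ℕ, ∫ x, min (‖x a‖ ^ 2) (K : ℝ) ∂(Λ : Measure (ℤ → ℂ)) ≤ C := by
      intro K
      have hgc : Continuous fun x : ℤ → ℂ => min (‖x a‖ ^ 2) (K : ℝ) :=
        (((continuous_apply a).norm).pow 2).min continuous_const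
      have hgb : ∀ x : ℤ → ℂ, ‖min (‖x a‖ ^ 2) (K : ℝ)‖ ≤ K := fun x => by
        rw [Real.norm_eq_abs, abs_of_nonneg (le_min (by positivity) (Nat.cast_nonneg K))]
        exact min_le_right _ _
      let g : (ℤ → ℂ) →ᵇ ℝ := BoundedContinuousFunction.ofNormedAddCommGroup _ hgc K hgb
      have hg := hintR g
      have hbd : ∀ i, ∫ x, g x ∂(Λ : Measure (ℤ → ℂ)) ≤ C + K * (1 - ∫ z, φ i z ∂P) := by
        intro i
        refine le_of_tendsto hg ?_
        filter_upwards [hσ.tendsto_atTop.eventually (h2 i a), hσ.tendsto_atTop.eventually (h3 i a)]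
          with n hn hn3
        refine le_trans ?_ (add_le_add_left hn3 _)
        have hgi : Integrable (fun z => g (fun a => Y (σ n) a z)) P := by
          refine (integrable_const (K : ℝ)).mono' (hgc.measurable.comp_aemeasurable (hX (σ n))).aestronglyMeasurable
            (Eventually.of_forall fun z => hgb (X (σ n) z))
        have hi1 : Integrable (fun z => (K : ℝ) * (1 - φ i z)) P :=
          ((integrable_const (1:ℝ)).sub (hφi i)).const_mul _
        have e1 : (∫ z, φ i z * ‖Y (σ n) a z‖ ^ 2 ∂P) + K * (1 - ∫ z, φ i z ∂P) =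
            ∫ z, (φ i z * ‖Y (σ n) a z‖ ^ 2 + K * (1 - φ i z)) ∂P := by
          rw [integral_add hn hi1, integral_const_mul, integral_sub (integrable_const _) (hφi i)]
          simp
        rw [e1]
        refine integral_mono hgi (hn.add hi1) fun z => ?_
        show min (‖Y (σ n) a z‖ ^ 2) (K : ℝ) ≤ φ i z * ‖Y (σ n) a z‖ ^ 2 + K * (1 - φ i z)
        have q1 := min_le_left (‖Y (σ n) a z‖ ^ 2) (K : ℝ)
        have q2 := min_le_right (‖Y (σ n) a z‖ ^ 2) (K : ℝ)
        have q3 := (hφ i z).1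
        have q4 := (hφ i z).2
        nlinarith
      have hlim2 : Tendsto (fun i => C + K * (1 - ∫ z, φ i z ∂P)) atTop (𝓝 C) := by
        have := ((tendsto_const_nhds (x := (1:ℝ)).sub h1).const_mul (K : ℝ)).const_add C
        simpa using this
      exact ge_of_tendsto' hlim2 hbd
    have hmono : ∀ᵐ x ∂(Λ : Measure (ℤ → ℂ)), Monotone fun K : ℕ => ENNReal.ofReal (min (‖x a‖ ^ 2) (K : ℝ)) :=
      Eventually.of_forall fun x K K' hKK => ENNReal.ofReal_le_ofReal
        (min_le_min le_rfl (Nat.cast_le.2 hKK))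
    have htend : ∀ᵐ x ∂(Λ : Measure (ℤ → ℂ)), Tendsto (fun K : ℕ => ENNReal.ofReal (min (‖x a‖ ^ 2) (K : ℝ))) atTop
        (𝓝 (‖x a‖ₑ ^ 2)) := by
      refine Eventually.of_forall fun x => ?_
      refine tendsto_const_nhds.congr' ?_
      obtain ⟨K0, hK0⟩ := exists_nat_ge (‖x a‖ ^ 2)
      filter_upwards [eventually_ge_atTop K0] with K hK
      have : min (‖x a‖ ^ 2) (K : ℝ) = ‖x a‖ ^ 2 := min_eq_left (hK0.trans (Nat.cast_le.2 hK))
      rw [this, ENNReal.ofReal_pow (norm_nonneg _), ofReal_norm]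
    have hconv := lintegral_tendsto_of_tendsto_of_monotone
      (fun K => (ENNReal.measurable_ofReal.comp (((((measurable_pi_apply a).norm).pow_const 2).min
        measurable_const))).aemeasurable) hmono htend
    refine le_of_tendsto' hconv fun K => ?_
    have hgc : Continuous fun x : ℤ → ℂ => min (‖x a‖ ^ 2) (K : ℝ) :=
        (((continuous_apply a).norm).pow 2).min continuous_const
    have hgi : Integrable (fun x : ℤ → ℂ => min (‖x a‖ ^ 2) (K : ℝ)) (Λ : Measure (ℤ → ℂ)) :=
      (integrable_const (K : ℝ)).mono' hgc.aestronglyMeasurable (Eventually.of_forall fun x => by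
        rw [Real.norm_eq_abs, abs_of_nonneg (le_min (by positivity) (Nat.cast_nonneg K))]
        exact min_le_right _ _)
    show ∫⁻ x, ENNReal.ofReal (min (‖x a‖ ^ 2) (K : ℝ)) ∂(Λ : Measure (ℤ → ℂ)) ≤ ENNReal.ofReal C
    rw [← ofReal_integral_eq_lintegral_ofReal hgi
      (Eventually.of_forall fun x => le_min (by positivity) (Nat.cast_nonneg K))]
    exact ENNReal.ofReal_le_ofReal (hK K)

end Pool.Agent.U26.SG.Prok2
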