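import Pool.Agent.U26.SG.All2
import Pool.Agent.U26.SG.Comp5
import Pool.Agent.U26.SG.Prok2
import Pool.Agent.U55.SG.SER
import Pool.Agent.U571.SG.EN
import Pool.Agent.U876.SG.TR
import Pool.Agent.U606.SG.STL
import Pool.Agent.U123.SG.PL2

/-!
# Planar domains: local limits exist and are stationary, without quantum ergodicity
-/

set_option autoImplicit false

namespace Pool.Agent.U26.SG

theorem comp2 : S_COMP2 := t_COMP2 Prok2.t_PROK2 Pool.Agent.U55.SG.t_SER

theorem pl2 : S_PL2 := Pool.Agent.U123.SG.t_PL2 comp2 Pool.Agent.U571.SG.t_EN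
  (Pool.Agent.U876.SG.t_TR Pool.Agent.U571.SG.t_EN) Pool.Agent.U606.SG.STL.t_STL

end Pool.Agent.U26.SG
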