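import Pool.Agent.U26.SG.Comp3
import Pool.Agent.U458.SG.PROK
import Pool.Agent.U55.SG.SER
import Pool.Agent.U402.SG.TAY

/-!
# COMP, fourth part: the compactness theorem
-/

set_option autoImplicit false

namespace Pool.Agent.U26.SG

theorem comp : S_COMP :=
  t_COMP Pool.Agent.U458.SG.t_PROK Pool.Agent.U55.SG.t_SER Pool.Agent.U402.SG.t_TAY

end Pool.Agent.U26.SG
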