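import Pool.Agent.U26.SG.Lim

/-!
# Signs on invariant events
-/

set_option autoImplicit false
open MeasureTheory Filter Topology ProbabilityTheory
open scoped ENNReal

namespace Pool.Agent.U26.SG

open Pool.Agent.N661.BR
open Pool.Agent.U26.SB
open Pool.Agent.N136.BRFIN (L meas_L)

variable {μ : Measure MW} [IsProbabilityMeasure μ]

theorem exh_cond (H : Exh μ) {A : Set MW} (hA : MeasurableSet A)
    (hinv : ∀ x : ℂ, shift x ⁻¹' A =ᵐ[μ] A) (h0 : μ A ≠ 0) : Exh (cond μ A) where
  st := cond_stat H.st hA hinv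
  fin := cond_absolutelyContinuous.ae_le H.fin
  inv x := cond_absolutelyContinuous.ae_le (H.inv x)
  i4 c := by
    have h1 : IntegrableOn (fun f : MW => f 0 ^ 4) {f : MW | L f ≤ c} (μ.restrict A) := by
      show Integrable (fun f : MW => f 0 ^ 4) ((μ.restrict A).restrict {f : MW | L f ≤ c})
      rw [Measure.restrict_restrict (Exh.mA c), Set.inter_comm]
      rw [← Measure.restrict_restrict hA]
      exact Integrable.restrict (H.i4 c)
    have h2 : (cond μ A).restrict {f : MW | L f ≤ c} =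
        (μ A)⁻¹ • (μ.restrict A).restrict {f : MW | L f ≤ c} := by
      rw [ProbabilityTheory.cond, Measure.restrict_smul]
    show Integrable (fun f : MW => f 0 ^ 4) ((cond μ A).restrict {f : MW | L f ≤ c})
    rw [h2]
    exact Integrable.smul_measure h1 (ENNReal.inv_ne_top.2 h0)

theorem inv_sign (H : Exh μ) {A : Set MW} (hA : MeasurableSet A)
    (hinv : ∀ x : ℂ, shift x ⁻¹' A =ᵐ[μ] A) {k : ℕ} (w : Fin k → ℂ) (t : Fin k → ℝ) :
    SB.cst * μ.real (A ∩ {f | lin w t f ≠ 0}) ≤ μ.real (A ∩ {f | 0 < lin w t f}) ∧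
    SB.cst * μ.real (A ∩ {f | lin w t f ≠ 0}) ≤ μ.real (A ∩ {f | lin w t f < 0}) := by
  by_cases h0 : μ A = 0
  · have e : ∀ E : Set MW, μ.real (A ∩ E) = 0 := fun E => by
      rw [measureReal_def, measure_mono_null Set.inter_subset_left h0, ENNReal.toReal_zero]
    rw [e, e, e, mul_zero]
    exact ⟨le_rfl, le_rfl⟩
  · have hp : IsProbabilityMeasure (cond μ A) := cond_isProbabilityMeasure h0
    have h1 := all_sign2 (exh_cond H hA hinv h0) w t
    have hcr : ∀ E : Set MW, (cond μ A).real E = (μ.real A)⁻¹ * μ.real (A ∩ E) := by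
      intro E
      rw [measureReal_def, cond_apply hA, ENNReal.toReal_mul, ENNReal.toReal_inv]
      rfl
    rw [hcr, hcr, hcr] at h1
    have hpos : 0 < μ.real A := ENNReal.toReal_pos h0 (measure_ne_top _ _)
    have key : ∀ x y : ℝ, SB.cst * ((μ.real A)⁻¹ * x) ≤ (μ.real A)⁻¹ * y → SB.cst * x ≤ y := by
      intro x y h
      have h2 := mul_le_mul_of_nonneg_left h hpos.le
      have e1 : μ.real A * (SB.cst * ((μ.real A)⁻¹ * x)) = SB.cst * x := by field_simp
      have e2 : μ.real A * ((μ.real A)⁻¹ * y) = y := by field_simp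
      rwa [e1, e2] at h2
    exact ⟨key _ _ h1.1, key _ _ h1.2⟩

end Pool.Agent.U26.SG
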