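import Pool.Agent.U26.SG.All
import Pool.Agent.U26.SG.Inv
import Pool.Agent.U26.SG.Comp4
import Pool.Agent.U433.SG.HY

/-!
# Hyperbolic surfaces: local limits exist
-/

set_option autoImplicit false

namespace Pool.Agent.U26.SG

theorem hy : S_HY := Pool.Agent.U433.SG.t_HY comp

end Pool.Agent.U26.SG
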