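import Pool.Agent.U26.SG.Stm2
import Pool.Agent.U26.SB.Pl
import Pool.Agent.U26.SB.Hyp

/-!
# Project SG (helper26), third part: the abstract compactness theorem and its applications
-/

set_option autoImplicit false
open MeasureTheory Filter Topology Complex
open scoped ContDiff ENNReal

namespace Pool.Agent.U26.SG

open Pool.Agent.W745.RW (lap)
open Pool.Agent.Y265.RW (sy rr)
open Pool.Agent.N661.BR (MW lin IsCutoff)
open Pool.Agent.N661.BH (HP)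

noncomputable section

/-- random functions `X n 0 w` (`w` in the plane), with their derivatives `X n a w`, whose second
moments tend to those of the random wave; `φ i` are weights which exhaust the space -/
structure Dt {Z : Type} [MeasurableSpace Z] (P : Measure Z) (X : ℕ → ℤ → ℂ → Z → ℂ)
    (φ : ℕ → Z → ℝ) : Prop where
  prob : IsProbabilityMeasure P
  wm : ∀ i, Measurable (φ i)
  w01 : ∀ i z, φ i z ∈ Set.Icc (0 : ℝ) 1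
  wlim : Tendsto (fun i => ∫ z, φ i z ∂P) atTop (𝓝 1)
  m0 : ∀ n a, AEMeasurable (X n a 0) P
  mw : ∀ i w, ∀ᶠ n in atTop, AEMeasurable (fun z => (φ i z : ℂ) * X n 0 w z) P
  sym : ∀ n, ∀ᵐ z ∂P, Sym fun a => X n a 0 z
  isoInt0 : ∀ i a, ∀ᶠ n in atTop, Integrable (fun z => φ i z * ‖X n a 0 z‖ ^ 2) P
  isoInt : ∀ i w, ∀ᶠ n in atTop, Integrable (fun z => φ i z * ‖X n 0 w z‖ ^ 2) P
  iso : ∀ (i k : ℕ) (c : Fin k → ℂ) (a : Fin k → ℤ) (w : Fin k → ℂ),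
    Tendsto (fun n => ∫ z, φ i z * ‖∑ j, c j * X n (a j) (w j) z‖ ^ 2 ∂P) atTop
      (𝓝 ((1 / (2 * Real.pi) * ∫ α in (0:ℝ)..(2 * Real.pi),
        ‖∑ j, c j * (sy α ^ (a j) * Complex.exp ((rr (w j) α : ℂ) * I))‖ ^ 2) * ∫ z, φ i z ∂P))

/-- COMP: compactness -/
def S_COMP : Prop := ∀ (Z : Type) (_ : MeasurableSpace Z) (P : Measure Z)
  (X : ℕ → ℤ → ℂ → Z → ℂ) (φ : ℕ → Z → ℝ), Dt P X φ →
  ∃ (σ : ℕ → ℕ) (μ : Measure MW), StrictMono σ ∧ IsProbabilityMeasure μ ∧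
    ∀ (k : ℕ) (w : Fin k → ℂ) (t : Fin k → ℝ) (i : ℕ) (η : ℝ), 0 < η → ∀ᶠ n in atTop,
      ‖(∫ z, (φ i z : ℂ) * Complex.exp
          (I * (((∑ j, (t j : ℂ) * X (σ n) 0 (w j) z).re : ℝ) : ℂ)) ∂P) -
        ∫ f : MW, Complex.exp (I * (lin w t f : ℝ)) ∂μ‖ ≤ 1 - (∫ z, φ i z ∂P) + η

/-- PL: planar domains have local limits -/
def S_PL : Prop := ∀ (Ω : Set ℂ), IsOpen Ω → Bornology.IsBounded Ω → Ω.Nonempty →
  ∀ (lam : ℕ → ℝ), (∀ n, 0 < lam n) → Tendsto lam atTop atTop → ∀ (u : ℕ → ℂ → ℝ),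
  (∀ n, ContDiffOn ℝ ∞ (u n) Ω) → (∀ n, ∀ z ∈ Ω, lap (u n) z + lam n * u n z = 0) →
  Pool.Agent.N661.BR.IsQuantumErgodic Ω lam u → ∀ χ : ℝ → ℝ, IsCutoff χ →
  ∃ (σ : ℕ → ℕ) (μ : Measure MW), StrictMono σ ∧ IsProbabilityMeasure μ ∧
    Pool.Agent.U26.SB.ConvergesAlong σ χ Ω lam u μ

/-- HY: hyperbolic surfaces have local limits -/
def S_HY : Prop := ∀ (Ω : Set ℂ), IsOpen Ω → Ω ⊆ HP → Ω.Nonempty →
  IntegrableOn (fun z : ℂ => 1 / z.im ^ 2) Ω →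
  ∀ (lam : ℕ → ℝ), (∀ n, 0 < lam n) → Tendsto lam atTop atTop → ∀ (u : ℕ → ℂ → ℝ),
  (∀ n, ContDiffOn ℝ ∞ (u n) HP) →
  (∀ n, ∀ z ∈ HP, z.im ^ 2 * lap (u n) z + lam n * u n z = 0) →
  Pool.Agent.N661.BH.IsQuantumErgodic Ω lam u →
  ∃ (σ : ℕ → ℕ) (μ : Measure MW), StrictMono σ ∧ IsProbabilityMeasure μ ∧
    Pool.Agent.U26.SB.ConvergesAlongH σ Ω lam u μ

end

end Pool.Agent.U26.SG
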