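import Pool.Agent.U26.SG.Lim
import Pool.Agent.U26.SG.Stm3
import Pool.Agent.U26.SB.Fin
import Mathlib.Analysis.SpecialFunctions.SmoothTransition

/-!
# The areas, for all quantum ergodic sequences
-/

set_option autoImplicit false
open MeasureTheory Filter Topology
open scoped ContDiff

namespace Pool.Agent.U26.SG

open Pool.Agent.W745.RW (lap)
open Pool.Agent.N661.BR

theorem ex_cutoff : ∃ χ : ℝ → ℝ, IsCutoff χ := by
  refine ⟨fun t => Real.smoothTransition (2 - 2 * t), ?_, ?_, ?_, ?_, ?_⟩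
  · exact ((Real.smoothTransition.contDiff (n := ⊤)).comp
      (contDiff_const.sub (contDiff_const.mul contDiff_id))).contDiffOn
  · intro a _ b _ hab
    exact Real.smoothTransition.monotone (by linarith)
  · intro t _
    exact ⟨Real.smoothTransition.nonneg _, Real.smoothTransition.le_one _⟩
  · exact ⟨1 / 2, by norm_num, fun t _ h => Real.smoothTransition.one_of_one_le (by linarith)⟩
  · intro t h
    exact Real.smoothTransition.zero_of_nonpos (by linarith)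

theorem planar_all (hPL : S_PL) {Ω : Set ℂ} (hΩ : IsOpen Ω) (hb : Bornology.IsBounded Ω)
    (hne : Ω.Nonempty) {lam : ℕ → ℝ} (hpos : ∀ n, 0 < lam n) (hlam : Tendsto lam atTop atTop)
    {u : ℕ → ℂ → ℝ} (hu : ∀ n, ContDiffOn ℝ ∞ (u n) Ω)
    (heq : ∀ n, ∀ z ∈ Ω, lap (u n) z + lam n * u n z = 0) (hqe : IsQuantumErgodic Ω lam u)
    {χ : ℝ → ℝ} (hχ : IsCutoff χ) {k : ℕ} (w : Fin k → ℂ) (t : Fin k → ℝ) {ε : ℝ} (hε : 0 < ε) :
    ∀ᶠ n in atTop,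
      SB.cst * volume.real {z | z ∈ Ω ∧ ε ≤ |∑ j, t j * resc χ Ω (lam n) (u n) z (w j)|} -
          ε * volume.real Ω ≤
        volume.real {z | z ∈ Ω ∧ 0 < ∑ j, t j * resc χ Ω (lam n) (u n) z (w j)} ∧
      SB.cst * volume.real {z | z ∈ Ω ∧ ε ≤ |∑ j, t j * resc χ Ω (lam n) (u n) z (w j)|} -
          ε * volume.real Ω ≤
        volume.real {z | z ∈ Ω ∧ ∑ j, t j * resc χ Ω (lam n) (u n) z (w j) < 0} := by
  by_contra hcon
  rw [Filter.not_eventually] at hcon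
  obtain ⟨τ, hτ, hτP⟩ := Filter.extraction_of_frequently_atTop hcon
  have hlam' : Tendsto (lam ∘ τ) atTop atTop := hlam.comp hτ.tendsto_atTop
  have hqe' : IsQuantumErgodic Ω (lam ∘ τ) (u ∘ τ) := fun φ hφ k =>
    (hqe φ hφ k).comp hτ.tendsto_atTop
  obtain ⟨σ, μ, hσ, hμp, hμ⟩ := hPL Ω hΩ hb hne (lam ∘ τ) (fun n => hpos _) hlam' (u ∘ τ)
    (fun n => hu _) (fun n => heq _) hqe' χ hχ
  have hex : Exh μ := exh_planar (lam := lam ∘ τ) (u := u ∘ τ) hΩ hb hne (fun n => hpos _) hlam'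
    (fun n => hu _) (fun n => heq _) hqe' hχ ⟨σ, hσ, hμ⟩
  have h1 := SB.areas (lam := lam ∘ τ) (u := u ∘ τ) hΩ hb hne hχ (fun n => hpos _)
    (fun n => hu _) hμ w t SB.cst_pos.le SB.cst_le_one (all_sign2 hex w t) hε
  obtain ⟨n, hn⟩ := h1.exists
  exact hτP (σ n) hn

theorem planar_pt (hPL : S_PL) {Ω : Set ℂ} (hΩ : IsOpen Ω) (hb : Bornology.IsBounded Ω)
    (hne : Ω.Nonempty) {lam : ℕ → ℝ} (hpos : ∀ n, 0 < lam n) (hlam : Tendsto lam atTop atTop)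
    {u : ℕ → ℂ → ℝ} (hu : ∀ n, ContDiffOn ℝ ∞ (u n) Ω)
    (heq : ∀ n, ∀ z ∈ Ω, lap (u n) z + lam n * u n z = 0) (hqe : IsQuantumErgodic Ω lam u)
    {ε : ℝ} (hε : 0 < ε) :
    ∀ᶠ n in atTop,
      SB.cst * volume.real {z | z ∈ Ω ∧ ε ≤ |u n z|} - ε * volume.real Ω ≤
        volume.real {z | z ∈ Ω ∧ 0 < u n z} ∧
      SB.cst * volume.real {z | z ∈ Ω ∧ ε ≤ |u n z|} - ε * volume.real Ω ≤
        volume.real {z | z ∈ Ω ∧ u n z < 0} := by
  obtain ⟨χ, hχ⟩ := ex_cutoff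
  have h := planar_all hPL hΩ hb hne hpos hlam hu heq hqe hχ (k := 1) (fun _ => 0) (fun _ => 1) hε
  simpa only [SB.resc_zero hχ, Finset.univ_unique, Finset.sum_singleton, one_mul] using h

open Pool.Agent.N661.BH (HP) in
theorem hyp_all (hHY : S_HY) {Ω : Set ℂ} (hΩ : IsOpen Ω) (hHP : Ω ⊆ HP) (hne : Ω.Nonempty)
    (hA : IntegrableOn (fun z : ℂ => 1 / z.im ^ 2) Ω)
    {lam : ℕ → ℝ} (hpos : ∀ n, 0 < lam n) (hlam : Tendsto lam atTop atTop)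
    {u : ℕ → ℂ → ℝ} (hu : ∀ n, ContDiffOn ℝ ∞ (u n) HP)
    (heq : ∀ n, ∀ z ∈ HP, z.im ^ 2 * lap (u n) z + lam n * u n z = 0)
    (hqe : Pool.Agent.N661.BH.IsQuantumErgodic Ω lam u) {ε : ℝ} (hε : 0 < ε) :
    ∀ᶠ n in atTop,
      SB.cst * SB.harea {z | z ∈ Ω ∧ ε ≤ |u n z|} - ε * SB.harea Ω ≤
        SB.harea {z | z ∈ Ω ∧ 0 < u n z} ∧
      SB.cst * SB.harea {z | z ∈ Ω ∧ ε ≤ |u n z|} - ε * SB.harea Ω ≤
        SB.harea {z | z ∈ Ω ∧ u n z < 0} := by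
  by_contra hcon
  rw [Filter.not_eventually] at hcon
  obtain ⟨τ, hτ, hτP⟩ := Filter.extraction_of_frequently_atTop hcon
  have hlam' : Tendsto (lam ∘ τ) atTop atTop := hlam.comp hτ.tendsto_atTop
  have hqe' : Pool.Agent.N661.BH.IsQuantumErgodic Ω (lam ∘ τ) (u ∘ τ) := fun φ hφ k =>
    (hqe φ hφ k).comp hτ.tendsto_atTop
  obtain ⟨σ, μ, hσ, hμp, hμ⟩ := hHY Ω hΩ hHP hne hA (lam ∘ τ) (fun n => hpos _) hlam' (u ∘ τ)
    (fun n => hu _) (fun n => heq _) hqe'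
  have hex : Exh μ := exh_hyp (lam := lam ∘ τ) (u := u ∘ τ) hΩ hHP hne hA (fun n => hpos _) hlam'
    (fun n => hu _) (fun n => heq _) hqe' ⟨σ, hσ, hμ⟩
  have h1 := SB.hareas (lam := lam ∘ τ) (u := u ∘ τ) hΩ hHP hne hA (fun n => hu _) hμ
    SB.cst_pos.le SB.cst_le_one ?_ hε
  · obtain ⟨n, hn⟩ := h1.exists
    exact hτP (σ n) hn
  · have h4 := all_sign2 hex (k := 1) (fun _ => 0) fun _ => 1
    simpa only [lin, Finset.univ_unique, Finset.sum_singleton, one_mul] using h4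

end Pool.Agent.U26.SG
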