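import Pool.Agent.U26.SG.AsmG

/-!
# The conditional kurtosis of stationary waves with finite variance
-/

set_option autoImplicit false
open MeasureTheory Filter Topology ProbabilityTheory
open scoped ENNReal

namespace Pool.Agent.U26.SG

open Pool.Agent.W745.RW (lap dx dy TF W)
open Pool.Agent.N661.BR
open Pool.Agent.N141.BRERG4 (ev ev_meas wv)
open Pool.Agent.R989.Erg (sh inv inv_le x2 x2_meas)
open Pool.Agent.R989.Asm (X4 X4_meas)

/-- the σ-algebra of the invariant events -/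
@[reducible] def Inv (μ : Measure MW) : MeasurableSpace MW where
  MeasurableSet' A := MeasurableSet A ∧ ∀ x : ℂ, shift x ⁻¹' A =ᵐ[μ] A
  measurableSet_empty := ⟨MeasurableSet.empty, fun _ => Filter.EventuallyEq.of_eq Set.preimage_empty⟩
  measurableSet_compl A hA := ⟨hA.1.compl, fun x => by
    rw [Set.preimage_compl]; exact (hA.2 x).compl⟩
  measurableSet_iUnion f hf := ⟨MeasurableSet.iUnion fun i => (hf i).1, fun x => by
    rw [Set.preimage_iUnion]; exact EventuallyEq.countable_iUnion fun i => (hf i).2 x⟩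

theorem Inv_le (μ : Measure MW) : Inv μ ≤ (inferInstance : MeasurableSpace MW) := fun _ hA => hA.1

section

variable {μ : Measure MW}

theorem ce_measI : Measurable[Inv μ] (ce μ) := by
  intro S hS
  have hcm : Measurable[inv (μ.map ev)] ((μ.map ev)[x2 | inv (μ.map ev)]) :=
    stronglyMeasurable_condExp.measurable
  exact ⟨ev_meas (inv_le _ _ (hcm hS)), fun x => inv_ev (hcm hS) x⟩

variable [IsProbabilityMeasure μ]

theorem ce_eq (i2 : Integrable (fun f : MW => f 0 ^ 2) μ) :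
    ce μ =ᵐ[μ] μ[fun f : MW => f 0 ^ 2 | Inv μ] :=
  ae_eq_condExp_of_forall_setIntegral_eq (Inv_le μ) i2
    (fun _ _ _ => (ce_int i2).integrableOn) (fun _ hB _ => (int_ce i2 hB.1 hB.2).symm)
    (ce_measI.stronglyMeasurable.aestronglyMeasurable)

theorem inv_inter {A B : Set MW} (hA : MeasurableSet[Inv μ] A)
    (hB : MeasurableSet[Inv (cond μ A)] B) : MeasurableSet[Inv μ] (A ∩ B) := by
  refine ⟨hA.1.inter hB.1, fun x => ?_⟩
  have h2 := hB.2 x
  have h3 : ∀ᵐ f ∂μ, f ∈ A → (f ∈ shift x ⁻¹' B) = (f ∈ B) := by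
    have h4 : ∀ᵐ f ∂(μ.restrict A), (f ∈ shift x ⁻¹' B) = (f ∈ B) := by
      have h5 : (cond μ A) = (μ A)⁻¹ • μ.restrict A := rfl
      have h6 : ∀ᵐ f ∂(cond μ A), (f ∈ shift x ⁻¹' B) = (f ∈ B) := h2
      rw [h5, Measure.ae_ennreal_smul_measure_iff] at h6
      · exact h6
      · exact ENNReal.inv_ne_zero.2 (measure_ne_top _ _)
    rwa [ae_restrict_iff' hA.1] at h4
  filter_upwards [hA.2 x, h3] with f h4 h5
  have h6 : (f ∈ shift x ⁻¹' A) = (f ∈ A) := h4
  show (f ∈ shift x ⁻¹' A ∧ f ∈ shift x ⁻¹' B) = (f ∈ A ∧ f ∈ B)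
  rw [h6]
  by_cases hfA : f ∈ A
  · rw [h5 hfA]
  · simp [hfA]

theorem int_cnd {A B : Set MW} (hB : MeasurableSet B) (g : MW → ℝ) :
    ∫ f in B, g f ∂(cond μ A) = (μ A)⁻¹.toReal * ∫ f in A ∩ B, g f ∂μ := by
  have h4 : (cond μ A).restrict B = (μ A)⁻¹ • μ.restrict (A ∩ B) := by
    rw [ProbabilityTheory.cond, Measure.restrict_smul, Measure.restrict_restrict hB,
      Set.inter_comm]
  rw [h4, integral_smul_measure, smul_eq_mul]

theorem ce_cnd (i2 : Integrable (fun f : MW => f 0 ^ 2) μ) {A : Set MW}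
    (hA : MeasurableSet[Inv μ] A) (h0 : μ A ≠ 0) : ce (cond μ A) =ᵐ[cond μ A] ce μ := by
  have hp : IsProbabilityMeasure (cond μ A) := cond_isProbabilityMeasure h0
  have i2A : Integrable (fun f : MW => f 0 ^ 2) (cond μ A) := int_cond i2 h0
  have hci : Integrable (ce μ) (cond μ A) := int_cond (ce_int i2) h0
  refine (ce_eq i2A).trans ?_
  symm
  refine ae_eq_condExp_of_forall_setIntegral_eq (Inv_le _) i2A (fun _ _ _ => hci.integrableOn)
    (fun B hB _ => ?_) ?_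
  · rw [int_cnd hB.1, int_cnd hB.1, int_ce i2 (inv_inter hA hB).1 (inv_inter hA hB).2]
  · refine Measurable.aestronglyMeasurable ?_
    intro S hS
    have h1 := ce_measI (μ := μ) hS
    exact ⟨h1.1, fun x => cond_absolutelyContinuous.ae_le (h1.2 x)⟩

/-- the fourth moment, when it is finite -/
theorem kur_fin {ρ : Measure MW} [IsProbabilityMeasure ρ] (hs : IsStationary ρ)
    (h4 : Integrable (fun f : MW => f 0 ^ 4) ρ) {c : ℝ} (hc : ∀ᵐ f ∂ρ, ce ρ f ≤ c) :
    ∫ f : MW, f 0 ^ 4 ∂ρ ≤ 3 * ∫ f : MW, ce ρ f ^ 2 ∂ρ := by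
  have hp0 : IsProbabilityMeasure (ρ.map ev) :=
    Measure.isProbabilityMeasure_map ev_meas.aemeasurable
  have H := wv hs h4
  have h3 := main3 H (path Pool.Agent.U934.SG.t_CPT hs h4)
  have e1 : ∫ o, ((ρ.map ev)[X4 | inv (ρ.map ev)]) o ∂(ρ.map ev) = ∫ o, X4 o ∂(ρ.map ev) :=
    integral_condExp (inv_le _)
  have hm4 := ((stronglyMeasurable_condExp (m := inv (ρ.map ev)) (f := X4)
    (μ := ρ.map ev)).mono (inv_le _)).aestronglyMeasurable (μ := ρ.map ev)
  rw [integral_map ev_meas.aemeasurable X4_meas.aestronglyMeasurable,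
    integral_map ev_meas.aemeasurable hm4] at e1
  have e2 : ∫ f : MW, f 0 ^ 4 ∂ρ = ∫ f, ((ρ.map ev)[X4 | inv (ρ.map ev)]) (ev f) ∂ρ := e1.symm
  have i4 : Integrable (fun f => ((ρ.map ev)[X4 | inv (ρ.map ev)]) (ev f)) ρ :=
    (integrable_map_measure hm4 ev_meas.aemeasurable).1 integrable_condExp
  have i2 : Integrable (fun f : MW => ce ρ f ^ 2) ρ := by
    refine Integrable.mono' (integrable_const (c ^ 2)) (ce_meas.pow_const 2).aestronglyMeasurable ?_
    filter_upwards [hc, ce_nonneg (μ := ρ)] with f h1 h2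
    rw [Real.norm_of_nonneg (sq_nonneg _)]
    exact pow_le_pow_left₀ h2 h1 2
  rw [e2, ← integral_const_mul]
  exact integral_mono_ae i4 (i2.const_mul 3) h3

theorem kur_on (T : Pts) (hs : IsStationary μ) (i2 : Integrable (fun f : MW => f 0 ^ 2) μ)
    {B : Set MW} (hB : MeasurableSet[Inv μ] B) (c : ℝ) :
    ∫⁻ f in B ∩ {f | ce μ f ≤ c}, ENNReal.ofReal (f 0 ^ 4) ∂μ ≤
      3 * ∫⁻ f in B, ENNReal.ofReal (ce μ f ^ 2) ∂μ := by
  set A : Set MW := B ∩ {f | ce μ f ≤ c} with hA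
  have hAc : MeasurableSet[Inv μ] {f : MW | ce μ f ≤ c} := ce_measI measurableSet_Iic
  have hAi : MeasurableSet[Inv μ] A := @MeasurableSet.inter _ (Inv μ) _ _ hB hAc
  by_cases h0 : μ A = 0
  · rw [Measure.restrict_eq_zero.2 h0, lintegral_zero_measure]
    exact zero_le
  have hp : IsProbabilityMeasure (cond μ A) := cond_isProbabilityMeasure h0
  have hsA : IsStationary (cond μ A) := cond_stat hs hAi.1 hAi.2
  have j4 : IntegrableOn (fun f : MW => f 0 ^ 4) A μ :=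
    (fm_on T hs i2 c).mono_set Set.inter_subset_right
  have i4A : Integrable (fun f : MW => f 0 ^ 4) (cond μ A) :=
    j4.smul_measure (ENNReal.inv_ne_top.2 h0)
  have hce := ce_cnd i2 hAi h0
  have hmem : ∀ᵐ f ∂(cond μ A), f ∈ A := ae_cond_mem hAi.1
  have hc : ∀ᵐ f ∂(cond μ A), ce (cond μ A) f ≤ c := by
    filter_upwards [hce, hmem] with f h1 h2
    rw [h1]
    exact h2.2
  have h1 := kur_fin hsA i4A hc
  have h2 : ∫ f : MW, ce (cond μ A) f ^ 2 ∂(cond μ A) = ∫ f : MW, ce μ f ^ 2 ∂(cond μ A) := by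
    refine integral_congr_ae ?_
    filter_upwards [hce] with f h1
    rw [h1]
  rw [h2, ← setIntegral_univ (μ := cond μ A), ← setIntegral_univ (μ := cond μ A),
    int_cnd MeasurableSet.univ, int_cnd MeasurableSet.univ, Set.inter_univ] at h1
  have hpos : 0 < (μ A)⁻¹.toReal :=
    ENNReal.toReal_pos (ENNReal.inv_ne_zero.2 (measure_ne_top _ _)) (ENNReal.inv_ne_top.2 h0)
  have h3 : ∫ f in A, f 0 ^ 4 ∂μ ≤ 3 * ∫ f in A, ce μ f ^ 2 ∂μ := by
    by_contra hcon
    push Not at hcon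
    have := mul_lt_mul_of_pos_left hcon hpos
    linarith
  have k2 : IntegrableOn (fun f : MW => ce μ f ^ 2) A μ := by
    refine Integrable.mono' (integrable_const (c ^ 2))
      (ce_meas.pow_const 2).aestronglyMeasurable ?_
    have h5 : ∀ᵐ f ∂(μ.restrict A), f ∈ A := ae_restrict_mem hAi.1
    have h6 : ∀ᵐ f ∂(μ.restrict A), 0 ≤ ce μ f := ae_restrict_of_ae (ce_nonneg (μ := μ))
    filter_upwards [h5, h6] with f h7 h8
    rw [Real.norm_of_nonneg (sq_nonneg _)]
    exact pow_le_pow_left₀ h8 h7.2 2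
  rw [← ofReal_integral_eq_lintegral_ofReal j4 (Eventually.of_forall fun f => by positivity)]
  refine (ENNReal.ofReal_le_ofReal h3).trans ?_
  rw [ENNReal.ofReal_mul (by norm_num), ofReal_integral_eq_lintegral_ofReal k2
    (Eventually.of_forall fun f => by positivity)]
  refine mul_le_mul' (by norm_num) (lintegral_mono_set Set.inter_subset_left)

/-- **the conditional fourth moment** -/
theorem kur (T : Pts) (hs : IsStationary μ) (i2 : Integrable (fun f : MW => f 0 ^ 2) μ)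
    {B : Set MW} (hB : MeasurableSet[Inv μ] B) :
    ∫⁻ f in B, ENNReal.ofReal (f 0 ^ 4) ∂μ ≤
      3 * ∫⁻ f in B, ENNReal.ofReal ((μ[fun f : MW => f 0 ^ 2 | Inv μ]) f ^ 2) ∂μ := by
  have e : ∫⁻ f in B, ENNReal.ofReal ((μ[fun f : MW => f 0 ^ 2 | Inv μ]) f ^ 2) ∂μ =
      ∫⁻ f in B, ENNReal.ofReal (ce μ f ^ 2) ∂μ := by
    refine lintegral_congr_ae ?_
    filter_upwards [ae_restrict_of_ae (ce_eq i2)] with f hf
    rw [hf]
  rw [e]
  have h1 : B = ⋃ n : ℕ, (B ∩ {f | ce μ f ≤ n}) := by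
    ext f
    constructor
    · intro hf
      obtain ⟨n, hn⟩ := exists_nat_ge (ce μ f)
      exact Set.mem_iUnion.2 ⟨n, hf, hn⟩
    · intro hf
      obtain ⟨n, hn⟩ := Set.mem_iUnion.1 hf
      exact hn.1
  have hm : ∀ n : ℕ, MeasurableSet (B ∩ {f | ce μ f ≤ (n : ℝ)}) := fun n =>
    hB.1.inter (measurableSet_le ce_meas measurable_const)
  have hmono : Monotone fun n : ℕ => B ∩ {f : MW | ce μ f ≤ (n : ℝ)} := by
    intro a b hab f hf
    have hf' : ce μ f ≤ a := hf.2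
    exact ⟨hf.1, hf'.trans (by exact_mod_cast hab)⟩
  have h2 : ∫⁻ f in B, ENNReal.ofReal (f 0 ^ 4) ∂μ =
      ⨆ n : ℕ, ∫⁻ f in B ∩ {f | ce μ f ≤ (n : ℝ)}, ENNReal.ofReal (f 0 ^ 4) ∂μ := by
    conv_lhs => rw [h1]
    exact setLIntegral_iUnion_of_directed _ hmono.directed_le
  rw [h2]
  exact iSup_le fun n => kur_on T hs i2 hB n

end

end Pool.Agent.U26.SG
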