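import Pool.Agent.U26.SG.Pts4
import Pool.Agent.U26.SG.Kur

/-!
# Summary: stationary waves with finite variance
-/

set_option autoImplicit false
open MeasureTheory Filter Topology ProbabilityTheory
open scoped ContDiff ENNReal

namespace Pool.Agent.U26.SG

open Pool.Agent.W745.RW (lap)
open Pool.Agent.N661.BR
open Pool.Agent.N661.BH (HP)
open Pool.Agent.U26.SB (prop)

/-- the signs -/
theorem st_inv {μ : Measure MW} [IsProbabilityMeasure μ] (hs : IsStationary μ)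
    (i2 : Integrable (fun f : MW => f 0 ^ 2) μ) {B : Set MW} (hB : MeasurableSet B)
    (hinv : ∀ x : ℂ, shift x ⁻¹' B =ᵐ[μ] B) {k : ℕ} (w : Fin k → ℂ) (t : Fin k → ℝ) :
    SB.cst * μ.real (B ∩ {f | lin w t f ≠ 0}) ≤ μ.real (B ∩ {f | 0 < lin w t f}) ∧
    SB.cst * μ.real (B ∩ {f | lin w t f ≠ 0}) ≤ μ.real (B ∩ {f | lin w t f < 0}) :=
  G.inv_sign (G.ex_of pts hs i2) hB hinv w t

/-- the signs in large discs -/
theorem st_large {μ : Measure MW} [IsProbabilityMeasure μ] (hs : IsStationary μ)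
    (i2 : Integrable (fun f : MW => f 0 ^ 2) μ) {k : ℕ} (w : Fin k → ℂ) (t : Fin k → ℝ) {a : ℝ}
    (ha : a < SB.cst) :
    Tendsto (fun R : ℝ => μ {f : MW | (∃ y, ∑ j, t j * f (y + w j) ≠ 0) ∧
      (prop R (fun y => ∑ j, t j * f (y + w j)) ≤ a ∨
        prop R (fun y => -∑ j, t j * f (y + w j)) ≤ a)}) atTop (𝓝 0) :=
  G.all_large2 (G.ex_of pts hs i2) w t ha

/-- the conditional fourth moments -/
theorem st_kur {μ : Measure MW} [IsProbabilityMeasure μ] (hs : IsStationary μ)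
    (i2 : Integrable (fun f : MW => f 0 ^ 2) μ) {B : Set MW} (hB : MeasurableSet[Inv μ] B) :
    ∫⁻ f in B, ENNReal.ofReal (f 0 ^ 4) ∂μ ≤
      3 * ∫⁻ f in B, ENNReal.ofReal ((μ[fun f : MW => f 0 ^ 2 | Inv μ]) f ^ 2) ∂μ :=
  kur pts hs i2 hB

/-- ergodic laws -/
theorem erg_kur {μ : Measure MW} [IsProbabilityMeasure μ] (hs : IsStationary μ)
    (he : IsErgodic μ) (i2 : Integrable (fun f : MW => f 0 ^ 2) μ) :
    Integrable (fun f : MW => f 0 ^ 4) μ ∧
      ∫ f : MW, f 0 ^ 4 ∂μ ≤ 3 * (∫ f : MW, f 0 ^ 2 ∂μ) ^ 2 := by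
  have hc : μ[fun f : MW => f 0 ^ 2 | Inv μ] =ᵐ[μ] fun _ => ∫ f : MW, f 0 ^ 2 ∂μ := by
    symm
    refine ae_eq_condExp_of_forall_setIntegral_eq (Inv_le μ) i2
      (fun _ _ _ => (integrable_const _).integrableOn) (fun B hB _ => ?_)
      aestronglyMeasurable_const
    rcases he B hB.1 hB.2 with h | h
    · rw [Measure.restrict_eq_zero.2 h]; simp
    · have h2 : μ.restrict B = μ := by
        rw [← Measure.restrict_univ (μ := μ)]
        have h3 : B =ᵐ[μ] Set.univ := by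
          rw [ae_eq_univ]
          rwa [prob_compl_eq_zero_iff hB.1]
        rw [Measure.restrict_univ]
        conv_rhs => rw [← Measure.restrict_univ (μ := μ)]
        exact Measure.restrict_congr_set h3
      rw [h2]
      simp
  have h := st_kur hs i2 (B := Set.univ) (@MeasurableSet.univ _ (Inv μ))
  rw [Measure.restrict_univ] at h
  have h2 : ∫⁻ f, ENNReal.ofReal ((μ[fun f : MW => f 0 ^ 2 | Inv μ]) f ^ 2) ∂μ =
      ENNReal.ofReal ((∫ f : MW, f 0 ^ 2 ∂μ) ^ 2) := by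
    have : ∫⁻ f, ENNReal.ofReal ((μ[fun f : MW => f 0 ^ 2 | Inv μ]) f ^ 2) ∂μ =
        ∫⁻ _, ENNReal.ofReal ((∫ f : MW, f 0 ^ 2 ∂μ) ^ 2) ∂μ := by
      refine lintegral_congr_ae ?_
      filter_upwards [hc] with f hf
      rw [hf]
    rw [this, lintegral_const, measure_univ, mul_one]
  rw [h2] at h
  have hm : Measurable fun f : MW => f 0 ^ 4 := (meas_eval 0).pow_const 4
  have h3 : Integrable (fun f : MW => f 0 ^ 4) μ := by
    refine ⟨hm.aestronglyMeasurable, ?_⟩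
    rw [hasFiniteIntegral_iff_ofReal (Eventually.of_forall fun f => by positivity)]
    exact h.trans_lt (ENNReal.mul_lt_top (by norm_num) ENNReal.ofReal_lt_top)
  refine ⟨h3, ?_⟩
  rw [← ofReal_integral_eq_lintegral_ofReal h3 (Eventually.of_forall fun f => by positivity)] at h
  have e3 : (3 : ℝ≥0∞) = ENNReal.ofReal 3 := by simp
  rw [e3, ← ENNReal.ofReal_mul (by norm_num)] at h
  exact (ENNReal.ofReal_le_ofReal_iff (by positivity)).1 h

/-- the limits of quantum ergodic eigenfunctions on hyperbolic surfaces -/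
theorem hyp_st {Ω : Set ℂ} (hΩ : IsOpen Ω) (hHP : Ω ⊆ HP) (hne : Ω.Nonempty)
    (hA : IntegrableOn (fun z : ℂ => 1 / z.im ^ 2) Ω)
    {lam : ℕ → ℝ} (hpos : ∀ n, 0 < lam n) (hlam : Tendsto lam atTop atTop)
    {u : ℕ → ℂ → ℝ} (hu : ∀ n, ContDiffOn ℝ ∞ (u n) HP)
    (heq : ∀ n, ∀ z ∈ HP, z.im ^ 2 * lap (u n) z + lam n * u n z = 0)
    (hqe : Pool.Agent.N661.BH.IsQuantumErgodic Ω lam u)
    {μ : Measure MW} [IsProbabilityMeasure μ] (hμ : Pool.Agent.N661.BH.IsLocalLimit Ω lam u μ) :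
    IsStationary μ ∧ Integrable (fun f : MW => f 0 ^ 2) μ := by
  obtain ⟨h1, h2, h3⟩ := Pool.Agent.N661.BH.limit_all hΩ hHP hne hA hpos hlam hu heq hqe
    inferInstance hμ
  refine ⟨Pool.Agent.N40.BRSTATH.STATH Ω hΩ hHP hne hA lam hpos hlam u hu heq hqe μ
    inferInstance hμ, ((meas_eval 0).pow_const 2).aestronglyMeasurable, ?_⟩
  rw [hasFiniteIntegral_iff_ofReal (Eventually.of_forall fun f => by positivity)]
  exact h2.trans_lt ENNReal.one_lt_top

end Pool.Agent.U26.SG
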