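import Pool.Agent.U26.SG.All
import Pool.Agent.U26.SG.Stm6
import Pool.Agent.U26.SG.Fin5

/-!
# The areas, for all sequences of eigenfunctions of planar domains which are bounded in `L²`
-/

set_option autoImplicit false
open MeasureTheory Filter Topology
open scoped ContDiff

namespace Pool.Agent.U26.SG

open Pool.Agent.W745.RW (lap)
open Pool.Agent.N661.BR

theorem planar_all3 (hPL : S_PL2) {Ω : Set ℂ} (hΩ : IsOpen Ω) (hb : Bornology.IsBounded Ω)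
    (hne : Ω.Nonempty) {lam : ℕ → ℝ} (hpos : ∀ n, 0 < lam n) (hlam : Tendsto lam atTop atTop)
    {u : ℕ → ℂ → ℝ} (hu : ∀ n, ContDiffOn ℝ ∞ (u n) Ω)
    (heq : ∀ n, ∀ z ∈ Ω, lap (u n) z + lam n * u n z = 0) {C : ℝ}
    (hI : ∀ n, IntegrableOn (fun z => u n z ^ 2) Ω) (hC : ∀ n, ∫ z in Ω, u n z ^ 2 ≤ C)
    {χ : ℝ → ℝ} (hχ : IsCutoff χ) {k : ℕ} (w : Fin k → ℂ) (t : Fin k → ℝ) {ε : ℝ} (hε : 0 < ε) :
    ∀ᶠ n in atTop,
      SB.cst * volume.real {z | z ∈ Ω ∧ ε ≤ |∑ j, t j * resc χ Ω (lam n) (u n) z (w j)|} -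
          ε * volume.real Ω ≤
        volume.real {z | z ∈ Ω ∧ 0 < ∑ j, t j * resc χ Ω (lam n) (u n) z (w j)} ∧
      SB.cst * volume.real {z | z ∈ Ω ∧ ε ≤ |∑ j, t j * resc χ Ω (lam n) (u n) z (w j)|} -
          ε * volume.real Ω ≤
        volume.real {z | z ∈ Ω ∧ ∑ j, t j * resc χ Ω (lam n) (u n) z (w j) < 0} := by
  by_contra hcon
  rw [Filter.not_eventually] at hcon
  obtain ⟨τ, hτ, hτP⟩ := Filter.extraction_of_frequently_atTop hcon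
  have hlam' : Tendsto (lam ∘ τ) atTop atTop := hlam.comp hτ.tendsto_atTop
  obtain ⟨σ, μ, hσ, hμp, hst, hi2, hμ⟩ := hPL Ω hΩ hb hne (lam ∘ τ) (fun n => hpos _) hlam'
    (u ∘ τ) (fun n => hu _) (fun n => heq _) C (fun n => hI _) (fun n => hC _) χ hχ
  have h1 := SB.areas (lam := lam ∘ τ) (u := u ∘ τ) hΩ hb hne hχ (fun n => hpos _)
    (fun n => hu _) hμ w t SB.cst_pos.le SB.cst_le_one
    (G.all_sign2 (G.ex_of pts hst hi2) w t) hε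
  obtain ⟨n, hn⟩ := h1.exists
  exact hτP (σ n) hn

theorem planar_pt3 (hPL : S_PL2) {Ω : Set ℂ} (hΩ : IsOpen Ω) (hb : Bornology.IsBounded Ω)
    (hne : Ω.Nonempty) {lam : ℕ → ℝ} (hpos : ∀ n, 0 < lam n) (hlam : Tendsto lam atTop atTop)
    {u : ℕ → ℂ → ℝ} (hu : ∀ n, ContDiffOn ℝ ∞ (u n) Ω)
    (heq : ∀ n, ∀ z ∈ Ω, lap (u n) z + lam n * u n z = 0) {C : ℝ}
    (hI : ∀ n, IntegrableOn (fun z => u n z ^ 2) Ω) (hC : ∀ n, ∫ z in Ω, u n z ^ 2 ≤ C)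
    {ε : ℝ} (hε : 0 < ε) :
    ∀ᶠ n in atTop,
      SB.cst * volume.real {z | z ∈ Ω ∧ ε ≤ |u n z|} - ε * volume.real Ω ≤
        volume.real {z | z ∈ Ω ∧ 0 < u n z} ∧
      SB.cst * volume.real {z | z ∈ Ω ∧ ε ≤ |u n z|} - ε * volume.real Ω ≤
        volume.real {z | z ∈ Ω ∧ u n z < 0} := by
  obtain ⟨χ, hχ⟩ := ex_cutoff
  have h := planar_all3 hPL hΩ hb hne hpos hlam hu heq hI hC hχ (k := 1) (fun _ => 0)
    (fun _ => 1) hε
  simpa only [SB.resc_zero hχ, Finset.univ_unique, Finset.sum_singleton, one_mul] using h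

/-- every limit point of the local measures is stationary with a finite second moment -/
theorem lim_st (hPL : S_PL2) {Ω : Set ℂ} (hΩ : IsOpen Ω) (hb : Bornology.IsBounded Ω)
    (hne : Ω.Nonempty) {lam : ℕ → ℝ} (hpos : ∀ n, 0 < lam n) (hlam : Tendsto lam atTop atTop)
    {u : ℕ → ℂ → ℝ} (hu : ∀ n, ContDiffOn ℝ ∞ (u n) Ω)
    (heq : ∀ n, ∀ z ∈ Ω, lap (u n) z + lam n * u n z = 0) {C : ℝ}
    (hI : ∀ n, IntegrableOn (fun z => u n z ^ 2) Ω) (hC : ∀ n, ∫ z in Ω, u n z ^ 2 ≤ C)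
    {χ : ℝ → ℝ} (hχ : IsCutoff χ) {μ : Measure MW} [IsProbabilityMeasure μ]
    (hμ : IsLocalLimit χ Ω lam u μ) :
    IsStationary μ ∧ Integrable (fun f : MW => f 0 ^ 2) μ := by
  obtain ⟨σ, hσ, hc⟩ := hμ
  obtain ⟨τ, μ', hτ, hp', hst, hi2, hc'⟩ := hPL Ω hΩ hb hne (lam ∘ σ) (fun n => hpos _)
    (hlam.comp hσ.tendsto_atTop) (u ∘ σ) (fun n => hu _) (fun n => heq _) C (fun n => hI _)
    (fun n => hC _) χ hχ
  have e : μ = μ' := Pool.Agent.N40.BRSTAT.law_ext μ' μ fun k w t =>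
    tendsto_nhds_unique ((hc k w t).comp hτ.tendsto_atTop) (hc' k w t)
  subst e
  exact ⟨hst, hi2⟩

end Pool.Agent.U26.SG
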