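import Pool.Agent.U26.SG.Base

/-!
# Signs of the limit laws
-/

set_option autoImplicit false
open MeasureTheory Filter Topology ProbabilityTheory
open scoped ENNReal

namespace Pool.Agent.U26.SG

open Pool.Agent.W745.RW (lap dx dy TF W)
open Pool.Agent.N661.BR
open Pool.Agent.U26.SB
open Pool.Agent.N136.BRFIN (L meas_L)

section

variable {ρ : Measure MW} [IsProbabilityMeasure ρ] {k : ℕ} (w : Fin k → ℂ) (t : Fin k → ℝ)

theorem lw4 (hs : IsStationary ρ) (h4 : Integrable (fun f : MW => f 0 ^ 4) ρ) :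
    Integrable (fun f : MW => f 0 ^ 4) (ρ.map (lwave w t)) := by
  have hm := lwave_meas w t
  rw [integrable_map_measure ((meas_eval 0).pow_const 4).aestronglyMeasurable hm.aemeasurable]
  refine (lin_i4 hs h4 w t).congr (Eventually.of_forall fun f => ?_)
  show lin w t f ^ 4 = lwave w t f 0 ^ 4
  rw [lwave_zero]

theorem lin_sign (hs : IsStationary ρ) (h4 : Integrable (fun f : MW => f 0 ^ 4) ρ) :
    cst * ρ.real {f | lin w t f ≠ 0} ≤ ρ.real {f | 0 < lin w t f} := by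
  have hm := lwave_meas w t
  have hp : IsProbabilityMeasure (ρ.map (lwave w t)) :=
    Measure.isProbabilityMeasure_map hm.aemeasurable
  have h1 := base_sign (lwave_stat w t hs) (lw4 w t hs h4)
  have m1 : MeasurableSet {f : MW | f 0 ≠ 0} :=
    (measurableSet_eq_fun (meas_eval 0) measurable_const).compl
  have m2 : MeasurableSet {f : MW | 0 < f 0} := measurableSet_lt measurable_const (meas_eval 0)
  rw [map_measureReal_apply hm m1, map_measureReal_apply hm m2] at h1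
  have e1 : lwave w t ⁻¹' {f : MW | f 0 ≠ 0} = {f | lin w t f ≠ 0} := by
    ext f
    show lwave w t f 0 ≠ 0 ↔ lin w t f ≠ 0
    rw [lwave_zero]
  have e2 : lwave w t ⁻¹' {f : MW | 0 < f 0} = {f | 0 < lin w t f} := by
    ext f
    show 0 < lwave w t f 0 ↔ 0 < lin w t f
    rw [lwave_zero]
  rwa [e1, e2] at h1

theorem bad_meas (R a : ℝ) : MeasurableSet {f : MW | (∃ y, lwave w t f y ≠ 0) ∧
    prop R (lwave w t f) ≤ a} :=
  (meas_nz w t).inter (measurableSet_le ((prop_meas R).comp (lwave_meas w t)) measurable_const)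

theorem lin_large (hs : IsStationary ρ) (h4 : Integrable (fun f : MW => f 0 ^ 4) ρ) {a : ℝ}
    (ha : a < cst) : Tendsto (fun R : ℝ => ρ {f : MW | (∃ y, lwave w t f y ≠ 0) ∧
      prop R (lwave w t f) ≤ a}) atTop (𝓝 0) := by
  have hm := lwave_meas w t
  have hp : IsProbabilityMeasure (ρ.map (lwave w t)) :=
    Measure.isProbabilityMeasure_map hm.aemeasurable
  have h1 := base_large (lwave_stat w t hs) (lw4 w t hs h4) ha
  refine h1.congr fun R => ?_
  have mn : MeasurableSet {f : MW | (∃ y, f y ≠ 0) ∧ prop R f ≤ a} := by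
    have h2 := bad_meas (fun _ : Fin 1 => (0 : ℂ)) (fun _ => 1) R a
    have e : ∀ f : MW, lwave (fun _ : Fin 1 => (0 : ℂ)) (fun _ => 1) f = f := by
      intro f
      apply Subtype.ext
      funext y
      show ∑ j : Fin 1, (1 : ℝ) * f (y + 0) = f y
      simp
    simpa only [e] using h2
  rw [Measure.map_apply hm mn]
  rfl

end

section

variable {μ : Measure MW} [IsProbabilityMeasure μ]

/-- exhaustion by invariant sets on which the fourth moment is finite -/
structure Exh (μ : Measure MW) : Prop where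
  st : IsStationary μ
  fin : ∀ᵐ f : MW ∂μ, L f < ⊤
  inv : ∀ x : ℂ, ∀ᵐ f : MW ∂μ, L (shift x f) = L f
  i4 : ∀ c : ℕ, IntegrableOn (fun f : MW => f 0 ^ 4) {f | L f ≤ c} μ

theorem exh_of (hs : IsStationary μ)
    (hQ : ∀ v : ℤ →₀ ℝ, Bal v → ∀ l : ℤ,
      ∫⁻ f : MW, ENNReal.ofReal (‖QV v l 1 f 0‖ ^ 2) ∂μ ≤ ENNReal.ofReal (KV v l))
    (hmass : ∫⁻ f : MW, ENNReal.ofReal (f 0 ^ 2) ∂μ ≤ 1) : Exh μ := by
  have i2 : Integrable (fun f : MW => f 0 ^ 2) μ := by
    refine ⟨((meas_eval 0).pow_const 2).aestronglyMeasurable, ?_⟩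
    rw [hasFiniteIntegral_iff_ofReal (Eventually.of_forall fun f => by positivity)]
    exact lt_of_le_of_lt hmass ENNReal.one_lt_top
  obtain ⟨m, ν, hν, -, hcov⟩ := Pool.Agent.N878.BR.BOCH μ inferInstance hs i2
  have h3 := allParts.sec μ inferInstance (sq_int hs i2) m ν hν hcov
  obtain ⟨a, b, c⟩ := mass4 hQ m h3
  exact ⟨hs, a, b, c⟩

theorem Exh.mA (c : ℕ) : MeasurableSet {f : MW | L f ≤ c} := measurableSet_le meas_L measurable_const

omit [IsProbabilityMeasure μ] in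
theorem Exh.invA (H : Exh μ) (c : ℕ) (x : ℂ) :
    shift x ⁻¹' {f : MW | L f ≤ c} =ᵐ[μ] {f : MW | L f ≤ c} := by
  filter_upwards [H.inv x] with f hf
  have : (L (shift x f) ≤ c) = (L f ≤ c) := by rw [hf]
  exact this

theorem Exh.cst (H : Exh μ) (c : ℕ) : IsStationary (cond μ {f : MW | L f ≤ c}) :=
  cond_stat H.st (Exh.mA c) (H.invA c)

omit [IsProbabilityMeasure μ] in
theorem Exh.c4 (H : Exh μ) (c : ℕ) (hc : μ {f : MW | L f ≤ c} ≠ 0) :
    Integrable (fun f : MW => f 0 ^ 4) (cond μ {f : MW | L f ≤ c}) :=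
  (H.i4 c).smul_measure (ENNReal.inv_ne_top.2 hc)

theorem Exh.mono : Monotone fun c : ℕ => {f : MW | L f ≤ c} := by
  intro a b hab f hf
  have hf' : L f ≤ a := hf
  show L f ≤ b
  exact hf'.trans (by exact_mod_cast hab)

omit [IsProbabilityMeasure μ] in
theorem Exh.full (H : Exh μ) : ∀ᵐ f ∂μ, f ∈ ⋃ c : ℕ, {f : MW | L f ≤ c} := by
  filter_upwards [H.fin] with f hf
  obtain ⟨n, hn⟩ := ENNReal.exists_nat_gt hf.ne
  exact Set.mem_iUnion.2 ⟨n, hn.le⟩

theorem Exh.lim (H : Exh μ) (E : Set MW) :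
    Tendsto (fun c : ℕ => μ ({f : MW | L f ≤ c} ∩ E)) atTop (𝓝 (μ E)) := by
  have h1 : μ E = μ (⋃ c : ℕ, ({f : MW | L f ≤ c} ∩ E)) := by
    rw [← Set.iUnion_inter]
    refine measure_congr ?_
    filter_upwards [H.full] with f hf
    have : (f ∈ E) = (f ∈ (⋃ c : ℕ, {f : MW | L f ≤ c}) ∩ E) :=
      propext ⟨fun h => ⟨hf, h⟩, fun h => h.2⟩
    exact this
  rw [h1]
  refine tendsto_measure_iUnion_atTop fun a b hab => ?_
  exact Set.inter_subset_inter_left _ (Exh.mono hab)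

/-- **Signs of the limit laws** -/
theorem all_sign (H : Exh μ) {k : ℕ} (w : Fin k → ℂ) (t : Fin k → ℝ) :
    SB.cst * μ.real {f | lin w t f ≠ 0} ≤ μ.real {f | 0 < lin w t f} := by
  have h1 : ∀ c : ℕ, SB.cst * μ.real ({f : MW | L f ≤ c} ∩ {f | lin w t f ≠ 0}) ≤
      μ.real {f | 0 < lin w t f} := by
    intro c
    by_cases hc : μ {f : MW | L f ≤ c} = 0
    · have : μ.real ({f : MW | L f ≤ c} ∩ {f | lin w t f ≠ 0}) = 0 := by
        rw [measureReal_def, measure_mono_null Set.inter_subset_left hc, ENNReal.toReal_zero]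
      rw [this, mul_zero]
      exact measureReal_nonneg
    · have hp : IsProbabilityMeasure (cond μ {f : MW | L f ≤ c}) := cond_isProbabilityMeasure hc
      have h2 := lin_sign w t (H.cst c) (H.c4 c hc)
      have hcr : ∀ E : Set MW, (cond μ {f : MW | L f ≤ c}).real E =
          (μ.real {f : MW | L f ≤ c})⁻¹ * μ.real ({f : MW | L f ≤ c} ∩ E) := by
        intro E
        rw [measureReal_def, cond_apply (Exh.mA c), ENNReal.toReal_mul, ENNReal.toReal_inv]
        rfl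
      rw [hcr, hcr] at h2
      have hpos : 0 < μ.real {f : MW | L f ≤ c} := ENNReal.toReal_pos hc (measure_ne_top _ _)
      have h3 := mul_le_mul_of_nonneg_left h2 hpos.le
      have e1 : μ.real {f : MW | L f ≤ c} * (SB.cst * ((μ.real {f : MW | L f ≤ c})⁻¹ *
          μ.real ({f : MW | L f ≤ c} ∩ {f | lin w t f ≠ 0}))) =
          SB.cst * μ.real ({f : MW | L f ≤ c} ∩ {f | lin w t f ≠ 0}) := by
        field_simp
      have e2 : μ.real {f : MW | L f ≤ c} * ((μ.real {f : MW | L f ≤ c})⁻¹ *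
          μ.real ({f : MW | L f ≤ c} ∩ {f | 0 < lin w t f})) =
          μ.real ({f : MW | L f ≤ c} ∩ {f | 0 < lin w t f}) := by
        field_simp
      rw [e1, e2] at h3
      exact h3.trans (measureReal_mono Set.inter_subset_right)
  have h2 : Tendsto (fun c : ℕ => SB.cst * μ.real ({f : MW | L f ≤ c} ∩ {f | lin w t f ≠ 0})) atTop
      (𝓝 (SB.cst * μ.real {f | lin w t f ≠ 0})) :=
    ((ENNReal.tendsto_toReal (measure_ne_top _ _)).comp (H.lim _)).const_mul _
  exact le_of_tendsto' h2 h1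

theorem all_large (H : Exh μ) {k : ℕ} (w : Fin k → ℂ) (t : Fin k → ℝ) {a : ℝ} (ha : a < SB.cst) :
    Tendsto (fun R : ℝ => μ {f : MW | (∃ y, lwave w t f y ≠ 0) ∧
      prop R (lwave w t f) ≤ a}) atTop (𝓝 0) := by
  rw [ENNReal.tendsto_nhds_zero]
  intro ε hε
  have h1 : Tendsto (fun c : ℕ => μ ({f : MW | L f ≤ c} ∩ Set.univ)) atTop (𝓝 1) := by
    have := H.lim Set.univ
    rwa [measure_univ] at this
  simp only [Set.inter_univ] at h1
  have h2 : Tendsto (fun c : ℕ => μ {f : MW | L f ≤ c}ᶜ) atTop (𝓝 0) := by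
    have h3 : Tendsto (fun c : ℕ => 1 - μ {f : MW | L f ≤ c}) atTop (𝓝 (1 - 1)) :=
      ENNReal.Tendsto.sub tendsto_const_nhds h1 (Or.inl ENNReal.one_ne_top)
    rw [tsub_self] at h3
    refine h3.congr fun c => ?_
    rw [prob_compl_eq_one_sub (Exh.mA c)]
  have hε2 : 0 < ε / 2 := ENNReal.half_pos hε.ne'
  obtain ⟨c, hc1, hc2⟩ := ((ENNReal.tendsto_nhds_zero.1 h2 (ε / 2) hε2).and
    (h1.eventually (lt_mem_nhds (zero_lt_one' ℝ≥0∞)))).exists
  have hp : IsProbabilityMeasure (cond μ {f : MW | L f ≤ c}) := cond_isProbabilityMeasure hc2.ne'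
  have h3 := lin_large w t (H.cst c) (H.c4 c hc2.ne') ha
  filter_upwards [ENNReal.tendsto_nhds_zero.1 h3 (ε / 2) hε2] with R hR
  have h4 : ∀ E : Set MW, μ E ≤ μ {f : MW | L f ≤ c}ᶜ + cond μ {f : MW | L f ≤ c} E := by
    intro E
    have h5 : μ E ≤ μ {f : MW | L f ≤ c}ᶜ + μ ({f : MW | L f ≤ c} ∩ E) := by
      refine le_trans (measure_mono fun f hf => ?_) (measure_union_le _ _)
      by_cases h : f ∈ {f : MW | L f ≤ c}
      · exact Or.inr ⟨h, hf⟩
      · exact Or.inl h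
    refine h5.trans (add_le_add le_rfl ?_)
    rw [cond_apply (Exh.mA c)]
    have h6 : 1 ≤ (μ {f : MW | L f ≤ c})⁻¹ := ENNReal.one_le_inv.2 prob_le_one
    exact le_mul_of_one_le_left' h6
  refine (h4 _).trans ?_
  calc μ {f : MW | L f ≤ c}ᶜ + cond μ {f : MW | L f ≤ c} _ ≤ ε / 2 + ε / 2 := add_le_add hc1 hR
    _ = ε := ENNReal.add_halves ε

theorem all_sign2 (H : Exh μ) {k : ℕ} (w : Fin k → ℂ) (t : Fin k → ℝ) :
    SB.cst * μ.real {f | lin w t f ≠ 0} ≤ μ.real {f | 0 < lin w t f} ∧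
    SB.cst * μ.real {f | lin w t f ≠ 0} ≤ μ.real {f | lin w t f < 0} := by
  refine ⟨all_sign H w t, ?_⟩
  have h := all_sign H w fun j => -t j
  simpa only [lin_neg, neg_ne_zero, Left.neg_pos_iff] using h

theorem all_large2 (H : Exh μ) {k : ℕ} (w : Fin k → ℂ) (t : Fin k → ℝ) {a : ℝ} (ha : a < SB.cst) :
    Tendsto (fun R : ℝ => μ {f : MW | (∃ y, ∑ j, t j * f (y + w j) ≠ 0) ∧
      (prop R (fun y => ∑ j, t j * f (y + w j)) ≤ a ∨
        prop R (fun y => -∑ j, t j * f (y + w j)) ≤ a)}) atTop (𝓝 0) := by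
  have h1 := all_large H w t ha
  have h2 := all_large H w (fun j => -t j) ha
  have h3 := h1.add h2
  rw [add_zero] at h3
  refine tendsto_of_tendsto_of_tendsto_of_le_of_le tendsto_const_nhds h3
    (fun R => zero_le) fun R => ?_
  refine le_trans (measure_mono fun f hf => ?_) (measure_union_le _ _)
  have e : ∀ y, lwave w (fun j => -t j) f y = -∑ j, t j * f (y + w j) := by
    intro y
    show ∑ j, -t j * f (y + w j) = _
    rw [← Finset.sum_neg_distrib]
    exact Finset.sum_congr rfl fun j _ => by ring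
  have e' : (fun y => lwave w (fun j => -t j) f y) = fun y => -∑ j, t j * f (y + w j) :=
    funext e
  obtain ⟨⟨y, hy⟩, hf | hf⟩ := hf
  · exact Or.inl ⟨⟨y, hy⟩, hf⟩
  · refine Or.inr ⟨⟨y, ?_⟩, ?_⟩
    · rw [e]
      exact neg_ne_zero.2 hy
    · rw [← e'] at hf
      exact hf

end

end Pool.Agent.U26.SG
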