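import Pool.Agent.U26.SG.Gen
import Pool.Agent.U26.SG.Inv

/-!
# Signs of laws which are exhausted by invariant sets
-/

set_option autoImplicit false
open MeasureTheory Filter Topology ProbabilityTheory
open scoped ENNReal

namespace Pool.Agent.U26.SG.G

open Pool.Agent.U26.SG
open Pool.Agent.W745.RW (lap dx dy TF W)
open Pool.Agent.N661.BR
open Pool.Agent.U26.SB

section

variable {μ : Measure MW} [IsProbabilityMeasure μ]

/-- exhaustion by invariant sets on which the fourth moment is finite -/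
structure ExG (μ : Measure MW) (A : ℕ → Set MW) : Prop where
  st : IsStationary μ
  mA : ∀ c, MeasurableSet (A c)
  iA : ∀ (c : ℕ) (x : ℂ), shift x ⁻¹' (A c) =ᵐ[μ] A c
  mono : Monotone A
  full : ∀ᵐ f ∂μ, f ∈ ⋃ c : ℕ, A c
  i4 : ∀ c : ℕ, IntegrableOn (fun f : MW => f 0 ^ 4) (A c) μ

variable {A : ℕ → Set MW}

theorem ExG.cst (H : ExG μ A) (c : ℕ) : IsStationary (cond μ (A c)) :=
  cond_stat H.st (H.mA c) (H.iA c)

omit [IsProbabilityMeasure μ] in
theorem ExG.c4 (H : ExG μ A) (c : ℕ) (hc : μ (A c) ≠ 0) :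
    Integrable (fun f : MW => f 0 ^ 4) (cond μ (A c)) :=
  (H.i4 c).smul_measure (ENNReal.inv_ne_top.2 hc)

theorem ExG.lim (H : ExG μ A) (E : Set MW) :
    Tendsto (fun c : ℕ => μ ((A c) ∩ E)) atTop (𝓝 (μ E)) := by
  have h1 : μ E = μ (⋃ c : ℕ, ((A c) ∩ E)) := by
    rw [← Set.iUnion_inter]
    refine measure_congr ?_
    filter_upwards [H.full] with f hf
    have : (f ∈ E) = (f ∈ (⋃ c : ℕ, A c) ∩ E) :=
      propext ⟨fun h => ⟨hf, h⟩, fun h => h.2⟩
    exact this
  rw [h1]
  refine tendsto_measure_iUnion_atTop fun a b hab => ?_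
  exact Set.inter_subset_inter_left _ (H.mono hab)

/-- **Signs of the limit laws** -/
theorem all_sign (H : ExG μ A) {k : ℕ} (w : Fin k → ℂ) (t : Fin k → ℝ) :
    SB.cst * μ.real {f | lin w t f ≠ 0} ≤ μ.real {f | 0 < lin w t f} := by
  have h1 : ∀ c : ℕ, SB.cst * μ.real ((A c) ∩ {f | lin w t f ≠ 0}) ≤
      μ.real {f | 0 < lin w t f} := by
    intro c
    by_cases hc : μ (A c) = 0
    · have : μ.real ((A c) ∩ {f | lin w t f ≠ 0}) = 0 := by
        rw [measureReal_def, measure_mono_null Set.inter_subset_left hc, ENNReal.toReal_zero]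
      rw [this, mul_zero]
      exact measureReal_nonneg
    · have hp : IsProbabilityMeasure (cond μ (A c)) := cond_isProbabilityMeasure hc
      have h2 := lin_sign w t (H.cst c) (H.c4 c hc)
      have hcr : ∀ E : Set MW, (cond μ (A c)).real E =
          (μ.real (A c))⁻¹ * μ.real ((A c) ∩ E) := by
        intro E
        rw [measureReal_def, cond_apply (H.mA c), ENNReal.toReal_mul, ENNReal.toReal_inv]
        rfl
      rw [hcr, hcr] at h2
      have hpos : 0 < μ.real (A c) := ENNReal.toReal_pos hc (measure_ne_top _ _)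
      have h3 := mul_le_mul_of_nonneg_left h2 hpos.le
      have e1 : μ.real (A c) * (SB.cst * ((μ.real (A c))⁻¹ *
          μ.real ((A c) ∩ {f | lin w t f ≠ 0}))) =
          SB.cst * μ.real ((A c) ∩ {f | lin w t f ≠ 0}) := by
        field_simp
      have e2 : μ.real (A c) * ((μ.real (A c))⁻¹ *
          μ.real ((A c) ∩ {f | 0 < lin w t f})) =
          μ.real ((A c) ∩ {f | 0 < lin w t f}) := by
        field_simp
      rw [e1, e2] at h3
      exact h3.trans (measureReal_mono Set.inter_subset_right)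
  have h2 : Tendsto (fun c : ℕ => SB.cst * μ.real ((A c) ∩ {f | lin w t f ≠ 0})) atTop
      (𝓝 (SB.cst * μ.real {f | lin w t f ≠ 0})) :=
    ((ENNReal.tendsto_toReal (measure_ne_top _ _)).comp (H.lim _)).const_mul _
  exact le_of_tendsto' h2 h1

theorem all_large (H : ExG μ A) {k : ℕ} (w : Fin k → ℂ) (t : Fin k → ℝ) {a : ℝ} (ha : a < SB.cst) :
    Tendsto (fun R : ℝ => μ {f : MW | (∃ y, lwave w t f y ≠ 0) ∧
      prop R (lwave w t f) ≤ a}) atTop (𝓝 0) := by
  rw [ENNReal.tendsto_nhds_zero]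
  intro ε hε
  have h1 : Tendsto (fun c : ℕ => μ ((A c) ∩ Set.univ)) atTop (𝓝 1) := by
    have := H.lim Set.univ
    rwa [measure_univ] at this
  simp only [Set.inter_univ] at h1
  have h2 : Tendsto (fun c : ℕ => μ (A c)ᶜ) atTop (𝓝 0) := by
    have h3 : Tendsto (fun c : ℕ => 1 - μ (A c)) atTop (𝓝 (1 - 1)) :=
      ENNReal.Tendsto.sub tendsto_const_nhds h1 (Or.inl ENNReal.one_ne_top)
    rw [tsub_self] at h3
    refine h3.congr fun c => ?_
    rw [prob_compl_eq_one_sub (H.mA c)]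
  have hε2 : 0 < ε / 2 := ENNReal.half_pos hε.ne'
  obtain ⟨c, hc1, hc2⟩ := ((ENNReal.tendsto_nhds_zero.1 h2 (ε / 2) hε2).and
    (h1.eventually (lt_mem_nhds (zero_lt_one' ℝ≥0∞)))).exists
  have hp : IsProbabilityMeasure (cond μ (A c)) := cond_isProbabilityMeasure hc2.ne'
  have h3 := lin_large w t (H.cst c) (H.c4 c hc2.ne') ha
  filter_upwards [ENNReal.tendsto_nhds_zero.1 h3 (ε / 2) hε2] with R hR
  have h4 : ∀ E : Set MW, μ E ≤ μ (A c)ᶜ + cond μ (A c) E := by
    intro E
    have h5 : μ E ≤ μ (A c)ᶜ + μ ((A c) ∩ E) := by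
      refine le_trans (measure_mono fun f hf => ?_) (measure_union_le _ _)
      by_cases h : f ∈ (A c)
      · exact Or.inr ⟨h, hf⟩
      · exact Or.inl h
    refine h5.trans (add_le_add le_rfl ?_)
    rw [cond_apply (H.mA c)]
    have h6 : 1 ≤ (μ (A c))⁻¹ := ENNReal.one_le_inv.2 prob_le_one
    exact le_mul_of_one_le_left' h6
  refine (h4 _).trans ?_
  calc μ (A c)ᶜ + cond μ (A c) _ ≤ ε / 2 + ε / 2 := add_le_add hc1 hR
    _ = ε := ENNReal.add_halves ε

theorem all_sign2 (H : ExG μ A) {k : ℕ} (w : Fin k → ℂ) (t : Fin k → ℝ) :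
    SB.cst * μ.real {f | lin w t f ≠ 0} ≤ μ.real {f | 0 < lin w t f} ∧
    SB.cst * μ.real {f | lin w t f ≠ 0} ≤ μ.real {f | lin w t f < 0} := by
  refine ⟨all_sign H w t, ?_⟩
  have h := all_sign H w fun j => -t j
  simpa only [lin_neg, neg_ne_zero, Left.neg_pos_iff] using h

theorem all_large2 (H : ExG μ A) {k : ℕ} (w : Fin k → ℂ) (t : Fin k → ℝ) {a : ℝ} (ha : a < SB.cst) :
    Tendsto (fun R : ℝ => μ {f : MW | (∃ y, ∑ j, t j * f (y + w j) ≠ 0) ∧
      (prop R (fun y => ∑ j, t j * f (y + w j)) ≤ a ∨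
        prop R (fun y => -∑ j, t j * f (y + w j)) ≤ a)}) atTop (𝓝 0) := by
  have h1 := all_large H w t ha
  have h2 := all_large H w (fun j => -t j) ha
  have h3 := h1.add h2
  rw [add_zero] at h3
  refine tendsto_of_tendsto_of_tendsto_of_le_of_le tendsto_const_nhds h3
    (fun R => zero_le) fun R => ?_
  refine le_trans (measure_mono fun f hf => ?_) (measure_union_le _ _)
  have e : ∀ y, lwave w (fun j => -t j) f y = -∑ j, t j * f (y + w j) := by
    intro y
    show ∑ j, -t j * f (y + w j) = _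
    rw [← Finset.sum_neg_distrib]
    exact Finset.sum_congr rfl fun j _ => by ring
  have e' : (fun y => lwave w (fun j => -t j) f y) = fun y => -∑ j, t j * f (y + w j) :=
    funext e
  obtain ⟨⟨y, hy⟩, hf | hf⟩ := hf
  · exact Or.inl ⟨⟨y, hy⟩, hf⟩
  · refine Or.inr ⟨⟨y, ?_⟩, ?_⟩
    · rw [e]
      exact neg_ne_zero.2 hy
    · rw [← e'] at hf
      exact hf


theorem ex_cond (H : ExG μ A) {B : Set MW} (hB : MeasurableSet B)
    (hinv : ∀ x : ℂ, shift x ⁻¹' B =ᵐ[μ] B) (h0 : μ B ≠ 0) : ExG (cond μ B) A where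
  st := cond_stat H.st hB hinv
  mA := H.mA
  iA c x := cond_absolutelyContinuous.ae_le (H.iA c x)
  mono := H.mono
  full := cond_absolutelyContinuous.ae_le H.full
  i4 c := by
    have h1 : IntegrableOn (fun f : MW => f 0 ^ 4) (A c) (μ.restrict B) := by
      show Integrable (fun f : MW => f 0 ^ 4) ((μ.restrict B).restrict (A c))
      rw [Measure.restrict_restrict (H.mA c), Set.inter_comm]
      rw [← Measure.restrict_restrict hB]
      exact Integrable.restrict (H.i4 c)
    have h2 : (cond μ B).restrict (A c) = (μ B)⁻¹ • (μ.restrict B).restrict (A c) := by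
      rw [ProbabilityTheory.cond, Measure.restrict_smul]
    show Integrable (fun f : MW => f 0 ^ 4) ((cond μ B).restrict (A c))
    rw [h2]
    exact Integrable.smul_measure h1 (ENNReal.inv_ne_top.2 h0)

theorem inv_sign (H : ExG μ A) {B : Set MW} (hB : MeasurableSet B)
    (hinv : ∀ x : ℂ, shift x ⁻¹' B =ᵐ[μ] B) {k : ℕ} (w : Fin k → ℂ) (t : Fin k → ℝ) :
    SB.cst * μ.real (B ∩ {f | lin w t f ≠ 0}) ≤ μ.real (B ∩ {f | 0 < lin w t f}) ∧
    SB.cst * μ.real (B ∩ {f | lin w t f ≠ 0}) ≤ μ.real (B ∩ {f | lin w t f < 0}) := by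
  by_cases h0 : μ B = 0
  · have e : ∀ E : Set MW, μ.real (B ∩ E) = 0 := fun E => by
      rw [measureReal_def, measure_mono_null Set.inter_subset_left h0, ENNReal.toReal_zero]
    rw [e, e, e, mul_zero]
    exact ⟨le_rfl, le_rfl⟩
  · have hp : IsProbabilityMeasure (cond μ B) := cond_isProbabilityMeasure h0
    have h1 := all_sign2 (ex_cond H hB hinv h0) w t
    have hcr : ∀ E : Set MW, (cond μ B).real E = (μ.real B)⁻¹ * μ.real (B ∩ E) := by
      intro E
      rw [measureReal_def, cond_apply hB, ENNReal.toReal_mul, ENNReal.toReal_inv]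
      rfl
    rw [hcr, hcr, hcr] at h1
    have hpos : 0 < μ.real B := ENNReal.toReal_pos h0 (measure_ne_top _ _)
    have key : ∀ x y : ℝ, SB.cst * ((μ.real B)⁻¹ * x) ≤ (μ.real B)⁻¹ * y → SB.cst * x ≤ y := by
      intro x y h
      have h2 := mul_le_mul_of_nonneg_left h hpos.le
      have e1 : μ.real B * (SB.cst * ((μ.real B)⁻¹ * x)) = SB.cst * x := by field_simp
      have e2 : μ.real B * ((μ.real B)⁻¹ * y) = y := by field_simp
      rwa [e1, e2] at h2
    exact ⟨key _ _ h1.1, key _ _ h1.2⟩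

/-- stationary waves with finite variance -/
theorem ex_of (T : Pts) (hs : IsStationary μ) (i2 : Integrable (fun f : MW => f 0 ^ 2) μ) :
    ExG μ fun c : ℕ => {f | ce μ f ≤ c} where
  st := hs
  mA c := measurableSet_le ce_meas measurable_const
  iA c x := ce_inv c x
  mono := by
    intro a b hab f hf
    have hf' : ce μ f ≤ a := hf
    show ce μ f ≤ b
    exact hf'.trans (by exact_mod_cast hab)
  full := by
    refine Eventually.of_forall fun f => ?_
    obtain ⟨n, hn⟩ := exists_nat_ge (ce μ f)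
    exact Set.mem_iUnion.2 ⟨n, hn⟩
  i4 c := fm_on T hs i2 c

end

end Pool.Agent.U26.SG.G
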