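import Pool.Agent.U26.SG.Path
import Pool.Agent.U934.SG.CPT
import Pool.Agent.U364.SG.COND

/-!
# Signs of stationary waves with a finite fourth moment
-/

set_option autoImplicit false
open MeasureTheory Filter Topology ProbabilityTheory
open scoped ENNReal

namespace Pool.Agent.U26.SG

open Pool.Agent.W745.RW (lap dx dy TF W)
open Pool.Agent.N661.BR
open Pool.Agent.N141.BRERG4 (ev ev_meas wv)
open Pool.Agent.R989.Erg (sh inv inv_le V Fld x2 x2_meas)
open Pool.Agent.R989.Asm (XW XW_meas X4 X4_meas pt Wv ind ind_meas ind_int V_ind)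
open Pool.Agent.U26.SB

section

variable {ρ : Measure MW} [IsProbabilityMeasure ρ]

/-- the conditional second moment -/
noncomputable def v2 (ρ : Measure MW) (o : ℂ → ℝ) : ℝ := ((ρ.map ev)[x2 | inv (ρ.map ev)]) o

omit [IsProbabilityMeasure ρ] in
theorem v2_meas : Measurable[inv (ρ.map ev)] (v2 ρ) := stronglyMeasurable_condExp.measurable

theorem mean_cond (hs : IsStationary ρ) (h4 : Integrable (fun f : MW => f 0 ^ 4) ρ) :
    (ρ.map ev)[fun o : ℂ → ℝ => o 0 | inv (ρ.map ev)] =ᵐ[ρ.map ev] fun _ => (0 : ℝ) := by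
  have hp0 : IsProbabilityMeasure (ρ.map ev) :=
    Measure.isProbabilityMeasure_map ev_meas.aemeasurable
  have i2 : Integrable (fun f : MW => f 0 ^ 2) ρ := pow_int (meas_eval 0) h4 (by norm_num)
  have i1 : Integrable (fun f : MW => f 0) ρ := by
    simpa using pow_int (k := 1) (meas_eval 0) h4 (by norm_num)
  have i1' : Integrable (fun o : ℂ → ℝ => o 0) (ρ.map ev) :=
    (integrable_map_measure (measurable_pi_apply 0).aestronglyMeasurable ev_meas.aemeasurable).2 i1
  symm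
  refine ae_eq_condExp_of_forall_setIntegral_eq (inv_le _) i1'
    (fun s _ _ => integrableOn_const (measure_ne_top _ _)) ?_
    (StronglyMeasurable.aestronglyMeasurable stronglyMeasurable_const)
  intro A hA _
  have hAm := inv_le _ _ hA
  rw [integral_zero, setIntegral_map hAm (measurable_pi_apply 0).aestronglyMeasurable
    ev_meas.aemeasurable]
  symm
  by_cases hB : ρ (ev ⁻¹' A) = 0
  · exact setIntegral_measure_zero _ hB
  · have hpr : IsProbabilityMeasure (cond ρ (ev ⁻¹' A)) := cond_isProbabilityMeasure hB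
    have h1 := mean_zero (cond_stat hs (ev_meas hAm) fun x => inv_ev hA x) (int_cond i2 hB) 0
    rw [ProbabilityTheory.cond, integral_smul_measure, smul_eq_mul, mul_eq_zero] at h1
    rcases h1 with h1 | h1
    · exfalso
      rw [ENNReal.toReal_eq_zero_iff] at h1
      rcases h1 with h1 | h1
      · rw [ENNReal.inv_eq_zero] at h1
        exact measure_ne_top _ _ h1
      · rw [ENNReal.inv_eq_top] at h1
        exact hB h1
    · exact h1

theorem base_cond (hs : IsStationary ρ) (h4 : Integrable (fun f : MW => f 0 ^ 4) ρ)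
    {A : Set (ℂ → ℝ)} (hA : MeasurableSet[inv (ρ.map ev)] A) :
    cst * (ρ.map ev).real (A ∩ {o | 0 < v2 ρ o}) ≤ (ρ.map ev).real (A ∩ {o | 0 < o 0}) := by
  have hp0 : IsProbabilityMeasure (ρ.map ev) :=
    Measure.isProbabilityMeasure_map ev_meas.aemeasurable
  have H := wv hs h4
  have h3 := main3 H (path Pool.Agent.U934.SG.t_CPT hs h4)
  have m4 : Measurable ((ρ.map ev)[X4 | inv (ρ.map ev)]) :=
    stronglyMeasurable_condExp.measurable.mono (inv_le _) le_rfl
  have m2 : Measurable ((ρ.map ev)[x2 | inv (ρ.map ev)]) :=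
    stronglyMeasurable_condExp.measurable.mono (inv_le _) le_rfl
  have h3' : ∀ᵐ o ∂(ρ.map ev), ((ρ.map ev)[X4 | inv (ρ.map ev)]) o ≤
      3 * ((ρ.map ev)[x2 | inv (ρ.map ev)]) o ^ 2 :=
    (ae_map_iff ev_meas.aemeasurable (measurableSet_le m4 ((m2.pow_const 2).const_mul 3))).2 h3
  exact Pool.Agent.U364.SG.t_COND (ℂ → ℝ) _ (inv (ρ.map ev)) (inv_le _) (ρ.map ev) hp0
    (fun o => o 0) (measurable_pi_apply 0) (H.pow4 0) (mean_cond hs h4) h3' A hA

/-- where the conditional second moment vanishes, the wave is zero -/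
theorem zero_off (hs : IsStationary ρ) (h2 : Integrable (fun f : MW => f 0 ^ 2) ρ) :
    ∀ᵐ f ∂ρ, v2 ρ (ev f) ≤ 0 → ∀ y : ℂ, f y = 0 := by
  have hp0 : IsProbabilityMeasure (ρ.map ev) :=
    Measure.isProbabilityMeasure_map ev_meas.aemeasurable
  have hAi : MeasurableSet[inv (ρ.map ev)] {o | v2 ρ o ≤ 0} := v2_meas measurableSet_Iic
  have hAm := inv_le _ _ hAi
  have i2 : Integrable x2 (ρ.map ev) :=
    (integrable_map_measure x2_meas.aestronglyMeasurable ev_meas.aemeasurable).2 h2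
  have e1 : ∫ o in {o | v2 ρ o ≤ 0}, x2 o ∂(ρ.map ev) = ∫ o in {o | v2 ρ o ≤ 0}, v2 ρ o ∂(ρ.map ev) :=
    (setIntegral_condExp (inv_le _) i2 hAi).symm
  have e2 : ∫ o in {o | v2 ρ o ≤ 0}, v2 ρ o ∂(ρ.map ev) ≤ 0 :=
    setIntegral_nonpos hAm fun o ho => ho
  rw [← e1, setIntegral_map hAm x2_meas.aestronglyMeasurable ev_meas.aemeasurable] at e2
  have e3 : ∫ f in ev ⁻¹' {o | v2 ρ o ≤ 0}, f 0 ^ 2 ∂ρ = 0 :=
    le_antisymm e2 (integral_nonneg fun f => sq_nonneg _)
  have hB : MeasurableSet (ev ⁻¹' {o | v2 ρ o ≤ 0}) := ev_meas hAm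
  have e4 : ∀ᵐ f ∂ρ, f ∈ ev ⁻¹' {o | v2 ρ o ≤ 0} → f 0 = 0 := by
    have h3 := (setIntegral_eq_zero_iff_of_nonneg_ae (μ := ρ)
      (Eventually.of_forall fun f : MW => sq_nonneg (f 0)) h2.integrableOn).1 e3
    have h4 := (ae_restrict_iff' hB).1 h3
    filter_upwards [h4] with f hf hfB
    exact pow_eq_zero_iff (two_ne_zero) |>.1 (hf hfB)
  have e5 : ∀ y : ℂ, ∀ᵐ f ∂ρ, f ∈ ev ⁻¹' {o | v2 ρ o ≤ 0} → f y = 0 := by
    intro y
    have hmp : MeasurePreserving (shift y) ρ ρ := ⟨meas_shift y, hs y⟩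
    have h3 := hmp.quasiMeasurePreserving.ae e4
    have h4 : ∀ᵐ f ∂ρ, (f ∈ shift y ⁻¹' (ev ⁻¹' {o | v2 ρ o ≤ 0})) =
      (f ∈ ev ⁻¹' {o | v2 ρ o ≤ 0}) := inv_ev hAi y
    filter_upwards [h3, h4] with f hf hf' hfB
    have h5 : shift y f ∈ ev ⁻¹' {o | v2 ρ o ≤ 0} := by
      have : f ∈ shift y ⁻¹' (ev ⁻¹' {o | v2 ρ o ≤ 0}) := by rw [hf']; exact hfB
      exact this
    have h6 := hf h5
    have h7 : f (0 + y) = 0 := h6
    rwa [zero_add] at h7
  filter_upwards [ae_all_iff.2 fun n : ℕ => e5 (TopologicalSpace.denseSeq ℂ n)] with f hf hfB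
  have hc : Continuous (fun y => f y) := f.2.1.continuous
  have h3 : (fun y => f y) = fun _ => 0 :=
    (TopologicalSpace.denseRange_denseSeq ℂ).equalizer hc continuous_const
      (funext fun n => hf n hfB)
  exact fun y => congrFun h3 y

theorem base_sign (hs : IsStationary ρ) (h4 : Integrable (fun f : MW => f 0 ^ 4) ρ) :
    cst * ρ.real {f : MW | f 0 ≠ 0} ≤ ρ.real {f : MW | 0 < f 0} := by
  have hp0 : IsProbabilityMeasure (ρ.map ev) :=
    Measure.isProbabilityMeasure_map ev_meas.aemeasurable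
  have i2 : Integrable (fun f : MW => f 0 ^ 2) ρ := pow_int (meas_eval 0) h4 (by norm_num)
  have h1 := base_cond hs h4 (A := Set.univ) MeasurableSet.univ
  have hmv : MeasurableSet {o : ℂ → ℝ | 0 < v2 ρ o} := inv_le _ _ (v2_meas measurableSet_Ioi)
  have hm0 : MeasurableSet {o : ℂ → ℝ | 0 < o 0} :=
    measurableSet_lt measurable_const (measurable_pi_apply 0)
  rw [Set.univ_inter, Set.univ_inter, map_measureReal_apply ev_meas hm0,
    map_measureReal_apply ev_meas hmv] at h1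
  have h2 : ρ.real {f : MW | f 0 ≠ 0} ≤ ρ.real (ev ⁻¹' {o | 0 < v2 ρ o}) := by
    refine ENNReal.toReal_mono (measure_ne_top _ _) (measure_mono_ae ?_)
    filter_upwards [zero_off hs i2] with f hf hf0
    show 0 < v2 ρ (ev f)
    by_contra hc
    exact hf0 (hf (not_lt.1 hc) 0)
  exact (mul_le_mul_of_nonneg_left h2 cst_pos.le).trans h1

/-- a lower bound for the conditional probability of a positive value -/
theorem q_ge (hs : IsStationary ρ) (h4 : Integrable (fun f : MW => f 0 ^ 4) ρ) {a : ℝ}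
    (ha : a < cst) : ∀ᵐ f ∂ρ, 0 < v2 ρ (ev f) →
      a ≤ ((ρ.map ev)[xpos | inv (ρ.map ev)]) (ev f) := by
  have hp0 : IsProbabilityMeasure (ρ.map ev) :=
    Measure.isProbabilityMeasure_map ev_meas.aemeasurable
  have hxi : Integrable xpos (ρ.map ev) :=
    (integrable_const (1 : ℝ)).indicator (measurableSet_lt measurable_const (measurable_pi_apply 0))
  set q := (ρ.map ev)[xpos | inv (ρ.map ev)] with hq
  have hqm : Measurable[inv (ρ.map ev)] q := stronglyMeasurable_condExp.measurable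
  set A : Set (ℂ → ℝ) := {o | 0 < v2 ρ o} ∩ {o | q o < a} with hA
  have hAi : MeasurableSet[inv (ρ.map ev)] A :=
    MeasurableSet.inter (v2_meas measurableSet_Ioi) (hqm measurableSet_Iio)
  have hAm := inv_le _ _ hAi
  have h1 := base_cond hs h4 hAi
  have e1 : A ∩ {o | 0 < v2 ρ o} = A := Set.inter_eq_left.2 Set.inter_subset_left
  rw [e1] at h1
  have e2 : (ρ.map ev).real (A ∩ {o | 0 < o 0}) = ∫ o in A, xpos o ∂(ρ.map ev) := by
    unfold xpos
    rw [setIntegral_indicator (measurableSet_lt measurable_const (measurable_pi_apply 0)),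
      setIntegral_const, smul_eq_mul, mul_one]
  have e3 : ∫ o in A, xpos o ∂(ρ.map ev) = ∫ o in A, q o ∂(ρ.map ev) :=
    (setIntegral_condExp (inv_le _) hxi hAi).symm
  have e4 : ∫ o in A, q o ∂(ρ.map ev) ≤ a * (ρ.map ev).real A := by
    have h5 : ∫ o in A, q o ∂(ρ.map ev) ≤ ∫ _ in A, a ∂(ρ.map ev) :=
      setIntegral_mono_on integrable_condExp.integrableOn (integrableOn_const (measure_ne_top _ _))
        hAm fun o ho => (ho.2 : q o < a).le
    rwa [setIntegral_const, smul_eq_mul, mul_comm] at h5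
  have h6 : (cst - a) * (ρ.map ev).real A ≤ 0 := by
    rw [e2, e3] at h1
    linarith
  have h7 : (ρ.map ev).real A = 0 :=
    le_antisymm (nonpos_of_mul_nonpos_right h6 (sub_pos.2 ha)) measureReal_nonneg
  have h8 : (ρ.map ev) A = 0 := by
    rwa [measureReal_eq_zero_iff] at h7
  rw [Measure.map_apply ev_meas hAm] at h8
  have h9 : ∀ᵐ f ∂ρ, f ∉ ev ⁻¹' A := measure_eq_zero_iff_ae_notMem.1 h8
  filter_upwards [h9] with f hf hv
  by_contra hc
  exact hf ⟨hv, not_le.1 hc⟩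

theorem base_large (hs : IsStationary ρ) (h4 : Integrable (fun f : MW => f 0 ^ 4) ρ) {c : ℝ}
    (hc : c < cst) :
    Tendsto (fun R : ℝ => ρ {f : MW | (∃ y, f y ≠ 0) ∧ prop R f ≤ c}) atTop (𝓝 0) := by
  obtain ⟨p, hcp, hpc⟩ := exists_between hc
  have i2 : Integrable (fun f : MW => f 0 ^ 2) ρ := pow_int (meas_eval 0) h4 (by norm_num)
  have hμp : IsProbabilityMeasure (ρ.map ev) := Measure.isProbabilityMeasure_map ev_meas.aemeasurable
  have hfld : Fld ρ (ρ.map ev) ev := ⟨joint_ev, rfl⟩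
  have hμ : ∀ a, MeasurePreserving (sh a) (ρ.map ev) (ρ.map ev) := by
    refine Pool.Agent.R989.Erg.mps joint_ev fun a => ?_
    have h1 : (fun f : MW => sh a (ev f)) = ev ∘ shift a := rfl
    rw [h1, ← Measure.map_map ev_meas (meas_shift a), hs a]
  have hxi : Integrable xpos (ρ.map ev) :=
    (integrable_const (1 : ℝ)).indicator (measurableSet_lt measurable_const (measurable_pi_apply 0))
  have hce := q_ge hs h4 hpc
  have hz := zero_off hs i2
  have hL1 := Pool.Agent.R989.Erg.L1 (S := MW) (P := ρ) hμ (ind 1) (ind_meas 1) (ind_int 1) xpos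
    xpos_meas hxi
  have hpi := Real.pi_pos
  set δ : ℝ := Real.pi * (p - c) with hδ
  have hδ0 : 0 < δ := mul_pos hpi (sub_pos.2 hcp)
  rw [ENNReal.tendsto_atTop_zero]
  intro ε hε
  by_cases hεt : ε = ⊤
  · exact ⟨0, fun _ _ => hεt ▸ le_top⟩
  have hδe : ENNReal.ofReal δ ≠ 0 := (ENNReal.ofReal_pos.2 hδ0).ne'
  have hη : 0 < ENNReal.ofReal δ * ε := pos_iff_ne_zero.2 (mul_ne_zero hδe hε.ne')
  obtain ⟨N, hN⟩ := eventually_atTop.1 (hL1 _ hη)
  refine ⟨N, fun R hR => ?_⟩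
  have h1 := hN R hR ev hfld
  set g : MW → ℝ := fun s => V ev (ind 1) R xpos s -
    (∫ z, ind 1 z) * ((ρ.map ev)[xpos | inv (ρ.map ev)]) (ev s) with hg
  have hgm : AEStronglyMeasurable g ρ := by
    refine ((Pool.Agent.R989.Erg.V_meas joint_ev (ind 1) (ind_meas 1) R xpos
      xpos_meas).aestronglyMeasurable).sub (aestronglyMeasurable_const.mul ?_)
    have h2 : Measurable ((ρ.map ev)[xpos | inv (ρ.map ev)]) :=
      stronglyMeasurable_condExp.measurable.mono (inv_le _) le_rfl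
    exact (h2.comp ev_meas).aestronglyMeasurable
  have h2 : ρ {f : MW | (∃ y, f y ≠ 0) ∧ prop R f ≤ c} ≤ ρ {f | ENNReal.ofReal δ ≤ ‖g f‖ₑ} := by
    refine measure_mono_ae ?_
    filter_upwards [hce, hz] with f hf hf' hA
    obtain ⟨⟨y, hy⟩, hA'⟩ := hA
    have hv : 0 < v2 ρ (ev f) := by
      by_contra hcon
      exact hy (hf' (not_lt.1 hcon) y)
    have hq := hf hv
    have e1 : g f = Real.pi * prop R f -
        Real.pi * ((ρ.map ev)[xpos | inv (ρ.map ev)]) (ev f) := by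
      rw [hg]
      simp only
      rw [V_prop, int_ind]
    show ENNReal.ofReal δ ≤ ‖g f‖ₑ
    rw [e1, Real.enorm_eq_ofReal_abs]
    refine ENNReal.ofReal_le_ofReal ?_
    rw [← mul_sub, abs_mul, abs_of_pos hpi, hδ]
    refine mul_le_mul_of_nonneg_left ?_ hpi.le
    rw [abs_sub_comm]
    refine le_trans ?_ (le_abs_self _)
    linarith
  have h3 : ENNReal.ofReal δ * ρ {f | ENNReal.ofReal δ ≤ ‖g f‖ₑ} ≤ eLpNorm g 1 ρ := by
    rw [eLpNorm_one_eq_lintegral_enorm]
    exact mul_meas_ge_le_lintegral₀ hgm.enorm _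
  have h4 : ENNReal.ofReal δ * ρ {f | ENNReal.ofReal δ ≤ ‖g f‖ₑ} ≤ ENNReal.ofReal δ * ε :=
    h3.trans h1
  have h5 : ρ {f | ENNReal.ofReal δ ≤ ‖g f‖ₑ} ≤ ε :=
    (ENNReal.mul_le_mul_iff_right hδe ENNReal.ofReal_ne_top).1 h4
  exact h2.trans h5

end

end Pool.Agent.U26.SG
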