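import Pool.Agent.U26.SG.Stm3

/-!
# COMP, first part: the map from sequences of coefficients to waves
-/

set_option autoImplicit false
open MeasureTheory Filter Topology Complex
open scoped ContDiff ENNReal

namespace Pool.Agent.U26.SG

open Pool.Agent.W745.RW (lap dx dy)
open Pool.Agent.N661.BR (MW lin)

noncomputable section

/-- sequences of moderate growth -/
def Mod (x : ℤ → ℂ) : Prop := Sym x ∧ ∃ C : ℕ, ∀ k : ℤ, ‖x k‖ ≤ C * 2 ^ k.natAbs

theorem sym_meas : MeasurableSet {x : ℤ → ℂ | Sym x} := by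
  have e : {x : ℤ → ℂ | Sym x} =
      ⋂ k : ℤ, {x | x (-k) = (-1) ^ k.natAbs * starRingEnd ℂ (x k)} := by
    ext x
    simp only [Sym, Set.mem_ofPred_eq, Set.mem_iInter]
  rw [e]
  refine MeasurableSet.iInter fun k => measurableSet_eq_fun (measurable_pi_apply _) ?_
  exact measurable_const.mul (Complex.continuous_conj.measurable.comp (measurable_pi_apply k))

theorem mod_meas : MeasurableSet {x : ℤ → ℂ | Mod x} := by
  have e : {x : ℤ → ℂ | Mod x} = {x | Sym x} ∩
      ⋃ C : ℕ, ⋂ k : ℤ, {x | ‖x k‖ ≤ C * 2 ^ k.natAbs} := by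
    ext x
    simp only [Mod, Set.mem_ofPred_eq, Set.mem_inter_iff, Set.mem_iUnion, Set.mem_iInter]
  rw [e]
  refine sym_meas.inter (MeasurableSet.iUnion fun C => MeasurableSet.iInter fun k => ?_)
  exact measurableSet_le (measurable_pi_apply k).norm measurable_const

/-- the zero wave -/
def zw : MW := ⟨fun _ => 0, contDiff_const, fun z => by
  have hx : dx (fun _ : ℂ => (0 : ℝ)) = fun _ => 0 := by
    funext z; simp [dx]
  have hy : dy (fun _ : ℂ => (0 : ℝ)) = fun _ => 0 := by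
    funext z; simp [dy]
  unfold lap
  rw [hx, hy]
  simp [dx, dy]⟩

theorem mod_ex (hSER : S_SER) {x : ℤ → ℂ} (h : Mod x) :
    ∃ f : MW, ∀ w : ℂ, HasSum (tm x w) (f w : ℂ) := by
  obtain ⟨C, hC⟩ := h.2
  obtain ⟨f, h1, h2, h3⟩ := hSER x h.1 ⟨C, hC⟩
  exact ⟨⟨f, h1, h2⟩, h3⟩

open Classical in
/-- the wave with given coefficients -/
def Ph (hSER : S_SER) (x : ℤ → ℂ) : MW := if h : Mod x then (mod_ex hSER h).choose else zw

theorem Ph_spec (hSER : S_SER) {x : ℤ → ℂ} (h : Mod x) (w : ℂ) :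
    HasSum (tm x w) (Ph hSER x w : ℂ) := by
  unfold Ph
  rw [dif_pos h]
  exact (mod_ex hSER h).choose_spec w

theorem sq_top : Tendsto (fun N : ℕ => Finset.range N ×ˢ Finset.range N) atTop atTop := by
  refine tendsto_atTop_finset_of_monotone ?_ ?_
  · intro a b hab
    exact Finset.product_subset_product (Finset.range_mono hab) (Finset.range_mono hab)
  · intro p
    refine ⟨max p.1 p.2 + 1, ?_⟩
    rw [Finset.mem_product, Finset.mem_range, Finset.mem_range]
    constructor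
    · exact Nat.lt_succ_of_le (le_max_left _ _)
    · exact Nat.lt_succ_of_le (le_max_right _ _)

theorem PS_lim (hSER : S_SER) {x : ℤ → ℂ} (h : Mod x) (w : ℂ) :
    Tendsto (fun N => PS N x w) atTop (𝓝 (Ph hSER x w : ℂ)) :=
  (Ph_spec hSER h w).comp sq_top

theorem tm_cont (w : ℂ) (p : ℕ × ℕ) : Continuous fun x : ℤ → ℂ => tm x w p := by
  unfold tm
  fun_prop

theorem PS_cont (N : ℕ) (w : ℂ) : Continuous fun x : ℤ → ℂ => PS N x w := by
  unfold PS
  exact continuous_finsetSum _ fun p _ => tm_cont w p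

theorem Ph_meas (hSER : S_SER) : Measurable (Ph hSER) := by
  refine Measurable.subtype_mk (f := fun x => (Ph hSER x : ℂ → ℝ)) (measurable_pi_iff.2 fun w => ?_)
  refine measurable_of_tendsto_metrizable (f := fun N (x : ℤ → ℂ) =>
    ({x | Mod x} : Set (ℤ → ℂ)).indicator (fun x => (PS N x w).re) x) (fun N => ?_) ?_
  · exact ((Complex.measurable_re.comp (PS_cont N w).measurable)).indicator mod_meas
  · rw [tendsto_pi_nhds]
    intro x
    by_cases h : Mod x
    · have h1 := (Complex.continuous_re.tendsto _).comp (PS_lim hSER h w)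
      have e : ∀ N, ({x | Mod x} : Set (ℤ → ℂ)).indicator (fun x => (PS N x w).re) x =
          (PS N x w).re := fun N => Set.indicator_of_mem (s := {x | Mod x}) h _
      simp only [e]
      rw [Complex.ofReal_re] at h1
      exact h1
    · have e : ∀ N, ({x | Mod x} : Set (ℤ → ℂ)).indicator (fun x => (PS N x w).re) x = 0 :=
        fun N => Set.indicator_of_notMem (s := {x | Mod x}) h _
      simp only [e]
      have e2 : (Ph hSER x : ℂ → ℝ) w = 0 := by
        unfold Ph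
        rw [dif_neg h]
        rfl
      rw [e2]
      exact tendsto_const_nhds

/-- almost all sequences have moderate growth -/
theorem ae_mod {Λ : Measure (ℤ → ℂ)} [IsProbabilityMeasure Λ] (h1 : ∀ᵐ x ∂Λ, Sym x)
    (h2 : ∀ a : ℤ, ∫⁻ x, ‖x a‖ₑ ^ 2 ∂Λ ≤ 1) : ∀ᵐ x ∂Λ, Mod x := by
  have hs : Summable fun k : ℤ => ((1 : ℝ) / 4) ^ k.natAbs := by
    refine Summable.of_nat_of_neg ?_ ?_
    · simpa using summable_geometric_of_lt_one (by norm_num : (0:ℝ) ≤ 1/4) (by norm_num)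
    · simpa using summable_geometric_of_lt_one (by norm_num : (0:ℝ) ≤ 1/4) (by norm_num)
  have hm : ∀ k : ℤ, Measurable fun x : ℤ → ℂ =>
      ENNReal.ofReal ((1 / 4) ^ k.natAbs) * ‖x k‖ₑ ^ 2 := fun k =>
    ((measurable_pi_apply k).enorm.pow_const 2).const_mul _
  have h3 : ∫⁻ x, ∑' k : ℤ, ENNReal.ofReal ((1 / 4) ^ k.natAbs) * ‖x k‖ₑ ^ 2 ∂Λ ≠ ⊤ := by
    rw [lintegral_tsum fun k => (hm k).aemeasurable]
    refine ne_top_of_le_ne_top (b := ∑' k : ℤ, ENNReal.ofReal (((1 : ℝ) / 4) ^ k.natAbs)) ?_ ?_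
    · rw [← ENNReal.ofReal_tsum_of_nonneg (fun k => by positivity) hs]
      exact ENNReal.ofReal_ne_top
    · refine ENNReal.tsum_le_tsum fun k => ?_
      rw [lintegral_const_mul _ ((measurable_pi_apply k).enorm.pow_const 2)]
      exact mul_le_of_le_one_right' (h2 k)
  have h4 := ae_lt_top (Measurable.tsum hm) h3
  filter_upwards [h1, h4] with x hx1 hx2
  refine ⟨hx1, ?_⟩
  set T := (∑' k : ℤ, ENNReal.ofReal ((1 / 4) ^ k.natAbs) * ‖x k‖ₑ ^ 2).toReal with hT
  have hT0 : 0 ≤ T := ENNReal.toReal_nonneg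
  obtain ⟨C, hC⟩ := exists_nat_ge √T
  refine ⟨C, fun k => ?_⟩
  have h5 : ENNReal.ofReal ((1 / 4) ^ k.natAbs) * ‖x k‖ₑ ^ 2 ≤
      ∑' k : ℤ, ENNReal.ofReal ((1 / 4) ^ k.natAbs) * ‖x k‖ₑ ^ 2 := ENNReal.le_tsum k
  have h6 := ENNReal.toReal_mono hx2.ne h5
  rw [ENNReal.toReal_mul, ENNReal.toReal_ofReal (by positivity), ENNReal.toReal_pow,
    toReal_enorm] at h6
  have h7 : ‖x k‖ ^ 2 ≤ T * 4 ^ k.natAbs := by
    have h8 : (0 : ℝ) < 4 ^ k.natAbs := by positivity
    rw [one_div_pow] at h6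
    have h9 := mul_le_mul_of_nonneg_right h6 h8.le
    have e : 1 / (4 : ℝ) ^ k.natAbs * ‖x k‖ ^ 2 * 4 ^ k.natAbs = ‖x k‖ ^ 2 := by field_simp
    rwa [e] at h9
  have h8 : T * 4 ^ k.natAbs ≤ (C * 2 ^ k.natAbs) ^ 2 := by
    have e : ((2 : ℝ) ^ k.natAbs) ^ 2 = 4 ^ k.natAbs := by
      rw [← pow_mul, mul_comm, pow_mul]
      norm_num
    rw [mul_pow, e]
    refine mul_le_mul_of_nonneg_right ?_ (by positivity)
    calc T = √T ^ 2 := (Real.sq_sqrt hT0).symm
      _ ≤ (C : ℝ) ^ 2 := pow_le_pow_left₀ (Real.sqrt_nonneg _) hC 2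
  exact abs_le_of_sq_le_sq' (h7.trans h8) (by positivity) |>.2

end

end Pool.Agent.U26.SG
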