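import Pool.Agent.U26.SG.Comp1

/-!
# COMP, second part: the second moments of the remainders
-/

set_option autoImplicit false
open MeasureTheory Filter Topology Complex
open scoped ContDiff ENNReal BoundedContinuousFunction

namespace Pool.Agent.U26.SG

open Pool.Agent.W745.RW (lap dx dy)
open Pool.Agent.Y265.RW (sy rr)
open Pool.Agent.N661.BR (MW lin)

noncomputable section

theorem norm_sy (α : ℝ) : ‖sy α‖ = 1 := by
  unfold sy
  rw [norm_mul, Complex.norm_I, one_mul,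
    show -(α : ℂ) * I = ((-α : ℝ) : ℂ) * I by push_cast; ring, Complex.norm_exp_ofReal_mul_I]

theorem iso_ty {Z : Type} [MeasurableSpace Z] {P : Measure Z} {X : ℕ → ℤ → ℂ → Z → ℂ}
    {φ : ℕ → Z → ℝ} (H : Dt P X φ) {J : Type} [Fintype J] (i : ℕ) (c : J → ℂ) (a : J → ℤ)
    (w : J → ℂ) :
    Tendsto (fun n => ∫ z, φ i z * ‖∑ j, c j * X n (a j) (w j) z‖ ^ 2 ∂P) atTop
      (𝓝 ((1 / (2 * Real.pi) * ∫ α in (0:ℝ)..(2 * Real.pi),
        ‖∑ j, c j * (sy α ^ (a j) * Complex.exp ((rr (w j) α : ℂ) * I))‖ ^ 2) *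
          ∫ z, φ i z ∂P)) := by
  let e := Fintype.equivFin J
  have h := H.iso i (Fintype.card J) (c ∘ e.symm) (a ∘ e.symm) (w ∘ e.symm)
  have e1 : ∀ n z, ∑ j, (c ∘ e.symm) j * X n ((a ∘ e.symm) j) ((w ∘ e.symm) j) z =
      ∑ j, c j * X n (a j) (w j) z := fun n z =>
    Equiv.sum_comp e.symm (fun j => c j * X n (a j) (w j) z)
  have e2 : ∀ α : ℝ, ∑ j, (c ∘ e.symm) j * (sy α ^ ((a ∘ e.symm) j) *
      Complex.exp ((rr ((w ∘ e.symm) j) α : ℂ) * I)) =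
      ∑ j, c j * (sy α ^ (a j) * Complex.exp ((rr (w j) α : ℂ) * I)) := fun α =>
    Equiv.sum_comp e.symm (fun j => c j * (sy α ^ (a j) * Complex.exp ((rr (w j) α : ℂ) * I)))
  simpa only [e1, e2] using h

theorem rr_zero (α : ℝ) : rr 0 α = 0 := by simp [rr]

theorem mom {Z : Type} [MeasurableSpace Z] {P : Measure Z} {X : ℕ → ℤ → ℂ → Z → ℂ}
    {φ : ℕ → Z → ℝ} (H : Dt P X φ) (i : ℕ) (a : ℤ) :
    Tendsto (fun n => ∫ z, φ i z * ‖X n a 0 z‖ ^ 2 ∂P) atTop (𝓝 (∫ z, φ i z ∂P)) := by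
  have h := H.iso i 1 (fun _ => 1) (fun _ => a) (fun _ => 0)
  have e2 : ∀ α : ℝ, ‖∑ _j : Fin 1, (1:ℂ) * (sy α ^ a * Complex.exp ((rr 0 α : ℂ) * I))‖ ^ 2 =
      1 := by
    intro α
    rw [Fin.sum_univ_one, one_mul, rr_zero, Complex.ofReal_zero, zero_mul, Complex.exp_zero,
      mul_one, norm_zpow, norm_sy, one_zpow, one_pow]
  have e3 : ∀ (n : ℕ) (z : Z), ∑ _j : Fin 1, (1:ℂ) * X n a 0 z = X n a 0 z := by
    intro n z
    rw [Fin.sum_univ_one, one_mul]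
  have e4 : (1 / (2 * Real.pi) * ∫ α in (0:ℝ)..(2 * Real.pi),
      ‖∑ _j : Fin 1, (1:ℂ) * (sy α ^ a * Complex.exp ((rr 0 α : ℂ) * I))‖ ^ 2) *
        ∫ z, φ i z ∂P = ∫ z, φ i z ∂P := by
    simp only [e2]
    rw [intervalIntegral.integral_const, smul_eq_mul, mul_one, sub_zero,
      one_div_mul_cancel (by positivity), one_mul]
  rw [e4] at h
  simpa only [e3] using h

/-- the coefficients of the expansion -/
def cf (w : ℂ) (p : ℕ × ℕ) : ℂ :=
  (-1) ^ p.2 * ((w / 2) ^ p.1 * (starRingEnd ℂ w / 2) ^ p.2) /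
    (p.1.factorial * p.2.factorial : ℕ)

theorem tm_cf (x : ℤ → ℂ) (w : ℂ) (p : ℕ × ℕ) : tm x w p = cf w p * x ((p.1 : ℤ) - p.2) := by
  unfold tm cf
  ring

theorem sum_D {k N : ℕ} (w : Fin k → ℂ) (t : Fin k → ℝ) (V : ℤ → ℂ → ℂ) :
    ∑ j : Fin k ⊕ (Fin k × ↥(Finset.range N ×ˢ Finset.range N)),
      (Sum.elim (fun j => (t j : ℂ)) (fun q => -(t q.1 : ℂ) * cf (w q.1) q.2.1)) j *
        V ((Sum.elim (fun _ => (0 : ℤ)) (fun q => (q.2.1.1 : ℤ) - q.2.1.2)) j)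
          ((Sum.elim w (fun _ => (0 : ℂ))) j) =
      ∑ j, (t j : ℂ) * (V 0 (w j) - PS N (fun a => V a 0) (w j)) := by
  rw [Fintype.sum_sum_type]
  simp only [Sum.elim_inl, Sum.elim_inr]
  rw [Fintype.sum_prod_type, ← Finset.sum_add_distrib]
  refine Finset.sum_congr rfl fun j _ => ?_
  rw [mul_sub, sub_eq_add_neg]
  congr 1
  unfold PS
  rw [← Finset.sum_coe_sort (Finset.range N ×ˢ Finset.range N)
    (fun p => tm (fun a => V a 0) (w j) p), Finset.mul_sum, ← Finset.sum_neg_distrib]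
  refine Finset.sum_congr rfl fun p _ => ?_
  rw [tm_cf]
  ring

theorem c1 (hTAY : S_TAY) {Z : Type} [MeasurableSpace Z] {P : Measure Z}
    {X : ℕ → ℤ → ℂ → Z → ℂ} {φ : ℕ → Z → ℝ} (H : Dt P X φ) {k : ℕ} (w : Fin k → ℂ)
    (t : Fin k → ℝ) (i : ℕ) {δ : ℝ} (hδ : 0 < δ) :
    ∀ᶠ N in atTop, ∀ᶠ n in atTop, ∫ z, φ i z *
      ‖∑ j, (t j : ℂ) * (X n 0 (w j) z - PS N (fun a => X n a 0 z) (w j))‖ ^ 2 ∂P ≤ δ := by
  have hP := H.prob
  set S := ∑ j, |t j| with hS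
  have hS0 : 0 ≤ S := Finset.sum_nonneg fun j _ => abs_nonneg _
  set ε' := √(δ / 2) / (S + 1) with hε'
  have hε0 : 0 < ε' := by positivity
  have hSe : (S * ε') ^ 2 ≤ δ / 2 := by
    have h1 : S * ε' ≤ √(δ / 2) := by
      rw [hε', mul_div_assoc', div_le_iff₀ (by positivity)]
      nlinarith [Real.sqrt_nonneg (δ / 2)]
    calc (S * ε') ^ 2 ≤ √(δ / 2) ^ 2 := pow_le_pow_left₀ (by positivity) h1 2
      _ = δ / 2 := Real.sq_sqrt (by positivity)
  have hT : ∀ᶠ N in atTop, ∀ j : Fin k, ∀ α : ℝ,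
      ‖Complex.exp ((((w j).re * Real.cos α + (w j).im * Real.sin α : ℝ) : ℂ) * I) -
        PS N (fun k => (I * Complex.exp (-(α : ℂ) * I)) ^ k) (w j)‖ ≤ ε' :=
    eventually_all.2 fun j => hTAY (w j) ε' hε0
  filter_upwards [hT] with N hN
  have h := iso_ty H (J := Fin k ⊕ (Fin k × ↥(Finset.range N ×ˢ Finset.range N))) i
    (Sum.elim (fun j => (t j : ℂ)) (fun q => -(t q.1 : ℂ) * cf (w q.1) q.2.1))
    (Sum.elim (fun _ => (0 : ℤ)) (fun q => (q.2.1.1 : ℤ) - q.2.1.2))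
    (Sum.elim w (fun _ => (0 : ℂ)))
  have e1 : ∀ (n : ℕ) (z : Z), _ := fun n z => sum_D (N := N) w t (fun a v => X n a v z)
  have e2 : ∀ α : ℝ, _ := fun α => sum_D (N := N) w t
    (fun a v => sy α ^ a * Complex.exp ((rr v α : ℂ) * I))
  simp only [e1, e2] at h
  have hb : ∀ α : ℝ, ‖(‖∑ j, (t j : ℂ) * (sy α ^ (0 : ℤ) * Complex.exp ((rr (w j) α : ℂ) * I) -
      PS N (fun a => sy α ^ a * Complex.exp ((rr 0 α : ℂ) * I)) (w j))‖ ^ 2 : ℝ)‖ ≤ δ / 2 := by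
    intro α
    rw [Real.norm_of_nonneg (by positivity)]
    refine le_trans (pow_le_pow_left₀ (norm_nonneg _) ?_ 2) hSe
    refine (norm_sum_le _ _).trans ?_
    rw [hS, Finset.sum_mul]
    refine Finset.sum_le_sum fun j _ => ?_
    rw [norm_mul, Complex.norm_real, Real.norm_eq_abs]
    refine mul_le_mul_of_nonneg_left ?_ (abs_nonneg _)
    have h1 := hN j α
    simp only [rr_zero, Complex.ofReal_zero, zero_mul, Complex.exp_zero, mul_one, zpow_zero,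
      one_mul]
    simpa only [rr, sy] using h1
  have hI := intervalIntegral.norm_integral_le_of_norm_le_const (a := 0) (b := 2 * Real.pi)
    (fun α _ => hb α)
  have hφ1 : ∫ z, φ i z ∂P ≤ 1 := by
    have h2 : ∫ z, φ i z ∂P ≤ ∫ _z, (1 : ℝ) ∂P := by
      refine integral_mono_of_nonneg (Filter.Eventually.of_forall fun z => (H.w01 i z).1)
        (integrable_const _) (Filter.Eventually.of_forall fun z => (H.w01 i z).2)
    simpa using h2
  have hφ0 : 0 ≤ ∫ z, φ i z ∂P := integral_nonneg fun z => (H.w01 i z).1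
  have hlt := h.eventually_lt_const (u := δ) (by
    have hpi : (0:ℝ) < 2 * Real.pi := by positivity
    rw [sub_zero, abs_of_pos hpi] at hI
    have h3 := (le_abs_self _).trans hI
    have h4 : (1 / (2 * Real.pi) * ∫ α in (0:ℝ)..(2 * Real.pi),
        ‖∑ j, (t j : ℂ) * (sy α ^ (0 : ℤ) * Complex.exp ((rr (w j) α : ℂ) * I) -
          PS N (fun a => sy α ^ a * Complex.exp ((rr 0 α : ℂ) * I)) (w j))‖ ^ 2) ≤ δ / 2 := by
      rw [one_div_mul_eq_div, div_le_iff₀ hpi]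
      exact h3
    calc _ ≤ (δ / 2) * ∫ z, φ i z ∂P := mul_le_mul_of_nonneg_right h4 hφ0
      _ ≤ (δ / 2) * 1 := mul_le_mul_of_nonneg_left hφ1 (by positivity)
      _ < δ := by linarith)
  filter_upwards [hlt] with n hn
  exact hn.le

end

end Pool.Agent.U26.SG
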