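import Pool.Agent.U26.SG.Comp2

/-!
# COMP, third part: characteristic functions
-/

set_option autoImplicit false
open MeasureTheory Filter Topology Complex
open scoped ContDiff ENNReal BoundedContinuousFunction

namespace Pool.Agent.U26.SG

open Pool.Agent.W745.RW (lap dx dy)
open Pool.Agent.Y265.RW (sy rr)
open Pool.Agent.N661.BR (MW lin)

noncomputable section

theorem exp_sub_le (a b : ℝ) :
    ‖Complex.exp (I * (a : ℂ)) - Complex.exp (I * (b : ℂ))‖ ≤ |a - b| := by
  have e : Complex.exp (I * (a : ℂ)) - Complex.exp (I * (b : ℂ)) =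
      Complex.exp (I * (b : ℂ)) * (Complex.exp (I * ((a - b : ℝ) : ℂ)) - 1) := by
    rw [mul_sub, ← Complex.exp_add, mul_one]
    congr 2
    push_cast
    ring
  rw [e, norm_mul, mul_comm I (b : ℂ), Complex.norm_exp_ofReal_mul_I, one_mul]
  exact Real.norm_exp_I_mul_ofReal_sub_one_le

theorem norm_exp_le (a : ℝ) : ‖Complex.exp (I * (a : ℂ))‖ = 1 := by
  rw [mul_comm, Complex.norm_exp_ofReal_mul_I]

theorem c2 {Z : Type} [MeasurableSpace Z] {P : Measure Z} [IsProbabilityMeasure P] {φ : Z → ℝ}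
    (hφ : ∀ z, φ z ∈ Set.Icc (0 : ℝ) 1) {A B : Z → ℝ} {D : Z → ℂ}
    (hAB : ∀ z, |A z - B z| ≤ ‖D z‖)
    (h1 : Integrable (fun z => (φ z : ℂ) * Complex.exp (I * (A z : ℂ))) P)
    (h2 : Integrable (fun z => (φ z : ℂ) * Complex.exp (I * (B z : ℂ))) P)
    (hD : Integrable (fun z => φ z * ‖D z‖ ^ 2) P) {η : ℝ} (hη : 0 < η)
    (h : ∫ z, φ z * ‖D z‖ ^ 2 ∂P ≤ η ^ 2) :
    ‖(∫ z, (φ z : ℂ) * Complex.exp (I * (A z : ℂ)) ∂P) -
      ∫ z, (φ z : ℂ) * Complex.exp (I * (B z : ℂ)) ∂P‖ ≤ η := by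
  rw [← integral_sub h1 h2]
  have hb : ∀ z, ‖(φ z : ℂ) * Complex.exp (I * (A z : ℂ)) -
      (φ z : ℂ) * Complex.exp (I * (B z : ℂ))‖ ≤ η / 2 + 1 / (2 * η) * (φ z * ‖D z‖ ^ 2) := by
    intro z
    rw [← mul_sub, norm_mul, Complex.norm_real, Real.norm_of_nonneg (hφ z).1]
    have h3 := (exp_sub_le (A z) (B z)).trans (hAB z)
    have h4 : ‖D z‖ ≤ η / 2 + 1 / (2 * η) * ‖D z‖ ^ 2 := by
      have h5 : η / 2 + 1 / (2 * η) * ‖D z‖ ^ 2 - ‖D z‖ = (η - ‖D z‖) ^ 2 / (2 * η) := by
        field_simp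
        ring
      have h6 : 0 ≤ (η - ‖D z‖) ^ 2 / (2 * η) := by positivity
      linarith
    calc φ z * ‖Complex.exp (I * (A z : ℂ)) - Complex.exp (I * (B z : ℂ))‖
        ≤ φ z * (η / 2 + 1 / (2 * η) * ‖D z‖ ^ 2) :=
          mul_le_mul_of_nonneg_left (h3.trans h4) (hφ z).1
      _ = φ z * (η / 2) + 1 / (2 * η) * (φ z * ‖D z‖ ^ 2) := by ring
      _ ≤ 1 * (η / 2) + 1 / (2 * η) * (φ z * ‖D z‖ ^ 2) := by
          have := mul_le_mul_of_nonneg_right (hφ z).2 (half_pos hη).le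
          linarith
      _ = η / 2 + 1 / (2 * η) * (φ z * ‖D z‖ ^ 2) := by rw [one_mul]
  refine (norm_integral_le_of_norm_le ((integrable_const _).add (hD.const_mul _))
    (Filter.Eventually.of_forall hb)).trans ?_
  rw [integral_add' (integrable_const _) (hD.const_mul _), integral_const_mul, integral_const,
    probReal_univ, one_smul]
  have h7 : 1 / (2 * η) * ∫ z, φ z * ‖D z‖ ^ 2 ∂P ≤ 1 / (2 * η) * η ^ 2 :=
    mul_le_mul_of_nonneg_left h (by positivity)
  have h8 : 1 / (2 * η) * η ^ 2 = η / 2 := by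
    field_simp
  linarith

theorem c3 {Z : Type} [MeasurableSpace Z] {P : Measure Z} [IsProbabilityMeasure P] {φ : Z → ℝ}
    (hφm : Measurable φ) (hφ : ∀ z, φ z ∈ Set.Icc (0 : ℝ) 1) {E : Z → ℂ} (hE : ∀ z, ‖E z‖ ≤ 1)
    (h1 : Integrable (fun z => (φ z : ℂ) * E z) P) (h2 : Integrable E P) :
    ‖(∫ z, (φ z : ℂ) * E z ∂P) - ∫ z, E z ∂P‖ ≤ 1 - ∫ z, φ z ∂P := by
  rw [← integral_sub h1 h2]
  have hφi : Integrable φ P := by
    refine Integrable.mono' (integrable_const (1 : ℝ)) hφm.aestronglyMeasurable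
      (Filter.Eventually.of_forall fun z => ?_)
    rw [Real.norm_of_nonneg (hφ z).1]
    exact (hφ z).2
  have hb : ∀ z, ‖(φ z : ℂ) * E z - E z‖ ≤ 1 - φ z := by
    intro z
    have e : (φ z : ℂ) * E z - E z = ((φ z - 1 : ℝ) : ℂ) * E z := by push_cast; ring
    rw [e, norm_mul, Complex.norm_real, Real.norm_eq_abs, abs_sub_comm,
      abs_of_nonneg (sub_nonneg.2 (hφ z).2)]
    exact mul_le_of_le_one_right (sub_nonneg.2 (hφ z).2) (hE z)
  refine (norm_integral_le_of_norm_le ((integrable_const _).sub hφi)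
    (Filter.Eventually.of_forall hb)).trans ?_
  rw [integral_sub' (integrable_const _) hφi, integral_const, probReal_univ, one_smul]

/-- measurability on the support of the weight -/
theorem meas_w {Z : Type} [MeasurableSpace Z] {P : Measure Z} {φ : Z → ℝ} (hφm : Measurable φ)
    {J : Type} [Fintype J] (c : J → ℂ) {V : J → Z → ℂ}
    (hV : ∀ j, AEMeasurable (fun z => (φ z : ℂ) * V j z) P) (F : ℂ → ℂ) (hF : Measurable F) :
    AEMeasurable (fun z => (φ z : ℂ) * F (∑ j, c j * V j z)) P := by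
  have h1 : AEMeasurable (fun z => ∑ j, c j * ((φ z : ℂ)⁻¹ * ((φ z : ℂ) * V j z))) P := by
    refine Finset.aemeasurable_fun_sum _ fun j _ => ?_
    exact ((((Complex.measurable_ofReal.comp hφm).inv).aemeasurable).mul (hV j)).const_mul _
  have h2 : AEMeasurable (fun z => (φ z : ℂ) *
      F (∑ j, c j * ((φ z : ℂ)⁻¹ * ((φ z : ℂ) * V j z)))) P :=
    (Complex.measurable_ofReal.comp hφm).aemeasurable.mul (hF.comp_aemeasurable h1)
  refine h2.congr (Filter.Eventually.of_forall fun z => ?_)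
  by_cases h0 : φ z = 0
  · simp [h0]
  · have h3 : (φ z : ℂ) ≠ 0 := by exact_mod_cast h0
    have e : ∀ j, (φ z : ℂ)⁻¹ * ((φ z : ℂ) * V j z) = V j z := fun j => by
      rw [← mul_assoc, inv_mul_cancel₀ h3, one_mul]
    simp only [e]

theorem int_lin {Z : Type} [MeasurableSpace Z] {P : Measure Z} {φ : Z → ℝ} (hφm : Measurable φ)
    (hφ : ∀ z, φ z ∈ Set.Icc (0 : ℝ) 1) {J : Type} [Fintype J] (c : J → ℂ) {V : J → Z → ℂ}
    (hV : ∀ j, AEMeasurable (fun z => (φ z : ℂ) * V j z) P)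
    (hI : ∀ j, Integrable (fun z => φ z * ‖V j z‖ ^ 2) P) :
    Integrable (fun z => φ z * ‖∑ j, c j * V j z‖ ^ 2) P := by
  have hm := meas_w hφm c hV (fun v => ((‖v‖ ^ 2 : ℝ) : ℂ)) (by fun_prop)
  have hm' : AEStronglyMeasurable (fun z => φ z * ‖∑ j, c j * V j z‖ ^ 2) P := by
    have h1 := Complex.measurable_re.comp_aemeasurable hm
    refine (h1.congr (Filter.Eventually.of_forall fun z => ?_)).aestronglyMeasurable
    simp only [Function.comp]
    rw [← Complex.ofReal_mul, Complex.ofReal_re]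
  refine Integrable.mono' (g := fun z => ∑ j, (Fintype.card J * ‖c j‖ ^ 2) *
    (φ z * ‖V j z‖ ^ 2)) (integrable_finsetSum _ fun j _ => (hI j).const_mul _) hm'
    (Filter.Eventually.of_forall fun z => ?_)
  rw [Real.norm_of_nonneg (mul_nonneg (hφ z).1 (by positivity))]
  have h1 : ‖∑ j, c j * V j z‖ ^ 2 ≤ Fintype.card J * ∑ j, ‖c j * V j z‖ ^ 2 := by
    refine (pow_le_pow_left₀ (norm_nonneg _) (norm_sum_le _ _) 2).trans ?_
    have := sq_sum_le_card_mul_sum_sq (s := (Finset.univ : Finset J)) (f := fun j => ‖c j * V j z‖)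
    simpa using this
  calc φ z * ‖∑ j, c j * V j z‖ ^ 2 ≤ φ z * (Fintype.card J * ∑ j, ‖c j * V j z‖ ^ 2) :=
        mul_le_mul_of_nonneg_left h1 (hφ z).1
    _ = ∑ j, (Fintype.card J * ‖c j‖ ^ 2) * (φ z * ‖V j z‖ ^ 2) := by
        rw [Finset.mul_sum, Finset.mul_sum]
        refine Finset.sum_congr rfl fun j _ => ?_
        rw [norm_mul]
        ring

/-- COMP -/
theorem t_COMP (hPROK : S_PROK) (hSER : S_SER) (hTAY : S_TAY) : S_COMP := by
  intro Z _ P X φ H
  have hP := H.prob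
  obtain ⟨σ, Λ, hσ, hΛ, hs, hm, hg⟩ := hPROK Z _ P inferInstance (fun n a => X n a 0) φ H.m0 H.wm
    H.w01 H.wlim H.isoInt0 (mom H) H.sym
  refine ⟨σ, Λ.map (Ph hSER), hσ,
    Measure.isProbabilityMeasure_map (Ph_meas hSER).aemeasurable, ?_⟩
  intro k w t i η hη
  have hmod := ae_mod hs hm
  -- the finite sums
  set B : ℕ → (ℤ → ℂ) → ℝ := fun N x => (∑ j, (t j : ℂ) * PS N x (w j)).re with hB
  have hBc : ∀ N, Continuous (B N) := fun N => Complex.continuous_re.comp
    (continuous_finsetSum _ fun j _ => continuous_const.mul (PS_cont N (w j)))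
  have hEc : ∀ N, Continuous fun x => Complex.exp (I * (B N x : ℂ)) := fun N =>
    Complex.continuous_exp.comp (continuous_const.mul (Complex.continuous_ofReal.comp (hBc N)))
  -- the limit N → ∞
  have hlinm : Measurable fun f : MW => lin w t f := by
    unfold lin
    refine Finset.measurable_fun_sum _ fun j _ => ?_
    exact ((measurable_pi_apply (w j)).comp measurable_subtype_coe).const_mul _
  have hint : ∫ f : MW, Complex.exp (I * (lin w t f : ℝ)) ∂(Λ.map (Ph hSER)) =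
      ∫ x, Complex.exp (I * (lin w t (Ph hSER x) : ℝ)) ∂Λ := by
    rw [integral_map (Ph_meas hSER).aemeasurable]
    exact (Complex.continuous_exp.measurable.comp ((Complex.measurable_ofReal.comp
      hlinm).const_mul I)).aestronglyMeasurable
  have hC5 : Tendsto (fun N => ∫ x, Complex.exp (I * (B N x : ℂ)) ∂Λ) atTop
      (𝓝 (∫ x, Complex.exp (I * (lin w t (Ph hSER x) : ℝ)) ∂Λ)) := by
    refine tendsto_integral_of_dominated_convergence (fun _ => 1)
      (fun N => (hEc N).measurable.aestronglyMeasurable) (integrable_const _)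
      (fun N => Filter.Eventually.of_forall fun x => (norm_exp_le _).le) ?_
    filter_upwards [hmod] with x hx
    have h1 : Tendsto (fun N => ∑ j, (t j : ℂ) * PS N x (w j)) atTop
        (𝓝 (∑ j, (t j : ℂ) * (Ph hSER x (w j) : ℂ))) :=
      tendsto_finsetSum _ fun j _ => (PS_lim hSER hx (w j)).const_mul _
    have h2 : (∑ j, (t j : ℂ) * (Ph hSER x (w j) : ℂ)).re = lin w t (Ph hSER x) := by
      unfold lin
      rw [Complex.re_sum]
      refine Finset.sum_congr rfl fun j _ => ?_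
      rw [← Complex.ofReal_mul, Complex.ofReal_re]
    have h3 := (Complex.continuous_re.tendsto _).comp h1
    rw [h2] at h3
    exact (Complex.continuous_exp.tendsto _).comp
      (((Complex.continuous_ofReal.tendsto _).comp h3).const_mul I)
  obtain ⟨N, hN5, hN1⟩ := ((Metric.tendsto_nhds.1 hC5 (η / 4) (by positivity)).and
    (c1 hTAY H w t i (δ := (η / 4) ^ 2) (by positivity))).exists
  -- weak convergence
  have hC4 := hg (BoundedContinuousFunction.ofNormedAddCommGroup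
    (fun x => Complex.exp (I * (B N x : ℂ))) (hEc N) 1 fun x => (norm_exp_le _).le)
  simp only [BoundedContinuousFunction.coe_ofNormedAddCommGroup] at hC4
  have hmw : ∀ᶠ n in atTop, ∀ j, AEMeasurable (fun z => (φ i z : ℂ) * X n 0 (w j) z) P :=
    eventually_all.2 fun j => H.mw i (w j)
  have hi1 : ∀ᶠ n in atTop, ∀ j, Integrable (fun z => φ i z * ‖X n 0 (w j) z‖ ^ 2) P :=
    eventually_all.2 fun j => H.isoInt i (w j)
  have hi0 : ∀ᶠ n in atTop, ∀ p : ↥(Finset.range N ×ˢ Finset.range N),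
      Integrable (fun z => φ i z * ‖X n ((p.1.1 : ℤ) - p.1.2) 0 z‖ ^ 2) P :=
    eventually_all.2 fun p => H.isoInt0 i _
  filter_upwards [Metric.tendsto_nhds.1 hC4 (η / 4) (by positivity),
    hσ.tendsto_atTop.eventually hN1, hσ.tendsto_atTop.eventually hmw,
    hσ.tendsto_atTop.eventually hi1, hσ.tendsto_atTop.eventually hi0] with n h4 h1 hmw hi1 hi0
  rw [dist_eq_norm] at h4 hN5
  -- measurability
  have hY : AEMeasurable (fun z => fun a => X (σ n) a 0 z) P :=
    aemeasurable_pi_lambda _ fun a => H.m0 (σ n) a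
  have hEB : AEMeasurable (fun z => Complex.exp (I * (B N (fun a => X (σ n) a 0 z) : ℂ))) P :=
    (hEc N).measurable.comp_aemeasurable hY
  have hEBi : Integrable (fun z => Complex.exp (I * (B N (fun a => X (σ n) a 0 z) : ℂ))) P :=
    Integrable.mono' (integrable_const (1 : ℝ)) hEB.aestronglyMeasurable
      (Filter.Eventually.of_forall fun z => (norm_exp_le _).le)
  have hφb : ∀ (z : Z) (e : ℝ), ‖(φ i z : ℂ) * Complex.exp (I * (e : ℂ))‖ ≤ 1 := by
    intro z e
    rw [norm_mul, norm_exp_le, mul_one, Complex.norm_real, Real.norm_of_nonneg (H.w01 i z).1]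
    exact (H.w01 i z).2
  have hφEB : Integrable (fun z => (φ i z : ℂ) *
      Complex.exp (I * (B N (fun a => X (σ n) a 0 z) : ℂ))) P :=
    Integrable.mono' (integrable_const (1 : ℝ))
      ((Complex.measurable_ofReal.comp (H.wm i)).aemeasurable.mul hEB).aestronglyMeasurable
      (Filter.Eventually.of_forall fun z => hφb z _)
  have hφEA : Integrable (fun z => (φ i z : ℂ) * Complex.exp
      (I * (((∑ j, (t j : ℂ) * X (σ n) 0 (w j) z).re : ℝ) : ℂ))) P := by
    refine Integrable.mono' (integrable_const (1 : ℝ)) ?_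
      (Filter.Eventually.of_forall fun z => hφb z _)
    exact (meas_w (H.wm i) (fun j => (t j : ℂ)) hmw
      (fun v => Complex.exp (I * ((v.re : ℝ) : ℂ))) (by fun_prop)).aestronglyMeasurable
  have hD : Integrable (fun z => φ i z * ‖∑ j, (t j : ℂ) * (X (σ n) 0 (w j) z -
      PS N (fun a => X (σ n) a 0 z) (w j))‖ ^ 2) P := by
    have h := int_lin (P := P) (H.wm i) (H.w01 i)
      (J := Fin k ⊕ (Fin k × ↥(Finset.range N ×ˢ Finset.range N)))
      (Sum.elim (fun j => (t j : ℂ)) (fun q => -(t q.1 : ℂ) * cf (w q.1) q.2.1))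
      (V := fun j z => X (σ n) ((Sum.elim (fun _ => (0 : ℤ))
        (fun q => (q.2.1.1 : ℤ) - q.2.1.2)) j) ((Sum.elim w (fun _ => (0 : ℂ))) j) z) ?_ ?_
    · have e1 : ∀ z : Z, _ := fun z => sum_D (N := N) w t (fun a v => X (σ n) a v z)
      simpa only [e1] using h
    · rintro (j | q)
      · exact hmw j
      · exact (Complex.measurable_ofReal.comp (H.wm i)).aemeasurable.mul (H.m0 _ _)
    · rintro (j | q)
      · exact hi1 j
      · exact hi0 q.2
  have h2 := c2 (P := P) (H.w01 i) (A := fun z => (∑ j, (t j : ℂ) * X (σ n) 0 (w j) z).re)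
    (B := fun z => B N (fun a => X (σ n) a 0 z))
    (D := fun z => ∑ j, (t j : ℂ) * (X (σ n) 0 (w j) z - PS N (fun a => X (σ n) a 0 z) (w j)))
    (fun z => by
      have e : (∑ j, (t j : ℂ) * X (σ n) 0 (w j) z).re - B N (fun a => X (σ n) a 0 z) =
          (∑ j, (t j : ℂ) * (X (σ n) 0 (w j) z - PS N (fun a => X (σ n) a 0 z) (w j))).re := by
        rw [hB]
        simp only
        rw [← Complex.sub_re, ← Finset.sum_sub_distrib]
        congr 2
        funext j
        ring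
      rw [e]
      exact Complex.abs_re_le_norm _) hφEA hφEB hD (by positivity : 0 < η / 4) h1
  have h3 := c3 (P := P) (H.wm i) (H.w01 i)
    (E := fun z => Complex.exp (I * (B N (fun a => X (σ n) a 0 z) : ℂ)))
    (fun z => (norm_exp_le _).le) hφEB hEBi
  rw [hint]
  have key : ∀ a b c d e : ℂ, ‖a - e‖ ≤ ‖a - b‖ + ‖b - c‖ + ‖c - d‖ + ‖d - e‖ := by
    intro a b c d e
    have : a - e = (a - b) + (b - c) + (c - d) + (d - e) := by ring
    rw [this]
    exact (norm_add_le _ _).trans (add_le_add_left ((norm_add_le _ _).trans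
      (add_le_add_left (norm_add_le _ _) _)) _)
  have h5 := key (∫ z, (φ i z : ℂ) * Complex.exp
      (I * (((∑ j, (t j : ℂ) * X (σ n) 0 (w j) z).re : ℝ) : ℂ)) ∂P)
    (∫ z, (φ i z : ℂ) * Complex.exp (I * (B N (fun a => X (σ n) a 0 z) : ℂ)) ∂P)
    (∫ z, Complex.exp (I * (B N (fun a => X (σ n) a 0 z) : ℂ)) ∂P)
    (∫ x, Complex.exp (I * (B N x : ℂ)) ∂Λ)
    (∫ x, Complex.exp (I * (lin w t (Ph hSER x) : ℝ)) ∂Λ)
  linarith

end

end Pool.Agent.U26.SG
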