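import Pool.Agent.U26.SB.Fin

/-!
# Stationary waves: the local mass, and fourth moments where it is bounded
-/

set_option autoImplicit false
open MeasureTheory Filter Topology ProbabilityTheory
open scoped ContDiff ENNReal

namespace Pool.Agent.U26.SG

open Pool.Agent.W745.RW (lap dx dy TF W)
open Pool.Agent.N661.BR
open Pool.Agent.N136.BRFIN (L meas_L L_eq g meas_g g_int g_conv M_ae AV_nonneg AV_one AV_shift)

/-- the averages of a law with the bounds `hQ` -/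
theorem sum_AV {μ : Measure MW}
    (hQ : ∀ v : ℤ →₀ ℝ, Bal v → ∀ l : ℤ,
      ∫⁻ f : MW, ENNReal.ofReal (‖QV v l 1 f 0‖ ^ 2) ∂μ ≤ ENNReal.ofReal (KV v l)) (p : ℤ) :
    (∑' k : ℕ, (2 : ENNReal) ^ k *
      (∫⁻ f : MW, ENNReal.ofReal ((AV p (4 ^ (k + 1)) f 0 - AV p (4 ^ k) f 0) ^ 2) ∂μ)) ≠ ⊤ := by
  have hκ : (Measure.dirac () : Measure Unit).bind (Kernel.const Unit μ) = μ := by
    rw [Measure.dirac_bind (Kernel.const Unit μ).measurable]
    rfl
  have h1 := mix_AV (P := (Measure.dirac () : Measure Unit)) (κ := Kernel.const Unit μ) allParts hκ hQ p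
  rw [ae_dirac_eq] at h1
  exact h1

/-- a law with the bounds `hQ`: the local mass `L` is finite, invariant, and the fourth moment is
finite where it is bounded -/
theorem mass4 {μ : Measure MW} [IsProbabilityMeasure μ]
    (hQ : ∀ v : ℤ →₀ ℝ, Bal v → ∀ l : ℤ,
      ∫⁻ f : MW, ENNReal.ofReal (‖QV v l 1 f 0‖ ^ 2) ∂μ ≤ ENNReal.ofReal (KV v l))
    (m : ℝ) (hm : ∀ (a : ℤ) (w : ℂ), ∫⁻ f : MW, ENNReal.ofReal (‖W 1 f a w‖ ^ 2) ∂μ ≤
      ENNReal.ofReal m) :
    (∀ᵐ f : MW ∂μ, L f < ⊤) ∧ (∀ x : ℂ, ∀ᵐ f : MW ∂μ, L (shift x f) = L f) ∧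
      ∀ c : ℕ, IntegrableOn (fun f : MW => f 0 ^ 4) {f | L f ≤ c} μ := by
  have hg : ∀ p : ℤ, ∫⁻ f, g p f ∂μ ≠ ⊤ := fun p => by
    rw [g_int]
    exact sum_AV hQ p
  have hg0 := ae_lt_top (meas_g 0) (hg 0)
  have hg1 := ae_lt_top (meas_g 1) (hg 1)
  refine ⟨?_, ?_, ?_⟩
  · filter_upwards [hg0, hg1] with f h0 h1
    obtain ⟨a, ha, -⟩ := g_conv 0 f h0
    obtain ⟨b, hb, -⟩ := g_conv 1 f h1
    rw [L_eq f (a + b) (ha.add hb)]
    exact ENNReal.ofReal_lt_top
  · intro x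
    filter_upwards [hg0, hg1, M_ae μ m hm x] with f h0 h1 h2
    obtain ⟨a, ha, -⟩ := g_conv 0 f h0
    obtain ⟨b, hb, -⟩ := g_conv 1 f h1
    have h3 : Tendsto (fun k => Pool.Agent.N136.BRFIN.M k f 0) atTop (𝓝 (a + b)) := ha.add hb
    have h4 : Tendsto (fun k => Pool.Agent.N136.BRFIN.M k (shift x f) 0) atTop (𝓝 (a + b)) := by
      have := h2.add h3
      rw [zero_add] at this
      refine this.congr fun k => ?_
      unfold Pool.Agent.N136.BRFIN.M
      rw [AV_shift, AV_shift]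
      ring
    rw [L_eq f _ h3, L_eq _ _ h4]
  · intro c
    have hA : MeasurableSet {f : MW | L f ≤ c} := measurableSet_le meas_L measurable_const
    have hint : Integrable (fun f : MW => 4 * (g 0 f).toReal + 2 * (c : ℝ) ^ 2)
        (μ.restrict {f : MW | L f ≤ c}) :=
      (((integrable_toReal_of_lintegral_ne_top (meas_g 0).aemeasurable
        (hg 0)).const_mul 4).add (integrable_const _)).restrict
    refine hint.mono' ((meas_eval 0).pow_const 4).aestronglyMeasurable ?_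
    filter_upwards [ae_restrict_mem hA, ae_restrict_of_ae hg0, ae_restrict_of_ae hg1] with f h2 h0 h1
    rw [Real.norm_of_nonneg (by positivity)]
    obtain ⟨a, ha, ha2⟩ := g_conv 0 f h0
    obtain ⟨b, hb, -⟩ := g_conv 1 f h1
    have h2' : L f ≤ c := h2
    rw [L_eq f (a + b) (ha.add hb)] at h2'
    have ha0 : 0 ≤ a := ge_of_tendsto' ha fun k => AV_nonneg _ _ _ _
    have hb0 : 0 ≤ b := ge_of_tendsto' hb fun k => AV_nonneg _ _ _ _
    have hab : a + b ≤ c := by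
      have := (ENNReal.ofReal_le_natCast).1 h2'
      exact this
    rw [AV_one] at ha2
    have hac : a ^ 2 ≤ (c : ℝ) ^ 2 := pow_le_pow_left₀ ha0 (by linarith) 2
    have h5 : f 0 ^ 4 ≤ 2 * (f 0 ^ 2 - a) ^ 2 + 2 * a ^ 2 := by
      nlinarith [sq_nonneg (f 0 ^ 2 - 2 * a)]
    linarith

end Pool.Agent.U26.SG
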