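import Pool.Agent.U26.SG.Good
import Pool.Agent.N661.BR.All

/-!
# Stationary waves with finite variance: exhaustion by invariant events
-/

set_option autoImplicit false
open MeasureTheory Filter Topology ProbabilityTheory
open scoped ENNReal

namespace Pool.Agent.U26.SG

open Pool.Agent.W745.RW (lap dx dy TF W Dp Dm)
open Pool.Agent.N661.BR
open Pool.Agent.N141.BRERG4 (ev ev_meas)
open Pool.Agent.R989.Erg (sh inv inv_le x2 x2_meas sh_meas Fld F_meas law_prob V)
open Pool.Agent.R989.Asm (XW XW_meas AXW AXW_meas pt)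

/-- the parts which remain -/
structure Pts : Prop where
  cpt : S_CPT
  hsc : S_HSC2
  np : S_NP
  nt : S_NT
  xb : S_XB
  fi : S_FI

section

variable {μ : Measure MW} [IsProbabilityMeasure μ]

theorem fm (T : Pts) (hs : IsStationary μ) (i2 : Integrable (fun f : MW => f 0 ^ 2) μ) {c : ℝ}
    (hc : ∀ᵐ f ∂μ, ce μ f ≤ c) : Integrable (fun f : MW => f 0 ^ 4) μ := by
  have hp : IsProbabilityMeasure (μ.map ev) :=
    Measure.isProbabilityMeasure_map ev_meas.aemeasurable
  obtain ⟨t, ht, hg⟩ := good T.cpt T.hsc T.np T.nt hs i2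
  have hg' : ∀ᵐ f ∂μ, ∃ m ≤ c, Good f t m := by
    filter_upwards [hg, hc] with f h1 h2
    exact ⟨_, h2, h1⟩
  obtain ⟨m, ν, hν, hm, hcov⟩ := Pool.Agent.N878.BR.BOCH μ inferInstance hs i2
  have hmc : m ≤ c := by
    have h1 := hcov 0 0
    rw [sub_zero, show cov ν 0 = 1 from Pool.Agent.R989.Asm.cov_zero ν, mul_one] at h1
    have h2 : ∫ f : MW, f 0 * f 0 ∂μ = ∫ f : MW, ce μ f ∂μ := by
      have e1 : ∫ o, ((μ.map ev)[x2 | inv (μ.map ev)]) o ∂(μ.map ev) = ∫ o, x2 o ∂(μ.map ev) :=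
        integral_condExp (inv_le _)
      rw [integral_map ev_meas.aemeasurable x2_meas.aestronglyMeasurable,
        integral_map ev_meas.aemeasurable
          ((stronglyMeasurable_condExp (m := inv (μ.map ev))).mono (inv_le _)).aestronglyMeasurable]
        at e1
      rw [show ∫ f : MW, ce μ f ∂μ = ∫ f, ((μ.map ev)[x2 | inv (μ.map ev)]) (ev f) ∂μ from rfl, e1]
      refine integral_congr_ae (Eventually.of_forall fun f => ?_)
      show f 0 * f 0 = f 0 ^ 2
      ring
    rw [← h1, h2]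
    have hci : Integrable (fun f : MW => ce μ f) μ := by
      have h3 : Integrable ((μ.map ev)[x2 | inv (μ.map ev)]) (μ.map ev) := integrable_condExp
      exact (integrable_map_measure h3.aestronglyMeasurable ev_meas.aemeasurable).1 h3
    have h4 := integral_mono_ae hci (integrable_const c) hc
    simpa using h4
  refine T.fi μ inferInstance hs c t ht hg' (fun a w => ?_) (T.xb μ inferInstance hs c t ht hg')
  exact (allParts.sec μ inferInstance (fun w => sq_int hs i2 w) m ν hν hcov a w).trans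
    (ENNReal.ofReal_le_ofReal hmc)

/-- the integral over an invariant event -/
theorem int_ce (i2 : Integrable (fun f : MW => f 0 ^ 2) μ) {B : Set MW} (hB : MeasurableSet B)
    (hinv : ∀ x : ℂ, shift x ⁻¹' B =ᵐ[μ] B) : ∫ f in B, f 0 ^ 2 ∂μ = ∫ f in B, ce μ f ∂μ := by
  have hp : IsProbabilityMeasure (μ.map ev) :=
    Measure.isProbabilityMeasure_map ev_meas.aemeasurable
  obtain ⟨B', hB', rfl⟩ := hB
  have hB1 : MeasurableSet[inv (μ.map ev)] B' := by
    refine ⟨hB', fun z => ?_⟩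
    have h1 : MeasurableSet {o | (o ∈ sh z ⁻¹' B') = (o ∈ B')} := by
      have e : {o | (o ∈ sh z ⁻¹' B') = (o ∈ B')} =
          (sh z ⁻¹' B' ∩ B') ∪ ((sh z ⁻¹' B')ᶜ ∩ B'ᶜ) := by
        ext o
        simp only [Set.mem_ofPred_eq, eq_iff_iff, Set.mem_union, Set.mem_inter_iff,
          Set.mem_compl_iff]
        tauto
      rw [e]
      exact ((sh_meas z hB').inter hB').union ((sh_meas z hB').compl.inter hB'.compl)
    show ∀ᵐ o ∂(μ.map ev), (o ∈ sh z ⁻¹' B') = (o ∈ B')
    rw [ae_map_iff ev_meas.aemeasurable h1]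
    exact hinv z
  have h2 := setIntegral_condExp (inv_le (μ.map ev)) (x2_int i2) hB1
  rw [setIntegral_map hB' x2_meas.aestronglyMeasurable ev_meas.aemeasurable,
    setIntegral_map hB' ((stronglyMeasurable_condExp (m := inv (μ.map ev))).mono
      (inv_le _)).aestronglyMeasurable ev_meas.aemeasurable] at h2
  exact h2.symm

theorem ce_meas : Measurable (ce μ) := by
  have h : Measurable ((μ.map ev)[x2 | inv (μ.map ev)]) :=
    (stronglyMeasurable_condExp.measurable).mono (inv_le _) le_rfl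
  exact h.comp ev_meas

theorem ce_inv (c : ℝ) (x : ℂ) : shift x ⁻¹' {f | ce μ f ≤ c} =ᵐ[μ] {f | ce μ f ≤ c} := by
  have hcm : Measurable[inv (μ.map ev)] ((μ.map ev)[x2 | inv (μ.map ev)]) :=
    stronglyMeasurable_condExp.measurable
  exact inv_ev (hcm measurableSet_Iic) x

theorem ce_inv' (c : ℝ) (x : ℂ) : shift x ⁻¹' {f | c < ce μ f} =ᵐ[μ] {f | c < ce μ f} := by
  have hcm : Measurable[inv (μ.map ev)] ((μ.map ev)[x2 | inv (μ.map ev)]) :=
    stronglyMeasurable_condExp.measurable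
  exact inv_ev (hcm measurableSet_Ioi) x

theorem ce_int (i2 : Integrable (fun f : MW => f 0 ^ 2) μ) : Integrable (ce μ) μ := by
  have hp : IsProbabilityMeasure (μ.map ev) :=
    Measure.isProbabilityMeasure_map ev_meas.aemeasurable
  have h3 : Integrable ((μ.map ev)[x2 | inv (μ.map ev)]) (μ.map ev) := integrable_condExp
  exact (integrable_map_measure h3.aestronglyMeasurable ev_meas.aemeasurable).1 h3

/-- a bound for the conditional second moment from the bounds on invariant events -/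
theorem ce_le (i2 : Integrable (fun f : MW => f 0 ^ 2) μ) {c : ℝ}
    (h : ∀ B : Set MW, MeasurableSet B → (∀ x : ℂ, shift x ⁻¹' B =ᵐ[μ] B) →
      ∫ f in B, f 0 ^ 2 ∂μ ≤ c * μ.real B) : ∀ᵐ f ∂μ, ce μ f ≤ c := by
  set B : Set MW := {f | c < ce μ f} with hB
  have hBm : MeasurableSet B := measurableSet_lt measurable_const ce_meas
  have h1 := h B hBm (ce_inv' c)
  rw [int_ce i2 hBm (ce_inv' c)] at h1
  have h2 : ∫ f in B, (ce μ f - c) ∂μ ≤ 0 := by
    rw [integral_sub (ce_int i2).integrableOn (integrable_const c), setIntegral_const, smul_eq_mul]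
    linarith
  have h3 : ∀ᵐ f ∂(μ.restrict B), 0 < ce μ f - c := by
    filter_upwards [ae_restrict_mem hBm] with f hf
    exact sub_pos.2 hf
  have h4 : 0 ≤ ∫ f in B, (ce μ f - c) ∂μ := integral_nonneg_of_ae (h3.mono fun f hf => hf.le)
  have h5 := (integral_eq_zero_iff_of_nonneg_ae (h3.mono fun f hf => hf.le)
    (((ce_int i2).integrableOn).sub (integrable_const c))).1 (le_antisymm h2 h4)
  have h6 : ∀ᵐ f ∂(μ.restrict B), False := by
    filter_upwards [h3, h5] with f h7 h8
    have : ce μ f - c = 0 := h8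
    linarith
  have h7 : μ.restrict B = 0 := by
    rw [← ae_eq_bot]
    exact eventually_false_iff_eq_bot.1 h6
  rw [Measure.restrict_eq_zero] at h7
  have h8 : ∀ᵐ f ∂μ, f ∉ B := measure_eq_zero_iff_ae_notMem.1 h7
  filter_upwards [h8] with f hf
  exact not_lt.1 hf

/-- the fourth moment is finite on `{ce ≤ c}` -/
theorem fm_on (T : Pts) (hs : IsStationary μ) (i2 : Integrable (fun f : MW => f 0 ^ 2) μ) (c : ℝ) :
    IntegrableOn (fun f : MW => f 0 ^ 4) {f | ce μ f ≤ c} μ := by
  set A : Set MW := {f | ce μ f ≤ c} with hA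
  have hAm : MeasurableSet A := measurableSet_le ce_meas measurable_const
  by_cases h0 : μ A = 0
  · rw [IntegrableOn, Measure.restrict_eq_zero.2 h0]
    exact integrable_zero_measure
  have hpA : IsProbabilityMeasure (cond μ A) := cond_isProbabilityMeasure h0
  have hsA : IsStationary (cond μ A) := cond_stat hs hAm (ce_inv c)
  have i2A : Integrable (fun f : MW => f 0 ^ 2) (cond μ A) := int_cond i2 h0
  have key : ∀ᵐ f ∂(cond μ A), ce (cond μ A) f ≤ c := by
    refine ce_le i2A fun B hB hinv => ?_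
    have hAB : ∀ x : ℂ, shift x ⁻¹' (A ∩ B) =ᵐ[μ] (A ∩ B : Set MW) := by
      intro x
      have h1 := ce_inv (μ := μ) c x
      have h2 := hinv x
      have h3 : ∀ᵐ f ∂μ, f ∈ A → (f ∈ shift x ⁻¹' B) = (f ∈ B) := by
        have h4 : ∀ᵐ f ∂(μ.restrict A), (f ∈ shift x ⁻¹' B) = (f ∈ B) := by
          have h5 : (cond μ A) = (μ A)⁻¹ • μ.restrict A := rfl
          have h6 : ∀ᵐ f ∂(cond μ A), (f ∈ shift x ⁻¹' B) = (f ∈ B) := h2
          rw [h5, Measure.ae_ennreal_smul_measure_iff] at h6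
          · exact h6
          · exact ENNReal.inv_ne_zero.2 (measure_ne_top _ _)
        rwa [ae_restrict_iff' hAm] at h4
      filter_upwards [h1, h3] with f h4 h5
      have h6 : (f ∈ shift x ⁻¹' A) = (f ∈ A) := h4
      show (f ∈ shift x ⁻¹' A ∧ f ∈ shift x ⁻¹' B) = (f ∈ A ∧ f ∈ B)
      rw [h6]
      by_cases hfA : f ∈ A
      · rw [h5 hfA]
      · simp [hfA]
    have h1 : ∫ f in A ∩ B, f 0 ^ 2 ∂μ ≤ c * μ.real (A ∩ B) := by
      rw [int_ce i2 (hAm.inter hB) hAB]
      have h2 := setIntegral_mono_on (ce_int i2).integrableOn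
        (integrable_const (μ := μ.restrict (A ∩ B)) c) (hAm.inter hB) (fun f hf => hf.1)
      rw [setIntegral_const, smul_eq_mul] at h2
      linarith
    have h2 : (cond μ A).real B = (μ.real A)⁻¹ * μ.real (A ∩ B) := by
      rw [measureReal_def, cond_apply hAm, ENNReal.toReal_mul, ENNReal.toReal_inv]
      rfl
    have h3 : ∫ f in B, f 0 ^ 2 ∂(cond μ A) = (μ.real A)⁻¹ * ∫ f in A ∩ B, f 0 ^ 2 ∂μ := by
      have h4 : (cond μ A).restrict B = (μ A)⁻¹ • μ.restrict (A ∩ B) := by
        rw [ProbabilityTheory.cond, Measure.restrict_smul, Measure.restrict_restrict hB,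
          Set.inter_comm]
      rw [h4, integral_smul_measure, ENNReal.toReal_inv, smul_eq_mul]
      rfl
    rw [h2, h3]
    have h5 : 0 ≤ (μ.real A)⁻¹ := inv_nonneg.2 measureReal_nonneg
    calc (μ.real A)⁻¹ * ∫ f in A ∩ B, f 0 ^ 2 ∂μ ≤ (μ.real A)⁻¹ * (c * μ.real (A ∩ B)) :=
          mul_le_mul_of_nonneg_left h1 h5
      _ = c * ((μ.real A)⁻¹ * μ.real (A ∩ B)) := by ring
  have h4 := fm T hsA i2A key
  have h5 : (cond μ A) = (μ A)⁻¹ • μ.restrict A := rfl
  rw [h5, integrable_smul_measure (ENNReal.inv_ne_zero.2 (measure_ne_top _ _))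
    (ENNReal.inv_ne_top.2 h0)] at h4
  exact h4

end

end Pool.Agent.U26.SG
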