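import Pool.Agent.U26.SG.Path2

/-!
# Sample paths: the properties which are used
-/

set_option autoImplicit false
open MeasureTheory Filter Topology ProbabilityTheory
open scoped ENNReal

namespace Pool.Agent.U26.SG

open Pool.Agent.W745.RW (lap dx dy TF W Dp Dm)
open Pool.Agent.N661.BR
open Pool.Agent.N141.BRERG4 (ev ev_meas)
open Pool.Agent.R989.Erg (sh inv inv_le x2 Fld F_meas law_prob V)
open Pool.Agent.R989.Asm (XW XW_meas AXW AXW_meas pt)

theorem pt_dense : DenseRange pt := by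
  have h1 : DenseRange (Prod.map ((↑) : ℚ → ℝ) ((↑) : ℚ → ℝ)) :=
    Rat.denseRange_cast.prodMap Rat.denseRange_cast
  have h2 : DenseRange (Complex.equivRealProdCLM.symm : ℝ × ℝ → ℂ) :=
    Complex.equivRealProdCLM.symm.surjective.denseRange
  have h3 := h2.comp h1 Complex.equivRealProdCLM.symm.continuous
  have e : (Complex.equivRealProdCLM.symm : ℝ × ℝ → ℂ) ∘
      (Prod.map ((↑) : ℚ → ℝ) ((↑) : ℚ → ℝ)) = pt := by
    funext a
    apply Complex.ext
    · simp [pt]
    · simp [pt]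
  rwa [e] at h3

theorem eq_zero_of_pt {f : MW} (h : ∀ a, f (pt a) = 0) (z : ℂ) : f z = 0 := by
  have h1 : f.1 = fun _ => 0 := pt_dense.equalizer f.2.1.continuous continuous_const (funext h)
  exact congrFun h1 z

theorem W_of_zero {f : MW} (h : ∀ z, f z = 0) (a : ℤ) (z : ℂ) : W 1 f a z = 0 := by
  have hf : (fun z : ℂ => ((f.1 z : ℝ) : ℂ)) = fun _ => 0 := by
    funext z
    rw [show f.1 z = 0 from h z, Complex.ofReal_zero]
  have h1 : ∀ k : ℕ, (Dp 1)^[k] (fun _ : ℂ => (0 : ℂ)) = fun _ => 0 := by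
    intro k
    induction k with
    | zero => rfl
    | succ k ih =>
      rw [Function.iterate_succ_apply', ih]
      funext z
      simp [Dp, dx, dy]
  have h2 : ∀ k : ℕ, (Dm 1)^[k] (fun _ : ℂ => (0 : ℂ)) = fun _ => 0 := by
    intro k
    induction k with
    | zero => rfl
    | succ k ih =>
      rw [Function.iterate_succ_apply', ih]
      funext z
      simp [Dm, dx, dy]
  cases a with
  | ofNat k =>
    show (Dp 1)^[k] (fun z : ℂ => ((f.1 z : ℝ) : ℂ)) z = 0
    rw [hf, h1]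
  | negSucc k =>
    show (-1) ^ (k + 1) * (Dm 1)^[k + 1] (fun z : ℂ => ((f.1 z : ℝ) : ℂ)) z = 0
    rw [hf, h2, mul_zero]

section

variable {μ : Measure MW}

/-- the conditional second moment -/
noncomputable def ce (μ : Measure MW) (f : MW) : ℝ := ((μ.map ev)[x2 | inv (μ.map ev)]) (ev f)

theorem x2_int (i2 : Integrable (fun f : MW => f 0 ^ 2) μ) : Integrable x2 (μ.map ev) := by
  rw [integrable_map_measure Pool.Agent.R989.Erg.x2_meas.aestronglyMeasurable ev_meas.aemeasurable]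
  exact i2

theorem ce_nonneg : ∀ᵐ f ∂μ, 0 ≤ ce μ f := by
  have h1 : ∀ᵐ o ∂(μ.map ev), 0 ≤ ((μ.map ev)[x2 | inv (μ.map ev)]) o :=
    condExp_nonneg (Eventually.of_forall fun o => sq_nonneg _)
  exact ae_of_ae_map ev_meas.aemeasurable h1

variable [IsProbabilityMeasure μ]

theorem ce_zero (hs : IsStationary μ) (i2 : Integrable (fun f : MW => f 0 ^ 2) μ) :
    ∀ᵐ f ∂μ, ce μ f ≤ 0 → ∀ z, f z = 0 := by
  have hp : IsProbabilityMeasure (μ.map ev) :=
    Measure.isProbabilityMeasure_map ev_meas.aemeasurable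
  set ν0 := μ.map ev with hν0
  set A : Set (ℂ → ℝ) := {o | (ν0[x2 | inv ν0]) o ≤ 0} with hA
  have hcm : Measurable[inv ν0] (ν0[x2 | inv ν0]) := stronglyMeasurable_condExp.measurable
  have hAi : MeasurableSet[inv ν0] A := hcm measurableSet_Iic
  have hAm : MeasurableSet A := inv_le ν0 _ hAi
  have h1 : ∫ o in A, x2 o ∂ν0 ≤ 0 := by
    rw [← setIntegral_condExp (inv_le ν0) (x2_int i2) hAi]
    exact setIntegral_nonpos hAm fun o ho => ho
  have h2 : ∀ᵐ o ∂(ν0.restrict A), x2 o = 0 := by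
    have h3 : 0 ≤ ∫ o in A, x2 o ∂ν0 := integral_nonneg fun o => sq_nonneg _
    have h4 := (integral_eq_zero_iff_of_nonneg (μ := ν0.restrict A) (f := x2)
      (fun o : ℂ → ℝ => sq_nonneg (o 0)) ((x2_int i2).restrict (s := A))).1 (le_antisymm h1 h3)
    exact h4
  rw [ae_restrict_iff' hAm] at h2
  have h5 : ∀ᵐ f ∂μ, ev f ∈ A → f 0 = 0 := by
    have h6 := ae_of_ae_map ev_meas.aemeasurable h2
    filter_upwards [h6] with f hf hfA
    exact pow_eq_zero_iff (two_ne_zero) |>.1 (hf hfA)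
  have h7 : ∀ a : ℚ × ℚ, ∀ᵐ f ∂μ, ev f ∈ A → f (pt a) = 0 := by
    intro a
    have hmp : MeasurePreserving (shift (pt a)) μ μ := ⟨meas_shift _, hs _⟩
    have h8 := hmp.quasiMeasurePreserving.ae h5
    have h9 := inv_ev hAi (pt a)
    filter_upwards [h8, h9] with f hf1 hf2 hfA
    have h10 : ev (shift (pt a) f) ∈ A := by
      have : (f ∈ shift (pt a) ⁻¹' (ev ⁻¹' A)) = (f ∈ ev ⁻¹' A) := hf2
      exact this ▸ hfA
    have h11 := hf1 h10
    have h12 : shift (pt a) f 0 = f (0 + pt a) := rfl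
    rwa [h12, zero_add] at h11
  filter_upwards [ae_all_iff.2 h7] with f hf hce z
  exact eq_zero_of_pt (fun a => hf a hce) z

theorem good (hCPT : S_CPT) (hH : S_HSC2) (hNP : S_NP) (hNT : S_NT) (hs : IsStationary μ)
    (i2 : Integrable (fun f : MW => f 0 ^ 2) μ) :
    ∃ t : ℕ → ℝ, (∀ n, 0 < t n) ∧ ∀ᵐ f ∂μ, Good f t (ce μ f) := by
  obtain ⟨t, ht, hd⟩ := path_dat hCPT hs i2
  refine ⟨t, ht, ?_⟩
  filter_upwards [hd, ce_nonneg (μ := μ), ce_zero hs i2] with f h1 h2 h3
  obtain ⟨ν, hν, D⟩ := h1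
  change Dat2 f t (ce μ f) ν at D
  by_cases h0 : ce μ f ≤ 0
  · have h4 := h3 h0
    have e0 : ce μ f = 0 := le_antisymm h0 h2
    have e1 : ∀ n a z, UF f t n a z = 0 := fun n a z => W_of_zero h4 a _
    refine ⟨h2, fun φ _ a => ?_, fun φ hφ hφ0 p J ε hε => ?_⟩
    · simp only [e1, e0, norm_zero]
      simp
    · refine Eventually.of_forall fun n => ?_
      simp only [e1, e0, norm_zero]
      simp
      exact hε.le
  · push Not at h0
    set m := ce μ f with hm
    have hsn := hH f t m ν hν D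
    have hq := hNP f t m (fun k => (m : ℂ) * ∫ α, Pool.Agent.Y265.RW.sy α ^ k
      ∂(Pool.Agent.R989.Det.sm ν)) h0 D.tp D.tl (by simp) (fun φ hφ k => by
        have h4 := hsn φ hφ k
        rw [mul_comm] at h4
        exact h4)
    obtain ⟨κ, Q, hK, hF, hU, hP⟩ := hq
    have hmm : ∀ n a z, ‖((1 / √m : ℝ) : ℂ) * UF f t n a z‖ ^ 2 = 1 / m * ‖UF f t n a z‖ ^ 2 := by
      intro n a z
      rw [norm_mul, mul_pow, Complex.norm_real, Real.norm_of_nonneg (by positivity), div_pow,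
        Real.sq_sqrt h0.le, one_pow]
    refine ⟨h2, fun φ hφ a => ?_, fun φ hφ hφ0 p J ε hε => ?_⟩
    · have h4 := (hU φ hφ a).const_mul m
      refine h4.congr fun n => ?_
      rw [← integral_const_mul]
      refine integral_congr_ae (Eventually.of_forall fun z => ?_)
      simp only [hmm]
      field_simp
    · have hh : Tendsto (fun n => 1 / t n) atTop (𝓝 0) := by
        simp only [one_div]
        exact D.tl.inv_tendsto_atTop
      have h4 := hNT _ _ κ Q (fun n => one_div_pos.2 (D.tp n)) hh hF hU hP hK φ hφ hφ0 p J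
        (ε / m ^ 2) (by positivity)
      filter_upwards [h4] with n hn
      simp only [hmm] at hn
      have e2 : ∫ z, φ z * (‖UF f t n (2 * (J : ℤ) + p) z‖ ^ 2 - ‖UF f t n p z‖ ^ 2) ^ 2 =
          m ^ 2 * ∫ z, φ z * (1 / m * ‖UF f t n (2 * (J : ℤ) + p) z‖ ^ 2 -
            1 / m * ‖UF f t n p z‖ ^ 2) ^ 2 := by
        rw [← integral_const_mul]
        refine integral_congr_ae (Eventually.of_forall fun z => ?_)
        simp only
        field_simp
      rw [e2]
      have h5 := mul_le_mul_of_nonneg_left hn (sq_nonneg m)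
      have e3 : m ^ 2 * (4 * (∫ z, φ z) + ε / m ^ 2) = 4 * m ^ 2 * (∫ z, φ z) + ε := by
        field_simp
      rwa [e3] at h5

end

end Pool.Agent.U26.SG
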