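import Pool.Agent.U26.SG.Fin5

/-!
# The conditional kurtosis of the linear functionals of stationary waves with finite variance
-/

set_option autoImplicit false
open MeasureTheory Filter Topology ProbabilityTheory
open scoped ENNReal

namespace Pool.Agent.U26.SG

open Pool.Agent.N661.BR
open Pool.Agent.U26.SB

section

variable {μ : Measure MW} {k : ℕ} (w : Fin k → ℂ) (t : Fin k → ℝ)

theorem ml2 (hs : IsStationary μ) (h2 : Integrable (fun f : MW => f 0 ^ 2) μ) (w : ℂ) :
    MemLp (fun f : MW => f w) 2 μ := by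
  have h1 : Integrable (fun f : MW => f w ^ 2) μ := by
    have h1 : MeasurePreserving (shift w) μ μ := ⟨meas_shift w, hs w⟩
    have h2 := h1.integrable_comp_of_integrable h2
    refine h2.congr (Eventually.of_forall fun f => ?_)
    show (f (0 + w)) ^ 2 = f w ^ 2
    rw [zero_add]
  exact (memLp_two_iff_integrable_sq (meas_eval w).aestronglyMeasurable).2 h1

theorem lin_i2 (hs : IsStationary μ) (h2 : Integrable (fun f : MW => f 0 ^ 2) μ) :
    Integrable (fun f => lin w t f ^ 2) μ := by
  have h1 := memLp_finsetSum (μ := μ) (p := 2) Finset.univ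
    (f := fun j (f : MW) => t j * f (w j)) fun j _ => (ml2 hs h2 (w j)).const_mul (t j)
  exact (memLp_two_iff_integrable_sq (lin_meas w t).aestronglyMeasurable).1 h1

theorem pre_inv {ρ : Measure MW} {C : Set MW} (hC : MeasurableSet[Inv (ρ.map (lwave w t))] C) :
    MeasurableSet[Inv ρ] (lwave w t ⁻¹' C) := by
  refine ⟨lwave_meas w t hC.1, fun x => ?_⟩
  have h1 : ∀ᵐ f ∂(ρ.map (lwave w t)), (f ∈ shift x ⁻¹' C) = (f ∈ C) := hC.2 x
  have h2 := ae_of_ae_map (lwave_meas w t).aemeasurable h1
  filter_upwards [h2] with f hf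
  show (lwave w t (shift x f) ∈ C) = (lwave w t f ∈ C)
  rw [lwave_shift]
  exact hf

theorem sq_eLp {α : Type*} [MeasurableSpace α] {ρ : Measure α} (g : α → ℝ) :
    ∫⁻ f, ENNReal.ofReal (g f ^ 2) ∂ρ = eLpNorm g 2 ρ ^ (2 : ℝ) := by
  have h := eLpNorm_nnreal_pow_eq_lintegral (μ := ρ) (f := g) (p := 2) (by norm_num)
  have e : ((2 : NNReal) : ℝ≥0∞) = 2 := by norm_num
  rw [e] at h
  have e2 : ((2 : NNReal) : ℝ) = 2 := by norm_num
  rw [e2] at h
  rw [h]
  refine lintegral_congr fun f => ?_
  rw [Real.enorm_eq_ofReal_abs, ENNReal.ofReal_rpow_of_nonneg (abs_nonneg _) (by norm_num)]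
  congr 1
  rw [Real.rpow_two, sq_abs]

variable [IsProbabilityMeasure μ]

theorem cnd_ce {X : MW → ℝ} (hX : Integrable X μ) {A : Set MW} (hA : MeasurableSet[Inv μ] A)
    (h0 : μ A ≠ 0) : (cond μ A)[X | Inv (cond μ A)] =ᵐ[cond μ A] μ[X | Inv μ] := by
  have hp : IsProbabilityMeasure (cond μ A) := cond_isProbabilityMeasure h0
  have iX : Integrable X (cond μ A) := int_cond hX h0
  symm
  refine ae_eq_condExp_of_forall_setIntegral_eq (Inv_le _) iX
    (fun _ _ _ => (int_cond integrable_condExp h0).integrableOn) (fun B hB _ => ?_) ?_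
  · rw [int_cnd hB.1, int_cnd hB.1, setIntegral_condExp (Inv_le μ) hX (inv_inter hA hB)]
  · have hm : Measurable[Inv μ] (μ[X | Inv μ]) := stronglyMeasurable_condExp.measurable
    have hm2 : Measurable[Inv (cond μ A)] (μ[X | Inv μ]) := by
      intro S hS
      have h1 := hm hS
      exact ⟨h1.1, fun x => cond_absolutelyContinuous.ae_le (h1.2 x)⟩
    exact hm2.stronglyMeasurable.aestronglyMeasurable

theorem lin_kur (hs : IsStationary μ) (i2 : Integrable (fun f : MW => f 0 ^ 2) μ) {B : Set MW}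
    (hB : MeasurableSet[Inv μ] B) :
    ∫⁻ f in B, ENNReal.ofReal (lin w t f ^ 4) ∂μ ≤
      3 * ∫⁻ f in B, ENNReal.ofReal ((μ[fun f : MW => lin w t f ^ 2 | Inv μ]) f ^ 2) ∂μ := by
  by_cases h0 : μ B = 0
  · rw [Measure.restrict_eq_zero.2 h0, lintegral_zero_measure]
    exact zero_le
  have hp : IsProbabilityMeasure (cond μ B) := cond_isProbabilityMeasure h0
  have hsρ : IsStationary (cond μ B) := cond_stat hs hB.1 hB.2
  have l2 := lin_i2 w t hs i2
  have hce := cnd_ce l2 hB h0
  have hcd : ∀ F : MW → ℝ≥0∞, ∫⁻ f, F f ∂(cond μ B) = (μ B)⁻¹ * ∫⁻ f in B, F f ∂μ := by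
    intro F
    rw [ProbabilityTheory.cond, lintegral_smul_measure, smul_eq_mul]
  have l2ρ : Integrable (fun f => lin w t f ^ 2) (cond μ B) := int_cond l2 h0
  have i2ρ : Integrable (fun f : MW => f 0 ^ 2) (cond μ B) := int_cond i2 h0
  have key : ∫⁻ f, ENNReal.ofReal (lin w t f ^ 4) ∂(cond μ B) ≤
      3 * ∫⁻ f, ENNReal.ofReal (((cond μ B)[fun f : MW => lin w t f ^ 2 | Inv (cond μ B)]) f ^ 2)
        ∂(cond μ B) := by
    generalize cond μ B = ρ at hp hsρ l2ρ i2ρ
    have hm := lwave_meas w t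
    have hpν : IsProbabilityMeasure (ρ.map (lwave w t)) :=
      Measure.isProbabilityMeasure_map hm.aemeasurable
    have hsν : IsStationary (ρ.map (lwave w t)) := lwave_stat w t hsρ
    have j2 : Integrable (fun f : MW => f 0 ^ 2) (ρ.map (lwave w t)) := by
      rw [integrable_map_measure ((meas_eval 0).pow_const 2).aestronglyMeasurable hm.aemeasurable]
      refine l2ρ.congr (Eventually.of_forall fun f => ?_)
      show lin w t f ^ 2 = lwave w t f 0 ^ 2
      rw [lwave_zero]
    have h1 := st_kur hsν j2 (B := Set.univ) (@MeasurableSet.univ _ (Inv (ρ.map (lwave w t))))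
    rw [Measure.restrict_univ] at h1
    have hh : StronglyMeasurable[Inv (ρ.map (lwave w t))]
        ((ρ.map (lwave w t))[fun f : MW => f 0 ^ 2 | Inv (ρ.map (lwave w t))]) :=
      stronglyMeasurable_condExp
    have hhm := (hh.mono (Inv_le _)).measurable
    rw [lintegral_map ((meas_eval 0).pow_const 4).ennreal_ofReal hm,
      lintegral_map (hhm.pow_const 2).ennreal_ofReal hm] at h1
    have e1 : ∀ f, lwave w t f 0 = lin w t f := fun f => lwave_zero w t f
    simp only [e1] at h1
    refine h1.trans (mul_le_mul_right ?_ 3)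
    have hm1 : (Inv (ρ.map (lwave w t))).comap (lwave w t) ≤ Inv ρ := by
      rintro _ ⟨C, hC, rfl⟩
      exact pre_inv w t hC
    have e3 : (fun f => ((ρ.map (lwave w t))[fun f : MW => f 0 ^ 2 | Inv (ρ.map (lwave w t))])
        (lwave w t f)) =ᵐ[ρ]
        ρ[fun f => lin w t f ^ 2 | (Inv (ρ.map (lwave w t))).comap (lwave w t)] := by
      have hint : Integrable (fun f => ((ρ.map (lwave w t))[fun f : MW => f 0 ^ 2 |
          Inv (ρ.map (lwave w t))]) (lwave w t f)) ρ :=
        (integrable_map_measure hhm.aestronglyMeasurable hm.aemeasurable).1 integrable_condExp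
      refine ae_eq_condExp_of_forall_setIntegral_eq (hm1.trans (Inv_le ρ)) l2ρ
        (fun _ _ _ => hint.integrableOn) ?_ ?_
      · rintro _ ⟨C, hC, rfl⟩ _
        have h3 := setIntegral_condExp (Inv_le (ρ.map (lwave w t))) j2 hC
        rw [setIntegral_map hC.1 hhm.aestronglyMeasurable hm.aemeasurable,
          setIntegral_map hC.1 ((meas_eval 0).pow_const 2).aestronglyMeasurable
            hm.aemeasurable] at h3
        simp only [e1] at h3
        exact h3
      · exact (hh.comp_measurable (comap_measurable (lwave w t))).aestronglyMeasurable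
    have e4 := condExp_condExp_of_le (μ := ρ) (f := fun f => lin w t f ^ 2) hm1 (Inv_le ρ)
    have e5 := eLpNorm_condExp_le_eLpNorm (μ := ρ)
      (m := (Inv (ρ.map (lwave w t))).comap (lwave w t))
      (ρ[fun f => lin w t f ^ 2 | Inv ρ]) (p := 2) (by norm_num)
    have e6 := eLpNorm_congr_ae (p := 2) (e3.trans e4.symm)
    rw [sq_eLp, sq_eLp, e6]
    exact ENNReal.rpow_le_rpow e5 (by norm_num)
  rw [hcd, hcd] at key
  have h5 : ∫⁻ f in B, ENNReal.ofReal
      (((cond μ B)[fun f : MW => lin w t f ^ 2 | Inv (cond μ B)]) f ^ 2) ∂μ =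
      ∫⁻ f in B, ENNReal.ofReal ((μ[fun f : MW => lin w t f ^ 2 | Inv μ]) f ^ 2) ∂μ := by
    refine lintegral_congr_ae ?_
    have h6 : μ.restrict B ≪ cond μ B := by
      rw [ProbabilityTheory.cond]
      exact Measure.absolutelyContinuous_smul (ENNReal.inv_ne_zero.2 (measure_ne_top _ _))
    filter_upwards [h6.ae_le hce] with f hf
    rw [hf]
  rw [h5] at key
  rw [mul_left_comm] at key
  exact (ENNReal.mul_le_mul_iff_right (ENNReal.inv_ne_zero.2 (measure_ne_top _ _))
    (ENNReal.inv_ne_top.2 h0)).1 key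

end

end Pool.Agent.U26.SG
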