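import Pool.Agent.U26.SG.Kur2
import Pool.Agent.N661.BR.Fin4

/-!
# Ergodic stationary waves with finite variance
-/

set_option autoImplicit false
open MeasureTheory Filter Topology ProbabilityTheory
open scoped ENNReal

namespace Pool.Agent.U26.SG

open Pool.Agent.N661.BR
open Pool.Agent.U26.SB

section

variable {μ : Measure MW} [IsProbabilityMeasure μ]

theorem par_le (ν : Measure ℝ) [IsProbabilityMeasure ν] : parallel ν ≤ 1 := by
  unfold parallel
  exact measureReal_le_one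

theorem lin_four2 {k : ℕ} (hs : IsStationary μ) (he : IsErgodic μ)
    (h4 : Integrable (fun f : MW => f 0 ^ 4) μ) (w : Fin k → ℂ) (t : Fin k → ℝ) :
    3 / 2 * (∫ f, lin w t f ^ 2 ∂μ) ^ 2 ≤ ∫ f, lin w t f ^ 4 ∂μ := by
  have hm := lwave_meas w t
  have hp : IsProbabilityMeasure (μ.map (lwave w t)) :=
    Measure.isProbabilityMeasure_map hm.aemeasurable
  have hs' := lwave_stat w t hs
  have he' := lwave_erg w t he
  have i4 : Integrable (fun f : MW => f 0 ^ 4) (μ.map (lwave w t)) := by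
    rw [integrable_map_measure ((meas_eval 0).pow_const 4).aestronglyMeasurable hm.aemeasurable]
    refine (lin_i4 hs h4 w t).congr (Eventually.of_forall fun f => ?_)
    show lin w t f ^ 4 = lwave w t f 0 ^ 4
    rw [lwave_zero]
  have i2 : Integrable (fun f : MW => f 0 ^ 2) (μ.map (lwave w t)) :=
    pow_int (meas_eval 0) i4 (by norm_num)
  obtain ⟨m, ν, hν, -, hcov⟩ := Pool.Agent.N878.BR.BOCH _ hp hs' i2
  have e4 := Pool.Agent.N141.BRERG4.ERG4 _ hp hs' he' i4 m ν hν hcov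
  have e2 := hcov 0 0
  rw [sub_zero, cov_zero, mul_one] at e2
  rw [integral_map hm.aemeasurable ((meas_eval 0).pow_const 4).aestronglyMeasurable] at e4
  have hm2 : Measurable (fun f : MW => f 0 * f 0) := (meas_eval 0).mul (meas_eval 0)
  rw [integral_map hm.aemeasurable hm2.aestronglyMeasurable] at e2
  have a4 : ∫ f, lin w t f ^ 4 ∂μ = m ^ 2 * (3 - 3 / 2 * parallel ν) := by
    rw [← e4]
    exact integral_congr_ae (Eventually.of_forall fun f => by simp only [lwave_zero])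
  have a2 : ∫ f, lin w t f ^ 2 ∂μ = m := by
    rw [← e2]
    exact integral_congr_ae (Eventually.of_forall fun f => by simp only [lwave_zero, sq])
  have hpar : parallel ν ≤ 1 := par_le ν
  rw [a4, a2]
  nlinarith [mul_nonneg (sq_nonneg m) (sub_nonneg.2 hpar)]

/-- the linear functionals -/
theorem erg_lin (hs : IsStationary μ) (he : IsErgodic μ)
    (i2 : Integrable (fun f : MW => f 0 ^ 2) μ) (k : ℕ) (w : Fin k → ℂ) (t : Fin k → ℝ) :
    Integrable (fun f => lin w t f ^ 4) μ ∧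
      3 / 2 * (∫ f, lin w t f ^ 2 ∂μ) ^ 2 ≤ ∫ f, lin w t f ^ 4 ∂μ ∧
      ∫ f, lin w t f ^ 4 ∂μ ≤ 3 * (∫ f, lin w t f ^ 2 ∂μ) ^ 2 := by
  have i4 := (erg_kur hs he i2).1
  exact ⟨lin_i4 hs i4 w t, lin_four2 hs he i4 w t, lin_four hs he i4 w t⟩

/-- the four point functions -/
theorem erg_four4 (hs : IsStationary μ) (he : IsErgodic μ)
    (i2 : Integrable (fun f : MW => f 0 ^ 2) μ) (m : ℝ) (ν : Measure ℝ)
    (hν : IsProbabilityMeasure ν)
    (hcov : ∀ w w' : ℂ, ∫ f : MW, f w * f w' ∂μ = m * cov ν (w - w')) :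
    ∫ f : MW, f 0 ^ 4 ∂μ = m ^ 2 * (3 - 3 / 2 * parallel ν) ∧
      (parallel ν = 0 → Gau4 μ ∧ (IsInfinitelyDivisible μ → IsGaussianLaw μ)) := by
  have i4 := (erg_kur hs he i2).1
  refine ⟨Pool.Agent.N141.BRERG4.ERG4 _ inferInstance hs he i4 m ν hν hcov, fun hp => ?_⟩
  obtain ⟨h1, h2⟩ := allParts.erg μ inferInstance hs he i4 m ν hν hcov hp
  exact ⟨gau4_of h1 h2 hs hν hp, gauss_law h1 h2⟩

end

end Pool.Agent.U26.SG
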