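import Pool.Agent.U26.SG.Kur3
import Pool.Agent.U26.SG.Pt2

/-!
# Fourth moments of eigenfunctions of planar domains
-/

set_option autoImplicit false
open MeasureTheory Filter Topology ProbabilityTheory
open scoped ENNReal ContDiff BoundedContinuousFunction

namespace Pool.Agent.U26.SG

open Pool.Agent.W745.RW (lap)
open Pool.Agent.N661.BR
open Pool.Agent.U26.SB

section

variable {μ : Measure MW} [IsProbabilityMeasure μ]

theorem inv_int (hs : IsStationary μ) {B : Set MW} (hB : MeasurableSet[Inv μ] B) (x : ℂ) :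
    ∫ f in B, (f : ℂ → ℝ) x ^ 2 ∂μ = ∫ f in B, (f : ℂ → ℝ) 0 ^ 2 ∂μ := by
  have h1 : ∫ f in B, (f : ℂ → ℝ) 0 ^ 2 ∂(μ.map (shift x)) =
      ∫ f in shift x ⁻¹' B, (shift x f : ℂ → ℝ) 0 ^ 2 ∂μ :=
    setIntegral_map hB.1 ((meas_eval 0).pow_const 2).aestronglyMeasurable
      (meas_shift x).aemeasurable
  rw [hs x] at h1
  rw [h1, setIntegral_congr_set (hB.2 x)]
  refine integral_congr_ae (Eventually.of_forall fun f => ?_)
  show (f : ℂ → ℝ) x ^ 2 = (f : ℂ → ℝ) (0 + x) ^ 2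
  rw [zero_add]

theorem kur_avg (hs : IsStationary μ) (i2 : Integrable (fun f : MW => f 0 ^ 2) μ) {N : ℕ}
    (x : Fin N → ℂ) (p : Fin N → ℝ) (hp : ∑ i, p i = 1) :
    ∫⁻ f : MW, ENNReal.ofReal (f 0 ^ 4) ∂μ ≤
      3 * ∫⁻ f : MW, ENNReal.ofReal ((∑ i, p i * f (x i) ^ 2) ^ 2) ∂μ := by
  have h1 := st_kur hs i2 (B := Set.univ) (@MeasurableSet.univ _ (Inv μ))
  rw [Measure.restrict_univ] at h1
  refine h1.trans (mul_le_mul_right ?_ 3)
  have ix : ∀ y : ℂ, Integrable (fun f : MW => f y ^ 2) μ := fun y =>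
    (memLp_two_iff_integrable_sq (meas_eval y).aestronglyMeasurable).1 (ml2 hs i2 y)
  have iY : Integrable (fun f : MW => ∑ i, p i * f (x i) ^ 2) μ :=
    integrable_finsetSum _ fun i _ => (ix (x i)).const_mul (p i)
  have e : μ[fun f : MW => f 0 ^ 2 | Inv μ] =ᵐ[μ]
      μ[fun f : MW => ∑ i, p i * f (x i) ^ 2 | Inv μ] := by
    refine ae_eq_condExp_of_forall_setIntegral_eq (Inv_le μ) iY
      (fun _ _ _ => integrable_condExp.integrableOn) (fun B hB _ => ?_)
      stronglyMeasurable_condExp.aestronglyMeasurable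
    rw [setIntegral_condExp (Inv_le μ) i2 hB,
      integral_finsetSum _ fun i _ => ((ix (x i)).const_mul (p i)).integrableOn]
    have h2 : ∀ i, ∫ f in B, p i * (f : ℂ → ℝ) (x i) ^ 2 ∂μ =
        p i * ∫ f in B, (f : ℂ → ℝ) 0 ^ 2 ∂μ := fun i => by
      rw [integral_const_mul, inv_int hs hB (x i)]
    rw [Finset.sum_congr rfl fun i _ => h2 i, ← Finset.sum_mul, hp, one_mul]
  rw [sq_eLp, sq_eLp, eLpNorm_congr_ae e]
  exact ENNReal.rpow_le_rpow (eLpNorm_condExp_le_eLpNorm _ (by norm_num)) (by norm_num)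

end

section

open scoped RealInnerProductSpace

theorem weak_ev {σ : ℕ → ℕ} {χ : ℝ → ℝ} {Ω : Set ℂ} (ho : IsOpen Ω) (hb : Bornology.IsBounded Ω)
    (hne : Ω.Nonempty) (hχ : IsCutoff χ) {lam : ℕ → ℝ} (hl : ∀ n, 0 < lam n) {u : ℕ → ℂ → ℝ}
    (hu : ∀ n, ContDiffOn ℝ ∞ (u n) Ω) {μ : Measure MW} [IsProbabilityMeasure μ]
    (h : ConvergesAlong σ χ Ω lam u μ) {k : ℕ} (w : Fin k → ℂ)
    (g : EuclideanSpace ℝ (Fin k) →ᵇ ℝ) :
    Tendsto (fun n => ∫ z in Ω, g (WithLp.toLp 2 fun j => resc χ Ω (lam (σ n)) (u (σ n)) z (w j)))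
      atTop (𝓝 (volume.real Ω * ∫ f : MW, g (WithLp.toLp 2 fun j => f (w j)) ∂μ)) := by
  have hfin : volume Ω ≠ ⊤ := hb.measure_lt_top.ne
  have h0 : volume Ω ≠ 0 := (ho.measure_pos volume hne).ne'
  have hpos : 0 < volume.real Ω := ENNReal.toReal_pos h0 hfin
  set Q : Measure ℂ := (volume Ω)⁻¹ • volume.restrict Ω with hQ
  have hQp : IsProbabilityMeasure Q := by
    refine ⟨?_⟩
    rw [hQ, Measure.smul_apply, Measure.restrict_apply_univ, smul_eq_mul,
      ENNReal.inv_mul_cancel h0 hfin]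
  have hi : ∀ {E : Type} [NormedAddCommGroup E] [NormedSpace ℝ E] (G : ℂ → E),
      ∫ z, G z ∂Q = (volume.real Ω)⁻¹ • ∫ z in Ω, G z := by
    intro E _ _ G
    rw [hQ, integral_smul_measure, ENNReal.toReal_inv]
    rfl
  set X : ℕ → ℂ → EuclideanSpace ℝ (Fin k) := fun n z =>
    WithLp.toLp 2 fun j => resc χ Ω (lam (σ n)) (u (σ n)) z (w j) with hX
  set Y : MW → EuclideanSpace ℝ (Fin k) := fun f => WithLp.toLp 2 fun j => f (w j) with hY
  have hYm : Measurable Y := by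
    refine (WithLp.measurable_toLp 2 _).comp ?_
    exact measurable_pi_lambda _ fun j => meas_eval (w j)
  have hXm : ∀ n, AEMeasurable (X n) Q := by
    intro n
    refine (WithLp.measurable_toLp 2 _).comp_aemeasurable ?_
    refine aemeasurable_pi_lambda _ fun j => ?_
    exact (Pool.Agent.N163.BR.resc_meas ho hb hχ (hl _) (hu _).continuousOn _).aemeasurable.smul_measure _
  let L : ℕ → ProbabilityMeasure (EuclideanSpace ℝ (Fin k)) := fun n =>
    ⟨Q.map (X n), Measure.isProbabilityMeasure_map (hXm n)⟩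
  let L0 : ProbabilityMeasure (EuclideanSpace ℝ (Fin k)) :=
    ⟨μ.map Y, Measure.isProbabilityMeasure_map hYm.aemeasurable⟩
  have hlim : Tendsto L atTop (𝓝 L0) := by
    rw [ProbabilityMeasure.tendsto_iff_tendsto_charFun]
    intro t
    have h2 := h k w fun j => t j
    have e1 : ∀ n, charFun (L n : Measure (EuclideanSpace ℝ (Fin k))) t =
        ((1 / volume.real Ω : ℝ) : ℂ) * ∫ z in Ω, Complex.exp (Complex.I *
          ((∑ j, t j * resc χ Ω (lam (σ n)) (u (σ n)) z (w j) : ℝ) : ℂ)) := by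
      intro n
      show charFun (Q.map (X n)) t = _
      rw [charFun_apply, integral_map (hXm n) (by fun_prop), hi, Complex.real_smul, one_div]
      congr 1
      refine integral_congr_ae (Eventually.of_forall fun z => ?_)
      simp only [hX]
      rw [mul_comm]
      congr 3
    have e2 : charFun (L0 : Measure (EuclideanSpace ℝ (Fin k))) t =
        ∫ f, Complex.exp (Complex.I * (lin w (fun j => t j) f : ℝ)) ∂μ := by
      show charFun (μ.map Y) t = _
      rw [charFun_apply, integral_map hYm.aemeasurable (by fun_prop)]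
      refine integral_congr_ae (Eventually.of_forall fun f => ?_)
      simp only [hY]
      rw [mul_comm]
      congr 3
    simp only [e1, e2]
    exact h2
  have h3 := ProbabilityMeasure.tendsto_iff_forall_integral_tendsto.1 hlim g
  have h4 := h3.const_mul (volume.real Ω)
  have e3 : ∫ x, g x ∂(L0 : Measure (EuclideanSpace ℝ (Fin k))) = ∫ f : MW, g (Y f) ∂μ := by
    show ∫ x, g x ∂(μ.map Y) = _
    rw [integral_map hYm.aemeasurable g.continuous.aestronglyMeasurable]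
  rw [e3] at h4
  refine h4.congr fun n => ?_
  show volume.real Ω * ∫ x, g x ∂(Q.map (X n)) = _
  rw [integral_map (hXm n) g.continuous.aestronglyMeasurable, hi, smul_eq_mul,
    mul_inv_cancel_left₀ hpos.ne']

theorem eig_four {Ω : Set ℂ} (hΩ : IsOpen Ω) (hb : Bornology.IsBounded Ω)
    (hne : Ω.Nonempty) {lam : ℕ → ℝ} (hpos : ∀ n, 0 < lam n) (hlam : Tendsto lam atTop atTop)
    {u : ℕ → ℂ → ℝ} (hu : ∀ n, ContDiffOn ℝ ∞ (u n) Ω)
    (heq : ∀ n, ∀ z ∈ Ω, lap (u n) z + lam n * u n z = 0) {C : ℝ}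
    (hI : ∀ n, IntegrableOn (fun z => u n z ^ 2) Ω) (hC : ∀ n, ∫ z in Ω, u n z ^ 2 ≤ C)
    {χ : ℝ → ℝ} (hχ : IsCutoff χ) {N : ℕ} (x : Fin N → ℂ) (p : Fin N → ℝ) (hp : ∑ i, p i = 1)
    {M ε : ℝ} (hM : 0 ≤ M) (hε : 0 < ε) :
    ∀ᶠ n in atTop, ∫⁻ z in Ω, ENNReal.ofReal (min (u n z ^ 4) M) ≤
      3 * (∫⁻ z in Ω, ENNReal.ofReal
        ((∑ i, p i * resc χ Ω (lam n) (u n) z (x i) ^ 2) ^ 2)) + ENNReal.ofReal ε := by
  by_contra hcon
  rw [Filter.not_eventually] at hcon
  obtain ⟨τ, hτ, hτP⟩ := Filter.extraction_of_frequently_atTop hcon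
  have hlam' : Tendsto (lam ∘ τ) atTop atTop := hlam.comp hτ.tendsto_atTop
  obtain ⟨σ, μ, hσ, hμp, hst, hi2, hμ⟩ := pl2 Ω hΩ hb hne (lam ∘ τ) (fun n => hpos _) hlam'
    (u ∘ τ) (fun n => hu _) (fun n => heq _) C (fun n => hI _) (fun n => hC _) χ hχ
  have hfin : volume Ω ≠ ⊤ := hb.measure_lt_top.ne
  have h0 : volume Ω ≠ 0 := (hΩ.measure_pos volume hne).ne'
  have hvol : 0 < volume.real Ω := ENNReal.toReal_pos h0 hfin
  have hf : IsFiniteMeasure (volume.restrict Ω) :=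
    ⟨by rw [Measure.restrict_apply_univ]; exact hfin.lt_top⟩
  set w : Fin (N + 1) → ℂ := Fin.cons 0 x with hw
  have hw0 : w 0 = 0 := rfl
  have hws : ∀ i : Fin N, w i.succ = x i := fun i => rfl
  set X : ℕ → ℂ → EuclideanSpace ℝ (Fin (N + 1)) := fun n z =>
    WithLp.toLp 2 fun j => resc χ Ω ((lam ∘ τ) (σ n)) ((u ∘ τ) (σ n)) z (w j) with hX
  set Y : MW → EuclideanSpace ℝ (Fin (N + 1)) := fun f => WithLp.toLp 2 fun j => f (w j) with hY
  have hYm : Measurable Y :=
    (WithLp.measurable_toLp 2 _).comp (measurable_pi_lambda _ fun j => meas_eval (w j))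
  have hXm : ∀ n, AEMeasurable (X n) (volume.restrict Ω) := by
    intro n
    refine (WithLp.measurable_toLp 2 _).comp_aemeasurable (aemeasurable_pi_lambda _ fun j => ?_)
    exact (Pool.Agent.N163.BR.resc_meas hΩ hb hχ (hpos _) (hu _).continuousOn _).aemeasurable
  -- the test functions
  have c1 : Continuous fun y : EuclideanSpace ℝ (Fin (N + 1)) => min (y 0 ^ 4) M := by fun_prop
  have c2 : ∀ K : ℕ, Continuous fun y : EuclideanSpace ℝ (Fin (N + 1)) =>
      min ((∑ i : Fin N, p i * y i.succ ^ 2) ^ 2) (K : ℝ) := by intro K; fun_prop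
  let g1 : EuclideanSpace ℝ (Fin (N + 1)) →ᵇ ℝ :=
    BoundedContinuousFunction.ofNormedAddCommGroup _ c1 M fun y => by
      rw [Real.norm_of_nonneg (le_min (by positivity) hM)]
      exact min_le_right _ _
  let g2 : ℕ → (EuclideanSpace ℝ (Fin (N + 1)) →ᵇ ℝ) := fun K =>
    BoundedContinuousFunction.ofNormedAddCommGroup _ (c2 K) K fun y => by
      rw [Real.norm_of_nonneg (le_min (sq_nonneg _) (Nat.cast_nonneg K))]
      exact min_le_right _ _
  have g1n : ∀ y, 0 ≤ g1 y := fun y => le_min (by positivity) hM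
  have g2n : ∀ K y, 0 ≤ g2 K y := fun K y => le_min (sq_nonneg _) (Nat.cast_nonneg K)
  have iX : ∀ (g : EuclideanSpace ℝ (Fin (N + 1)) →ᵇ ℝ) (n : ℕ),
      Integrable (fun z => g (X n z)) (volume.restrict Ω) := fun g n =>
    Integrable.mono' (integrable_const ‖g‖)
      (g.continuous.comp_aestronglyMeasurable (hXm n).aestronglyMeasurable)
      (Eventually.of_forall fun z => g.norm_coe_le_norm _)
  have iY : ∀ g : EuclideanSpace ℝ (Fin (N + 1)) →ᵇ ℝ, Integrable (fun f => g (Y f)) μ := fun g =>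
    Integrable.mono' (integrable_const ‖g‖)
      (g.continuous.comp_aestronglyMeasurable hYm.aestronglyMeasurable)
      (Eventually.of_forall fun z => g.norm_coe_le_norm _)
  have t1 := weak_ev (lam := lam ∘ τ) (u := u ∘ τ) hΩ hb hne hχ (fun n => hpos _)
    (fun n => hu _) hμ w g1
  have t2 := fun K => weak_ev (lam := lam ∘ τ) (u := u ∘ τ) hΩ hb hne hχ (fun n => hpos _)
    (fun n => hu _) hμ w (g2 K)
  have h5 : ∀ K n, 3 * (∫ z in Ω, g2 K (X n z)) + ε ≤ ∫ z in Ω, g1 (X n z) := by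
    intro K n
    have h6 := hτP (σ n)
    rw [not_le] at h6
    have e1 : ∫⁻ z in Ω, ENNReal.ofReal (min (u (τ (σ n)) z ^ 4) M) =
        ENNReal.ofReal (∫ z in Ω, g1 (X n z)) := by
      rw [ofReal_integral_eq_lintegral_ofReal (iX g1 n) (Eventually.of_forall fun z => g1n _)]
      refine lintegral_congr fun z => ?_
      show _ = ENNReal.ofReal (min (resc χ Ω (lam (τ (σ n))) (u (τ (σ n))) z (w 0) ^ 4) M)
      rw [hw0, SB.resc_zero hχ]
    have e2 : ENNReal.ofReal (∫ z in Ω, g2 K (X n z)) ≤ ∫⁻ z in Ω, ENNReal.ofReal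
        ((∑ i, p i * resc χ Ω (lam (τ (σ n))) (u (τ (σ n))) z (x i) ^ 2) ^ 2) := by
      rw [ofReal_integral_eq_lintegral_ofReal (iX (g2 K) n)
        (Eventually.of_forall fun z => g2n K _)]
      refine lintegral_mono fun z => ENNReal.ofReal_le_ofReal ?_
      exact min_le_left _ _
    rw [e1] at h6
    have h7 : ENNReal.ofReal (3 * (∫ z in Ω, g2 K (X n z)) + ε) ≤
        ENNReal.ofReal (∫ z in Ω, g1 (X n z)) := by
      refine le_trans ?_ h6.le
      rw [ENNReal.ofReal_add (mul_nonneg (by norm_num) (integral_nonneg fun z => g2n K _)) hε.le,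
        ENNReal.ofReal_mul (by norm_num)]
      have e3 : ENNReal.ofReal 3 = 3 := by simp
      rw [e3]
      gcongr
    exact (ENNReal.ofReal_le_ofReal_iff (integral_nonneg fun z => g1n _)).1 h7
  have h6 : ∀ K : ℕ, 3 * (volume.real Ω * ∫ f : MW, g2 K (Y f) ∂μ) + ε ≤
      volume.real Ω * ∫ f : MW, g1 (Y f) ∂μ := fun K =>
    le_of_tendsto_of_tendsto' (((t2 K).const_mul 3).add_const ε) t1 (h5 K)
  set a : ℝ := ∫ f : MW, g1 (Y f) ∂μ with ha
  set c' : ℝ := a - ε / volume.real Ω with hc'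
  have h8 : ∀ K : ℕ, 3 * ∫ f : MW, g2 K (Y f) ∂μ ≤ c' := by
    intro K
    have h9 := h6 K
    rw [hc', le_sub_iff_add_le]
    have h10 : volume.real Ω * (3 * (∫ f : MW, g2 K (Y f) ∂μ) + ε / volume.real Ω) ≤
        volume.real Ω * a := by
      have : volume.real Ω * (3 * (∫ f : MW, g2 K (Y f) ∂μ) + ε / volume.real Ω) =
          3 * (volume.real Ω * ∫ f : MW, g2 K (Y f) ∂μ) + ε := by
        field_simp
      rw [this]
      exact h9
    exact le_of_mul_le_mul_left h10 hvol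
  have hc0 : 0 ≤ c' :=
    le_trans (mul_nonneg (by norm_num) (integral_nonneg fun f => g2n 0 _)) (h8 0)
  have h9 : ∫⁻ f : MW, ENNReal.ofReal ((∑ i, p i * f (x i) ^ 2) ^ 2) ∂μ ≤
      ENNReal.ofReal (c' / 3) := by
    have hm : ∀ K : ℕ, Measurable fun f : MW => ENNReal.ofReal (g2 K (Y f)) := fun K =>
      ((g2 K).continuous.measurable.comp hYm).ennreal_ofReal
    have hconv := lintegral_tendsto_of_tendsto_of_monotone (μ := μ)
      (f := fun (K : ℕ) (f : MW) => ENNReal.ofReal (g2 K (Y f)))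
      (F := fun f : MW => ENNReal.ofReal ((∑ i, p i * f (x i) ^ 2) ^ 2))
      (fun K => (hm K).aemeasurable)
      (Eventually.of_forall fun f K K' hK => ENNReal.ofReal_le_ofReal
        (min_le_min le_rfl (Nat.cast_le.2 hK)))
      (Eventually.of_forall fun f => by
        refine tendsto_const_nhds.congr' ?_
        obtain ⟨K0, hK0⟩ := exists_nat_ge ((∑ i, p i * f (x i) ^ 2) ^ 2)
        filter_upwards [eventually_ge_atTop K0] with K hK
        show _ = ENNReal.ofReal (min ((∑ i, p i * f (x i) ^ 2) ^ 2) (K : ℝ))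
        rw [min_eq_left (hK0.trans (Nat.cast_le.2 hK))])
    refine le_of_tendsto' hconv fun K => ?_
    rw [← ofReal_integral_eq_lintegral_ofReal (iY (g2 K)) (Eventually.of_forall fun f => g2n K _)]
    refine ENNReal.ofReal_le_ofReal ?_
    have := h8 K
    linarith
  have h10 : ENNReal.ofReal a ≤ ∫⁻ f : MW, ENNReal.ofReal (f 0 ^ 4) ∂μ := by
    rw [ha, ofReal_integral_eq_lintegral_ofReal (iY g1) (Eventually.of_forall fun f => g1n _)]
    exact lintegral_mono fun f => ENNReal.ofReal_le_ofReal (min_le_left _ _)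
  have h11 := h10.trans ((kur_avg hst hi2 x p hp).trans (mul_le_mul_right h9 3))
  have e3 : (3 : ℝ≥0∞) = ENNReal.ofReal 3 := by simp
  rw [e3, ← ENNReal.ofReal_mul (by norm_num), mul_div_cancel₀ _ (by norm_num : (3 : ℝ) ≠ 0),
    ENNReal.ofReal_le_ofReal_iff hc0] at h11
  have : 0 < ε / volume.real Ω := by positivity
  linarith

end

end Pool.Agent.U26.SG
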