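import Pool.Agent.U26.SG.Kur4
import Pool.Agent.U26.SG.Ht

/-!
# Fourth moments of quantum ergodic eigenfunctions on hyperbolic surfaces
-/

set_option autoImplicit false
open MeasureTheory Filter Topology ProbabilityTheory
open scoped ENNReal ContDiff BoundedContinuousFunction

namespace Pool.Agent.U26.SG

open Pool.Agent.W745.RW (lap)
open Pool.Agent.N661.BR
open Pool.Agent.U26.SB

section

variable {Z : Type*} [MeasurableSpace Z] {ν : Measure Z} [IsFiniteMeasure ν]

theorem weak_abs (h0 : ν ≠ 0) {μ : Measure MW} [IsProbabilityMeasure μ] {k : ℕ} (w : Fin k → ℂ)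
    {X : ℕ → Z → Fin k → ℝ} (hX : ∀ n j, Measurable (fun z => X n z j))
    (h : ∀ τ : Fin k → ℝ, Tendsto (fun n => (((ν.real Set.univ)⁻¹ : ℝ) : ℂ) *
      ∫ z, Complex.exp (Complex.I * ((∑ j, τ j * X n z j : ℝ) : ℂ)) ∂ν) atTop
      (𝓝 (∫ f, Complex.exp (Complex.I * (lin w τ f : ℝ)) ∂μ)))
    (g : EuclideanSpace ℝ (Fin k) →ᵇ ℝ) :
    Tendsto (fun n => ∫ z, g (WithLp.toLp 2 (X n z)) ∂ν)
      atTop (𝓝 (ν.real Set.univ * ∫ f : MW, g (WithLp.toLp 2 fun j => f (w j)) ∂μ)) := by
  have hne : NeZero ν := ⟨h0⟩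
  have hu0 : ν Set.univ ≠ 0 := by simpa using h0
  have hpos : 0 < ν.real Set.univ := ENNReal.toReal_pos hu0 (measure_ne_top _ _)
  set Q : Measure Z := (ν Set.univ)⁻¹ • ν with hQ
  have hQp : IsProbabilityMeasure Q := isProbabilityMeasureSMul
  have hi : ∀ {E : Type} [NormedAddCommGroup E] [NormedSpace ℝ E] (G : Z → E),
      ∫ z, G z ∂Q = (ν.real Set.univ)⁻¹ • ∫ z, G z ∂ν := by
    intro E _ _ G
    rw [hQ, integral_smul_measure, ENNReal.toReal_inv]
    rfl
  set X' : ℕ → Z → EuclideanSpace ℝ (Fin k) := fun n z => WithLp.toLp 2 (X n z) with hX'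
  set Y : MW → EuclideanSpace ℝ (Fin k) := fun f => WithLp.toLp 2 fun j => f (w j) with hY
  have hYm : Measurable Y :=
    (WithLp.measurable_toLp 2 _).comp (measurable_pi_lambda _ fun j => meas_eval (w j))
  have hXm : ∀ n, Measurable (X' n) := fun n =>
    (WithLp.measurable_toLp 2 _).comp (measurable_pi_lambda _ fun j => hX n j)
  let L : ℕ → ProbabilityMeasure (EuclideanSpace ℝ (Fin k)) := fun n =>
    ⟨Q.map (X' n), Measure.isProbabilityMeasure_map (hXm n).aemeasurable⟩
  let L0 : ProbabilityMeasure (EuclideanSpace ℝ (Fin k)) :=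
    ⟨μ.map Y, Measure.isProbabilityMeasure_map hYm.aemeasurable⟩
  have hlim : Tendsto L atTop (𝓝 L0) := by
    rw [ProbabilityMeasure.tendsto_iff_tendsto_charFun]
    intro t
    have h2 := h fun j => t j
    have e1 : ∀ n, charFun (L n : Measure (EuclideanSpace ℝ (Fin k))) t =
        (((ν.real Set.univ)⁻¹ : ℝ) : ℂ) * ∫ z, Complex.exp (Complex.I *
          ((∑ j, t j * X n z j : ℝ) : ℂ)) ∂ν := by
      intro n
      show charFun (Q.map (X' n)) t = _
      rw [charFun_apply, integral_map (hXm n).aemeasurable (by fun_prop), hi, Complex.real_smul]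
      congr 1
      refine integral_congr_ae (Eventually.of_forall fun z => ?_)
      simp only [hX']
      rw [mul_comm]
      congr 3
    have e2 : charFun (L0 : Measure (EuclideanSpace ℝ (Fin k))) t =
        ∫ f, Complex.exp (Complex.I * (lin w (fun j => t j) f : ℝ)) ∂μ := by
      show charFun (μ.map Y) t = _
      rw [charFun_apply, integral_map hYm.aemeasurable (by fun_prop)]
      refine integral_congr_ae (Eventually.of_forall fun f => ?_)
      simp only [hY]
      rw [mul_comm]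
      congr 3
    simp only [e1, e2]
    exact h2
  have h3 := ProbabilityMeasure.tendsto_iff_forall_integral_tendsto.1 hlim g
  have h4 := h3.const_mul (ν.real Set.univ)
  have e3 : ∫ x, g x ∂(L0 : Measure (EuclideanSpace ℝ (Fin k))) = ∫ f : MW, g (Y f) ∂μ := by
    show ∫ x, g x ∂(μ.map Y) = _
    rw [integral_map hYm.aemeasurable g.continuous.aestronglyMeasurable]
  rw [e3] at h4
  refine h4.congr fun n => ?_
  show ν.real Set.univ * ∫ x, g x ∂(Q.map (X' n)) = _
  rw [integral_map (hXm n).aemeasurable g.continuous.aestronglyMeasurable, hi, smul_eq_mul,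
    mul_inv_cancel_left₀ hpos.ne']

/-- the inequality, for a sequence of vectors whose laws converge to that of `(f 0, f (x i))` -/
theorem four_abs (h0 : ν ≠ 0) {μ : Measure MW} [IsProbabilityMeasure μ] (hst : IsStationary μ)
    (hi2 : Integrable (fun f : MW => f 0 ^ 2) μ) {N : ℕ} (x : Fin N → ℂ) (p : Fin N → ℝ)
    (hp : ∑ i, p i = 1) {X : ℕ → Z → Fin (N + 1) → ℝ} (hX : ∀ n j, Measurable (fun z => X n z j))
    (h : ∀ τ : Fin (N + 1) → ℝ, Tendsto (fun n => (((ν.real Set.univ)⁻¹ : ℝ) : ℂ) *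
      ∫ z, Complex.exp (Complex.I * ((∑ j, τ j * X n z j : ℝ) : ℂ)) ∂ν) atTop
      (𝓝 (∫ f, Complex.exp (Complex.I * (lin (Fin.cons 0 x : Fin (N + 1) → ℂ) τ f : ℝ)) ∂μ)))
    {M ε : ℝ} (hM : 0 ≤ M) (hε : 0 < ε) :
    ∃ n, ∫⁻ z, ENNReal.ofReal (min (X n z 0 ^ 4) M) ∂ν ≤
      3 * (∫⁻ z, ENNReal.ofReal ((∑ i : Fin N, p i * X n z i.succ ^ 2) ^ 2) ∂ν) +
        ENNReal.ofReal ε := by
  by_contra hcon
  push Not at hcon
  have hne : NeZero ν := ⟨h0⟩
  have hu0 : ν Set.univ ≠ 0 := by simpa using h0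
  have hvol : 0 < ν.real Set.univ := ENNReal.toReal_pos hu0 (measure_ne_top _ _)
  set w : Fin (N + 1) → ℂ := Fin.cons 0 x with hw
  set X' : ℕ → Z → EuclideanSpace ℝ (Fin (N + 1)) := fun n z => WithLp.toLp 2 (X n z) with hX'
  set Y : MW → EuclideanSpace ℝ (Fin (N + 1)) := fun f => WithLp.toLp 2 fun j => f (w j) with hY
  have hYm : Measurable Y :=
    (WithLp.measurable_toLp 2 _).comp (measurable_pi_lambda _ fun j => meas_eval (w j))
  have hXm : ∀ n, Measurable (X' n) := fun n =>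
    (WithLp.measurable_toLp 2 _).comp (measurable_pi_lambda _ fun j => hX n j)
  have c1 : Continuous fun y : EuclideanSpace ℝ (Fin (N + 1)) => min (y 0 ^ 4) M := by fun_prop
  have c2 : ∀ K : ℕ, Continuous fun y : EuclideanSpace ℝ (Fin (N + 1)) =>
      min ((∑ i : Fin N, p i * y i.succ ^ 2) ^ 2) (K : ℝ) := by intro K; fun_prop
  let g1 : EuclideanSpace ℝ (Fin (N + 1)) →ᵇ ℝ :=
    BoundedContinuousFunction.ofNormedAddCommGroup _ c1 M fun y => by
      rw [Real.norm_of_nonneg (le_min (by positivity) hM)]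
      exact min_le_right _ _
  let g2 : ℕ → (EuclideanSpace ℝ (Fin (N + 1)) →ᵇ ℝ) := fun K =>
    BoundedContinuousFunction.ofNormedAddCommGroup _ (c2 K) K fun y => by
      rw [Real.norm_of_nonneg (le_min (sq_nonneg _) (Nat.cast_nonneg K))]
      exact min_le_right _ _
  have g1n : ∀ y, 0 ≤ g1 y := fun y => le_min (by positivity) hM
  have g2n : ∀ K y, 0 ≤ g2 K y := fun K y => le_min (sq_nonneg _) (Nat.cast_nonneg K)
  have iX : ∀ (g : EuclideanSpace ℝ (Fin (N + 1)) →ᵇ ℝ) (n : ℕ),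
      Integrable (fun z => g (X' n z)) ν := fun g n =>
    Integrable.mono' (integrable_const ‖g‖)
      (g.continuous.comp_aestronglyMeasurable (hXm n).aestronglyMeasurable)
      (Eventually.of_forall fun z => g.norm_coe_le_norm _)
  have iY : ∀ g : EuclideanSpace ℝ (Fin (N + 1)) →ᵇ ℝ, Integrable (fun f => g (Y f)) μ := fun g =>
    Integrable.mono' (integrable_const ‖g‖)
      (g.continuous.comp_aestronglyMeasurable hYm.aestronglyMeasurable)
      (Eventually.of_forall fun z => g.norm_coe_le_norm _)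
  have t1 := weak_abs h0 w hX h g1
  have t2 := fun K => weak_abs h0 w hX h (g2 K)
  have h5 : ∀ K n, 3 * (∫ z, g2 K (X' n z) ∂ν) + ε ≤ ∫ z, g1 (X' n z) ∂ν := by
    intro K n
    have h6 := hcon n
    have e1 : ∫⁻ z, ENNReal.ofReal (min (X n z 0 ^ 4) M) ∂ν =
        ENNReal.ofReal (∫ z, g1 (X' n z) ∂ν) := by
      rw [ofReal_integral_eq_lintegral_ofReal (iX g1 n) (Eventually.of_forall fun z => g1n _)]
      rfl
    have e2 : ENNReal.ofReal (∫ z, g2 K (X' n z) ∂ν) ≤ ∫⁻ z, ENNReal.ofReal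
        ((∑ i : Fin N, p i * X n z i.succ ^ 2) ^ 2) ∂ν := by
      rw [ofReal_integral_eq_lintegral_ofReal (iX (g2 K) n)
        (Eventually.of_forall fun z => g2n K _)]
      refine lintegral_mono fun z => ENNReal.ofReal_le_ofReal ?_
      exact min_le_left _ _
    rw [e1] at h6
    have h7 : ENNReal.ofReal (3 * (∫ z, g2 K (X' n z) ∂ν) + ε) ≤
        ENNReal.ofReal (∫ z, g1 (X' n z) ∂ν) := by
      refine le_trans ?_ h6.le
      rw [ENNReal.ofReal_add (mul_nonneg (by norm_num) (integral_nonneg fun z => g2n K _)) hε.le,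
        ENNReal.ofReal_mul (by norm_num)]
      have e3 : ENNReal.ofReal 3 = 3 := by simp
      rw [e3]
      gcongr
    exact (ENNReal.ofReal_le_ofReal_iff (integral_nonneg fun z => g1n _)).1 h7
  have h6 : ∀ K : ℕ, 3 * (ν.real Set.univ * ∫ f : MW, g2 K (Y f) ∂μ) + ε ≤
      ν.real Set.univ * ∫ f : MW, g1 (Y f) ∂μ := fun K =>
    le_of_tendsto_of_tendsto' (((t2 K).const_mul 3).add_const ε) t1 (h5 K)
  set a : ℝ := ∫ f : MW, g1 (Y f) ∂μ with ha
  set c' : ℝ := a - ε / ν.real Set.univ with hc'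
  have h8 : ∀ K : ℕ, 3 * ∫ f : MW, g2 K (Y f) ∂μ ≤ c' := by
    intro K
    have h9 := h6 K
    rw [hc', le_sub_iff_add_le]
    have h10 : ν.real Set.univ * (3 * (∫ f : MW, g2 K (Y f) ∂μ) + ε / ν.real Set.univ) ≤
        ν.real Set.univ * a := by
      have : ν.real Set.univ * (3 * (∫ f : MW, g2 K (Y f) ∂μ) + ε / ν.real Set.univ) =
          3 * (ν.real Set.univ * ∫ f : MW, g2 K (Y f) ∂μ) + ε := by
        field_simp
      rw [this]
      exact h9
    exact le_of_mul_le_mul_left h10 hvol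
  have hc0 : 0 ≤ c' :=
    le_trans (mul_nonneg (by norm_num) (integral_nonneg fun f => g2n 0 _)) (h8 0)
  have h9 : ∫⁻ f : MW, ENNReal.ofReal ((∑ i, p i * f (x i) ^ 2) ^ 2) ∂μ ≤
      ENNReal.ofReal (c' / 3) := by
    have hm : ∀ K : ℕ, Measurable fun f : MW => ENNReal.ofReal (g2 K (Y f)) := fun K =>
      ((g2 K).continuous.measurable.comp hYm).ennreal_ofReal
    have hconv := lintegral_tendsto_of_tendsto_of_monotone (μ := μ)
      (f := fun (K : ℕ) (f : MW) => ENNReal.ofReal (g2 K (Y f)))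
      (F := fun f : MW => ENNReal.ofReal ((∑ i, p i * f (x i) ^ 2) ^ 2))
      (fun K => (hm K).aemeasurable)
      (Eventually.of_forall fun f K K' hK => ENNReal.ofReal_le_ofReal
        (min_le_min le_rfl (Nat.cast_le.2 hK)))
      (Eventually.of_forall fun f => by
        refine tendsto_const_nhds.congr' ?_
        obtain ⟨K0, hK0⟩ := exists_nat_ge ((∑ i, p i * f (x i) ^ 2) ^ 2)
        filter_upwards [eventually_ge_atTop K0] with K hK
        show _ = ENNReal.ofReal (min ((∑ i, p i * f (x i) ^ 2) ^ 2) (K : ℝ))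
        rw [min_eq_left (hK0.trans (Nat.cast_le.2 hK))])
    refine le_of_tendsto' hconv fun K => ?_
    rw [← ofReal_integral_eq_lintegral_ofReal (iY (g2 K)) (Eventually.of_forall fun f => g2n K _)]
    refine ENNReal.ofReal_le_ofReal ?_
    have := h8 K
    linarith
  have h10 : ENNReal.ofReal a ≤ ∫⁻ f : MW, ENNReal.ofReal (f 0 ^ 4) ∂μ := by
    rw [ha, ofReal_integral_eq_lintegral_ofReal (iY g1) (Eventually.of_forall fun f => g1n _)]
    exact lintegral_mono fun f => ENNReal.ofReal_le_ofReal (min_le_left _ _)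
  have h11 := h10.trans ((kur_avg hst hi2 x p hp).trans (mul_le_mul_right h9 3))
  have e3 : (3 : ℝ≥0∞) = ENNReal.ofReal 3 := by simp
  rw [e3, ← ENNReal.ofReal_mul (by norm_num), mul_div_cancel₀ _ (by norm_num : (3 : ℝ) ≠ 0),
    ENNReal.ofReal_le_ofReal_iff hc0] at h11
  have : 0 < ε / ν.real Set.univ := by positivity
  linarith

end

end Pool.Agent.U26.SG
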