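import Pool.Agent.U26.SG.Kur5

/-!
# Fourth moments of quantum ergodic eigenfunctions on hyperbolic surfaces, second part
-/

set_option autoImplicit false
open MeasureTheory Filter Topology ProbabilityTheory
open scoped ENNReal ContDiff BoundedContinuousFunction

namespace Pool.Agent.U26.SG

open Pool.Agent.W745.RW (lap)
open Pool.Agent.N661.BR
open Pool.Agent.N661.BH (HP area loc frames)
open Pool.Agent.U26.SB

noncomputable section

/-- the frames: rotations and reflections -/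
def fr : Measure (ℝ × Bool) :=
  (volume.restrict (Set.Ioc 0 (2 * Real.pi))).prod (Measure.count : Measure Bool)

instance : IsFiniteMeasure fr := by
  unfold fr
  infer_instance

def rot (q : ℝ × Bool) (w : ℂ) : ℂ :=
  Complex.exp (q.1 * Complex.I) * (if q.2 then w else starRingEnd ℂ w)

theorem rot_meas (w : ℂ) : Measurable fun q : ℝ × Bool => rot q w := by
  unfold rot
  refine Measurable.mul (by fun_prop) ?_
  exact (measurable_of_finite (fun b : Bool => if b then w else starRingEnd ℂ w)).comp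
    measurable_snd

theorem rot_norm (q : ℝ × Bool) (w : ℂ) : ‖rot q w‖ = ‖w‖ := by
  unfold rot
  rw [norm_mul, Complex.norm_exp_ofReal_mul_I, one_mul]
  split_ifs
  · rfl
  · exact RCLike.norm_conj w

theorem rot_zero (q : ℝ × Bool) : rot q 0 = 0 := by
  unfold rot
  split_ifs <;> simp

theorem fr_int {G : ℝ × Bool → ℂ} (hG : Measurable G) (hb : ∀ q, ‖G q‖ ≤ 1) :
    ∫ q, G q ∂fr = ∫ θ in (0:ℝ)..(2 * Real.pi), (G (θ, true) + G (θ, false)) := by
  have hi : Integrable G fr := by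
    refine Integrable.mono' (integrable_const 1) hG.aestronglyMeasurable
      (Eventually.of_forall hb)
  unfold fr at hi ⊢
  rw [integral_prod _ hi, intervalIntegral.integral_of_le (by positivity)]
  refine integral_congr_ae (Eventually.of_forall fun θ => ?_)
  simp [integral_count]

theorem fr_univ : fr.real Set.univ = 4 * Real.pi := by
  have h : fr Set.univ = ENNReal.ofReal (2 * Real.pi) * 2 := by
    unfold fr
    rw [← Set.univ_prod_univ, Measure.prod_prod, Measure.restrict_apply_univ, Real.volume_Ioc,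
      Measure.count_apply_finite _ Set.finite_univ]
    simp
  rw [measureReal_def, h, ENNReal.toReal_mul, ENNReal.toReal_ofReal (by positivity)]
  simp
  ring

theorem fr_lint {G : ℝ × Bool → ℝ≥0∞} (hG : Measurable G) :
    ∫⁻ q, G q ∂fr = ∫⁻ θ in Set.Ioc 0 (2 * Real.pi), (G (θ, true) + G (θ, false)) := by
  unfold fr
  rw [lintegral_prod _ hG.aemeasurable]
  refine lintegral_congr fun θ => ?_
  simp [lintegral_count, add_comm]

/-- the point of the frame -/
def fp (lam : ℝ) (w : ℂ) (p : ℂ × (ℝ × Bool)) : ℂ :=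
  p.1 + ((p.1.im / √lam : ℝ) : ℂ) * rot p.2 w

theorem fp_meas (lam : ℝ) (w : ℂ) : Measurable (fp lam w) := by
  unfold fp
  have h1 : Measurable fun p : ℂ × (ℝ × Bool) => rot p.2 w := (rot_meas w).comp measurable_snd
  have h2 : Measurable fun p : ℂ × (ℝ × Bool) => ((p.1.im / √lam : ℝ) : ℂ) := by fun_prop
  exact measurable_fst.add (h2.mul h1)

theorem frames_eq {k : ℕ} {G : (Fin k → ℂ) → ℂ} (w : Fin k → ℂ)
    (hG : Measurable fun q : ℝ × Bool => G fun j => rot q (w j))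
    (hb : ∀ a, ‖G a‖ ≤ 1) :
    frames G w = ((1 / (4 * Real.pi) : ℝ) : ℂ) * ∫ q, G (fun j => rot q (w j)) ∂fr := by
  rw [fr_int hG fun q => hb _]
  rfl

theorem conv_fr {Ω : Set ℂ} [IsFiniteMeasure (hm Ω)] {v : ℂ → ℝ} (hv : Measurable v) (lam : ℝ)
    {k : ℕ} (w : Fin k → ℂ) (t : Fin k → ℝ) :
    (area Ω fun z => frames (fun a => Complex.exp (Complex.I *
        ((∑ j, t j * loc lam v z (a j) : ℝ) : ℂ))) w) / area Ω (fun _ => 1) =
      (((((hm Ω).prod fr).real Set.univ)⁻¹ : ℝ) : ℂ) *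
        ∫ p, Complex.exp (Complex.I * ((∑ j, t j * v (fp lam (w j) p) : ℝ) : ℂ))
          ∂((hm Ω).prod fr) := by
  have hm1 : Measurable fun p : ℂ × (ℝ × Bool) =>
      Complex.exp (Complex.I * ((∑ j, t j * v (fp lam (w j) p) : ℝ) : ℂ)) := by
    have h1 : Measurable fun p : ℂ × (ℝ × Bool) => ∑ j, t j * v (fp lam (w j) p) :=
      Finset.measurable_sum _ fun j _ => (hv.comp (fp_meas lam (w j))).const_mul _
    fun_prop
  have hn : ∀ x : ℝ, ‖Complex.exp (Complex.I * (x : ℂ))‖ ≤ 1 := fun x => by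
    rw [mul_comm, Complex.norm_exp_ofReal_mul_I]
  have hi : Integrable (fun p : ℂ × (ℝ × Bool) =>
      Complex.exp (Complex.I * ((∑ j, t j * v (fp lam (w j) p) : ℝ) : ℂ))) ((hm Ω).prod fr) :=
    Integrable.mono' (integrable_const 1) hm1.aestronglyMeasurable
      (Eventually.of_forall fun p => hn _)
  have e1 : ∀ z, frames (fun a => Complex.exp (Complex.I *
      ((∑ j, t j * loc lam v z (a j) : ℝ) : ℂ))) w = ((1 / (4 * Real.pi) : ℝ) : ℂ) *
      ∫ q, Complex.exp (Complex.I * ((∑ j, t j * v (fp lam (w j) (z, q)) : ℝ) : ℂ)) ∂fr := by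
    intro z
    rw [frames_eq w (hm1.comp measurable_prodMk_left) fun a => hn _]
    rfl
  rw [integral_prod _ hi, ← hm_int]
  simp only [e1]
  rw [integral_const_mul, hm_area]
  have e2 : ((hm Ω).prod fr).real Set.univ = (hm Ω).real Set.univ * (4 * Real.pi) := by
    rw [← fr_univ, measureReal_def, measureReal_def, measureReal_def, ← ENNReal.toReal_mul,
      ← Set.univ_prod_univ, Measure.prod_prod]
  rw [e2, mul_inv]
  push_cast
  have hpi : (Real.pi : ℂ) ≠ 0 := by exact_mod_cast Real.pi_ne_zero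
  field_simp

theorem fp_mem {z : ℂ} (hz : z ∈ HP) {lam R : ℝ} (hR : 0 ≤ R) (hlam : R ^ 2 < lam) {a : ℂ}
    (ha : ‖a‖ ≤ R) : z + ((z.im / √lam : ℝ) : ℂ) * a ∈ HP := by
  have hz' : 0 < z.im := hz
  have hs : R < √lam := Real.lt_sqrt_of_sq_lt hlam
  have hs0 : 0 < √lam := hR.trans_lt hs
  show 0 < (z + ((z.im / √lam : ℝ) : ℂ) * a).im
  rw [Complex.add_im, Complex.im_ofReal_mul]
  have h1 : -R ≤ a.im := (neg_le_neg ha).trans (abs_le.1 (Complex.abs_im_le_norm a)).1
  have h2 : z.im / √lam * (-R) ≤ z.im / √lam * a.im :=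
    mul_le_mul_of_nonneg_left h1 (by positivity)
  have h3 : z.im / √lam * R < z.im := by
    rw [div_mul_eq_mul_div, div_lt_iff₀ hs0]
    exact mul_lt_mul_of_pos_left hs hz'
  linarith

/-- the mean over the frames of a function with values in `[0, ∞]` -/
def fmean {k : ℕ} (G : (Fin k → ℂ) → ℝ≥0∞) (w : Fin k → ℂ) : ℝ≥0∞ :=
  ENNReal.ofReal (1 / (4 * Real.pi)) * ∫⁻ θ in Set.Ioc 0 (2 * Real.pi),
    (G (fun j => Complex.exp (θ * Complex.I) * w j) +
      G (fun j => Complex.exp (θ * Complex.I) * starRingEnd ℂ (w j)))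

theorem hyp_four {Ω : Set ℂ} (hΩ : IsOpen Ω) (hHP : Ω ⊆ HP) (hne : Ω.Nonempty)
    (hA : IntegrableOn (fun z : ℂ => 1 / z.im ^ 2) Ω)
    {lam : ℕ → ℝ} (hpos : ∀ n, 0 < lam n) (hlam : Tendsto lam atTop atTop)
    {u : ℕ → ℂ → ℝ} (hu : ∀ n, ContDiffOn ℝ ∞ (u n) HP)
    (heq : ∀ n, ∀ z ∈ HP, z.im ^ 2 * lap (u n) z + lam n * u n z = 0)
    (hqe : Pool.Agent.N661.BH.IsQuantumErgodic Ω lam u)
    {N : ℕ} (x : Fin N → ℂ) (p : Fin N → ℝ) (hp : ∑ i, p i = 1)
    {M ε : ℝ} (hM : 0 ≤ M) (hε : 0 < ε) :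
    ∀ᶠ n in atTop, ∫⁻ z, ENNReal.ofReal (min (u n z ^ 4) M) ∂(hm Ω) ≤
      3 * (∫⁻ z, fmean (fun a => ENNReal.ofReal
        ((∑ i, p i * loc (lam n) (u n) z (a i) ^ 2) ^ 2)) x ∂(hm Ω)) + ENNReal.ofReal ε := by
  classical
  have hfin : IsFiniteMeasure (hm Ω) := hm_fin hA
  by_contra hcon
  rw [Filter.not_eventually] at hcon
  set R : ℝ := ∑ i, ‖x i‖ with hRdef
  have hR0 : 0 ≤ R := Finset.sum_nonneg fun i _ => norm_nonneg _
  have hR : ∀ j : Fin (N + 1), ‖(Fin.cons 0 x : Fin (N + 1) → ℂ) j‖ ≤ R := by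
    intro j
    refine Fin.cases ?_ (fun i => ?_) j
    · show ‖(0 : ℂ)‖ ≤ R
      rw [norm_zero]
      exact hR0
    · show ‖x i‖ ≤ R
      exact Finset.single_le_sum (f := fun i => ‖x i‖) (fun i _ => norm_nonneg _)
        (Finset.mem_univ i)
  obtain ⟨τ, hτ, hτP⟩ := Filter.extraction_of_frequently_atTop
    (hcon.and_eventually (hlam.eventually_gt_atTop (R ^ 2)))
  have hlam' : Tendsto (lam ∘ τ) atTop atTop := hlam.comp hτ.tendsto_atTop
  have hqe' : Pool.Agent.N661.BH.IsQuantumErgodic Ω (lam ∘ τ) (u ∘ τ) := fun φ hφ k =>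
    (hqe φ hφ k).comp hτ.tendsto_atTop
  obtain ⟨σ, μ, hσ, hμp, hμ⟩ := hy Ω hΩ hHP hne hA (lam ∘ τ) (fun n => hpos _) hlam' (u ∘ τ)
    (fun n => hu _) (fun n => heq _) hqe'
  obtain ⟨hst, hi2⟩ := hyp_st (lam := lam ∘ τ) (u := u ∘ τ) hΩ hHP hne hA (fun n => hpos _) hlam'
    (fun n => hu _) (fun n => heq _) hqe' ⟨σ, hσ, hμ⟩
  -- measurable modifications
  have hHPm : MeasurableSet HP := measurableSet_lt measurable_const Complex.measurable_im
  set v : ℕ → ℂ → ℝ := fun n => HP.piecewise (u (τ (σ n))) (fun _ => 0) with hv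
  have hvm : ∀ n, Measurable (v n) := fun n =>
    (hu _).continuousOn.measurable_piecewise continuousOn_const hHPm
  have hve : ∀ n z, z ∈ HP → v n z = u (τ (σ n)) z := fun n z hz =>
    Set.piecewise_eq_of_mem _ _ _ hz
  set L : ℕ → ℝ := fun n => lam (τ (σ n)) with hL
  have hLR : ∀ n, R ^ 2 < L n := fun n => (hτP (σ n)).2
  have hloc : ∀ n, ∀ z ∈ HP, ∀ a : ℂ, ‖a‖ ≤ R → loc (L n) (v n) z a =
      loc (L n) (u (τ (σ n))) z a := fun n z hz a ha => by
    unfold loc
    exact hve n _ (fp_mem hz hR0 (hLR n) ha)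
  have hν0 : (hm Ω).prod fr ≠ 0 := by
    intro h
    have h1 : ((hm Ω).prod fr) (Set.univ ×ˢ Set.univ) = 0 := by rw [h]; rfl
    rw [Measure.prod_prod] at h1
    rcases mul_eq_zero.1 h1 with h2 | h2
    · exact hm_pos hΩ hHP hne (Measure.measure_univ_eq_zero.1 h2)
    · have h3 := fr_univ
      rw [measureReal_def, h2, ENNReal.toReal_zero] at h3
      have := Real.pi_pos
      linarith
  set X : ℕ → ℂ × (ℝ × Bool) → Fin (N + 1) → ℝ := fun n q j =>
    v n (fp (L n) ((Fin.cons 0 x : Fin (N + 1) → ℂ) j) q) with hX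
  have hXm : ∀ n j, Measurable fun q => X n q j := fun n j => (hvm n).comp (fp_meas _ _)
  have hchar : ∀ t : Fin (N + 1) → ℝ, Tendsto (fun n => (((((hm Ω).prod fr).real Set.univ)⁻¹ : ℝ) : ℂ) *
      ∫ q, Complex.exp (Complex.I * ((∑ j, t j * X n q j : ℝ) : ℂ)) ∂((hm Ω).prod fr)) atTop
      (𝓝 (∫ f, Complex.exp (Complex.I * (lin (Fin.cons 0 x : Fin (N + 1) → ℂ) t f : ℝ)) ∂μ)) := by
    intro t
    refine (hμ (N + 1) (Fin.cons 0 x) t).congr fun n => ?_
    rw [← conv_fr (hvm n) (L n) (Fin.cons 0 x : Fin (N + 1) → ℂ) t]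
    congr 1
    unfold area
    refine setIntegral_congr_fun hΩ.measurableSet fun z hz => ?_
    simp only
    congr 1
    unfold frames
    congr 1
    refine intervalIntegral.integral_congr fun θ _ => ?_
    simp only
    have k1 : ∀ j, loc (L n) (v n) z (Complex.exp (θ * Complex.I) *
        (Fin.cons 0 x : Fin (N + 1) → ℂ) j) = loc (L n) (u (τ (σ n))) z
        (Complex.exp (θ * Complex.I) * (Fin.cons 0 x : Fin (N + 1) → ℂ) j) := fun j => by
      refine hloc n z (hHP hz) _ ?_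
      rw [norm_mul, Complex.norm_exp_ofReal_mul_I, one_mul]
      exact hR j
    have k2 : ∀ j, loc (L n) (v n) z (Complex.exp (θ * Complex.I) *
        starRingEnd ℂ ((Fin.cons 0 x : Fin (N + 1) → ℂ) j)) = loc (L n) (u (τ (σ n))) z
        (Complex.exp (θ * Complex.I) * starRingEnd ℂ ((Fin.cons 0 x : Fin (N + 1) → ℂ) j)) :=
      fun j => by
        refine hloc n z (hHP hz) _ ?_
        rw [norm_mul, Complex.norm_exp_ofReal_mul_I, one_mul, RCLike.norm_conj]
        exact hR j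
    simp only [k1, k2]
    rfl
  obtain ⟨n, hn⟩ := four_abs hν0 hst hi2 x p hp hXm hchar hM
    (show 0 < ε * (4 * Real.pi) by positivity)
  refine (hτP (σ n)).1 ?_
  -- the left side
  have hfru : fr Set.univ = ENNReal.ofReal (4 * Real.pi) := by
    rw [← fr_univ, measureReal_def, ENNReal.ofReal_toReal (measure_ne_top _ _)]
  have hzHP : ∀ᵐ z ∂(hm Ω), z ∈ Ω := by
    have h1 : ∀ᵐ z ∂(volume.restrict Ω), z ∈ Ω := ae_restrict_mem hΩ.measurableSet
    exact (withDensity_absolutelyContinuous _ _).ae_le h1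
  have e1 : ∫⁻ q, ENNReal.ofReal (min (X n q 0 ^ 4) M) ∂((hm Ω).prod fr) =
      (∫⁻ z, ENNReal.ofReal (min (u (τ (σ n)) z ^ 4) M) ∂(hm Ω)) * ENNReal.ofReal (4 * Real.pi) := by
    rw [lintegral_prod _ ((((hXm n 0).pow_const 4).min measurable_const).ennreal_ofReal).aemeasurable]
    have h1 : ∀ z, ∫⁻ q, ENNReal.ofReal (min (X n (z, q) 0 ^ 4) M) ∂fr =
        ENNReal.ofReal (min (v n z ^ 4) M) * ENNReal.ofReal (4 * Real.pi) := by
      intro z
      have h2 : ∀ q, X n (z, q) 0 = v n z := by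
        intro q
        show v n (z + ((z.im / √(L n) : ℝ) : ℂ) * rot q 0) = v n z
        rw [rot_zero, mul_zero, add_zero]
      simp only [h2]
      rw [lintegral_const, hfru]
    simp only [h1]
    rw [lintegral_mul_const']
    · congr 1
      refine lintegral_congr_ae ?_
      filter_upwards [hzHP] with z hz
      rw [hve n z (hHP hz)]
    · exact ENNReal.ofReal_ne_top
  have e2 : ∫⁻ q, ENNReal.ofReal ((∑ i : Fin N, p i * X n q i.succ ^ 2) ^ 2) ∂((hm Ω).prod fr) =
      (∫⁻ z, fmean (fun a => ENNReal.ofReal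
        ((∑ i, p i * loc (lam (τ (σ n))) (u (τ (σ n))) z (a i) ^ 2) ^ 2)) x ∂(hm Ω)) *
        ENNReal.ofReal (4 * Real.pi) := by
    have hms : Measurable fun q => ENNReal.ofReal ((∑ i : Fin N, p i * X n q i.succ ^ 2) ^ 2) :=
      ((Finset.measurable_sum _ fun i _ =>
        ((hXm n i.succ).pow_const 2).const_mul (p i)).pow_const 2).ennreal_ofReal
    rw [lintegral_prod _ hms.aemeasurable, ← lintegral_mul_const' _ _ ENNReal.ofReal_ne_top]
    refine lintegral_congr_ae ?_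
    filter_upwards [hzHP] with z hz
    have hmz : Measurable fun q : ℝ × Bool =>
        ENNReal.ofReal ((∑ i : Fin N, p i * X n (z, q) i.succ ^ 2) ^ 2) :=
      hms.comp measurable_prodMk_left
    rw [fr_lint hmz]
    unfold fmean
    rw [mul_comm (ENNReal.ofReal (1 / (4 * Real.pi))), mul_assoc,
      ← ENNReal.ofReal_mul (by positivity),
      one_div_mul_cancel (by positivity), ENNReal.ofReal_one, mul_one]
    refine lintegral_congr fun θ => ?_
    have k1 : ∀ i : Fin N, X n (z, (θ, true)) i.succ = loc (lam (τ (σ n))) (u (τ (σ n))) z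
        (Complex.exp (θ * Complex.I) * x i) := fun i => by
      refine hloc n z (hHP hz) _ ?_
      rw [rot_norm]
      exact hR i.succ
    have k2 : ∀ i : Fin N, X n (z, (θ, false)) i.succ = loc (lam (τ (σ n))) (u (τ (σ n))) z
        (Complex.exp (θ * Complex.I) * starRingEnd ℂ (x i)) := fun i => by
      refine hloc n z (hHP hz) _ ?_
      rw [rot_norm]
      exact hR i.succ
    simp only [k1, k2]
  rw [e1, e2, ENNReal.ofReal_mul hε.le, ← mul_assoc, ← add_mul] at hn
  exact (ENNReal.mul_le_mul_iff_left (by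
    rw [Ne, ENNReal.ofReal_eq_zero, not_le]; positivity) ENNReal.ofReal_ne_top).1 hn

end

end Pool.Agent.U26.SG
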