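import Pool.Agent.U26.SG.Asm
import Pool.Agent.N661.BR.Fin4
import Pool.Agent.N40.BRSTAT
import Pool.Agent.N40.BRSTATH

/-!
# The limit laws are exhausted by invariant sets
-/

set_option autoImplicit false
open MeasureTheory Filter Topology ProbabilityTheory
open scoped ContDiff

namespace Pool.Agent.U26.SG

open Pool.Agent.W745.RW (lap)
open Pool.Agent.N661.BR

theorem exh_planar {Ω : Set ℂ} (hΩ : IsOpen Ω) (hb : Bornology.IsBounded Ω) (hne : Ω.Nonempty)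
    {lam : ℕ → ℝ} (hpos : ∀ n, 0 < lam n) (hlam : Tendsto lam atTop atTop)
    {u : ℕ → ℂ → ℝ} (hu : ∀ n, ContDiffOn ℝ ∞ (u n) Ω)
    (heq : ∀ n, ∀ z ∈ Ω, lap (u n) z + lam n * u n z = 0) (hqe : IsQuantumErgodic Ω lam u)
    {χ : ℝ → ℝ} (hχ : IsCutoff χ)
    {μ : Measure MW} [IsProbabilityMeasure μ] (hμ : IsLocalLimit χ Ω lam u μ) : Exh μ := by
  obtain ⟨h1, h2, h3⟩ := limit_all hΩ hb hne hpos hlam hu heq hqe hχ inferInstance hμ
  obtain ⟨h, u', hS, hA⟩ := limit_apx allParts hΩ hb hne hpos hlam hu heq hqe hχ inferInstance hμ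
  exact exh_of (Pool.Agent.N40.BRSTAT.STAT Ω hΩ hb hne h u' hS μ inferInstance hA) h1 h2

theorem exh_hyp {Ω : Set ℂ} (hΩ : IsOpen Ω) (hHP : Ω ⊆ Pool.Agent.N661.BH.HP) (hne : Ω.Nonempty)
    (hA : IntegrableOn (fun z : ℂ => 1 / z.im ^ 2) Ω)
    {lam : ℕ → ℝ} (hpos : ∀ n, 0 < lam n) (hlam : Tendsto lam atTop atTop)
    {u : ℕ → ℂ → ℝ} (hu : ∀ n, ContDiffOn ℝ ∞ (u n) Pool.Agent.N661.BH.HP)
    (heq : ∀ n, ∀ z ∈ Pool.Agent.N661.BH.HP, z.im ^ 2 * lap (u n) z + lam n * u n z = 0)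
    (hqe : Pool.Agent.N661.BH.IsQuantumErgodic Ω lam u)
    {μ : Measure MW} [IsProbabilityMeasure μ] (hμ : Pool.Agent.N661.BH.IsLocalLimit Ω lam u μ) :
    Exh μ := by
  obtain ⟨h1, h2, h3⟩ := Pool.Agent.N661.BH.limit_all hΩ hHP hne hA hpos hlam hu heq hqe
    inferInstance hμ
  exact exh_of (Pool.Agent.N40.BRSTATH.STATH Ω hΩ hHP hne hA lam hpos hlam u hu heq hqe μ
    inferInstance hμ) h1 h2

end Pool.Agent.U26.SG
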