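import Pool.Agent.R989.Wvm

/-!
# The conditional fourth moment of a stationary wave (after helper989)
-/

set_option autoImplicit false

open MeasureTheory Filter Topology Complex ProbabilityTheory
open scoped ENNReal

namespace Pool.Agent.U26.SG

open Pool.Agent.W745.RW Pool.Agent.R989.Erg Pool.Agent.R989.Det Pool.Agent.R989.Der
open Pool.Agent.R989.Asm
open Pool.Agent.Results.MP_6b977f_mp.FourPointFunctions (cov gauss parallel)
open Pool.Agent.Results.MP_6b977f_mp.PlanckScaleMass (mean)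

section
variable {S : Type*} [MeasurableSpace S] {P : Measure S} [IsProbabilityMeasure P]
  {F : S → ℂ → ℝ}

theorem pt_zero : pt (0, 0) = 0 := by simp [pt]

theorem XW_zero : XW (pt (0, 0)) = x2 := by
  funext ω
  simp only [XW, pt_zero, x2]
  ring

theorem main3 (H : Wv P F)
    (hsp : ∀ᵐ s ∂P, ∃ (m : ℝ) (ν : Measure ℝ), IsProbabilityMeasure ν ∧ ∀ a : ℚ × ℚ,
      ((P.map F)[XW (pt a) | inv (P.map F)]) (F s) = m * cov ν (pt a)) :
    ∀ᵐ s ∂P, ((P.map F)[X4 | inv (P.map F)]) (F s) ≤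
      3 * ((P.map F)[x2 | inv (P.map F)]) (F s) ^ 2 := by
  have hlp : IsProbabilityMeasure (P.map F) := law_prob H.joint
  have hFm : Measurable F := F_meas H.joint
  obtain ⟨T, hT, hdense⟩ := dense_TF
  -- a fixed test function
  obtain ⟨φ0, hφ0, hφnn, hφpos⟩ : ∃ φ0 : ℂ → ℝ, TF (interior (Metric.closedBall (0 : ℂ) (2 : ℕ))) φ0 ∧
      (∀ z, 0 ≤ φ0 z) ∧ 0 < ∫ z, φ0 z := by
    let b : ContDiffBump (0 : ℂ) := ⟨1 / 2, 1, by norm_num, by norm_num⟩
    refine ⟨fun z => b z, ⟨b.contDiff, b.hasCompactSupport, ?_⟩, fun z => b.nonneg, ?_⟩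
    · rw [b.tsupport_eq]
      refine (Metric.closedBall_subset_ball (?_ : (1 : ℝ) < 2)).trans ?_
      · norm_num
      · push_cast
        exact Metric.ball_subset_interior_closedBall
    · exact b.integral_pos
  have hφu : TF Set.univ φ0 := ⟨hφ0.1, hφ0.2.1, Set.subset_univ _⟩
  have hTm : ∀ i, Measurable (T i) := fun i => (hT i).1.continuous.measurable
  have hTi : ∀ i, Integrable (T i) := fun i =>
    (hT i).1.continuous.integrable_of_hasCompactSupport (hT i).2.1
  have wm : ∀ i, Measurable (wt T φ0 i) := by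
    rintro (p | p | N | b)
    · exact hTm p.1
    · exact ind_meas p.1
    · exact ind_meas N
    · exact hφ0.1.continuous.measurable
  have wi : ∀ i, Integrable (wt T φ0 i) := by
    rintro (p | p | N | b)
    · exact hTi p.1
    · exact ind_int p.1
    · exact ind_int N
    · exact hφ0.1.continuous.integrable_of_hasCompactSupport hφ0.2.1
  have fm : ∀ i, Measurable (fn (fun _ => 0) i) := by
    rintro (p | p | N | b)
    · exact XW_meas _
    · exact AXW_meas _
    · exact X4_meas
    · cases b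
      · exact XA_meas _
      · exact X4_meas
  have fi : ∀ i, Integrable (fn (fun _ => 0) i) (P.map F) := by
    rintro (p | p | N | b)
    · exact H.xw _
    · exact (H.xw _).abs
    · exact H.pow4 0
    · cases b
      · exact H.xa _
      · exact H.pow4 0
  obtain ⟨t, ht1, ht2, hsub⟩ := subseq (P := P) H.mps (wt T φ0) wm wi (fn (fun _ => 0)) fm fi H.fld
  have hmass := mass_freq H.mps H.fld H.x2 φ0 hφ0.1.continuous.measurable
    (hφ0.1.continuous.integrable_of_hasCompactSupport hφ0.2.1) t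
  filter_upwards [hsub, hmass, hsp] with s h1 h2 h0
  obtain ⟨m, ν, hν, h3⟩ := h0
  have h4 : ((P.map F)[x2 | inv (P.map F)]) (F s) = m := by
    have h5 := h3 (0, 0)
    rw [XW_zero, pt_zero, cov_zero, mul_one] at h5
    exact h5
  have hfc : Continuous (F s) := (H.smooth s).continuous
  have c4 : ∀ N : ℕ, ∃ C : ℝ, ∀ᶠ n in atTop,
      ∫ z in Metric.closedBall (0 : ℂ) N, F s ((t n : ℂ) * z) ^ 4 ≤ C := by
    intro N
    have h6 := lim_of_tendsto (h1 (Sum.inr (Sum.inr (Sum.inl N))))
    refine ⟨_, h6.mono fun n hn => le_trans (le_of_eq ?_) hn⟩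
    show _ = V F (ind N) (t n) X4 s
    rw [V_ind]
    refine setIntegral_congr_fun measurableSet_closedBall fun z _ => ?_
    simp only [X4, sh, zero_add]
  have c2 : ∀ a : ℚ × ℚ, ∀ N : ℕ, ∃ C : ℝ, ∀ᶠ n in atTop,
      ∫ z in Metric.closedBall (0 : ℂ) N,
        |F s ((t n : ℂ) * z) * F s ((t n : ℂ) * z + pt a)| ≤ C := by
    intro a N
    have h6 := lim_of_tendsto (h1 (Sum.inr (Sum.inl (N, a))))
    refine ⟨_, h6.mono fun n hn => le_trans (le_of_eq ?_) hn⟩
    show _ = V F (ind N) (t n) (AXW (pt a)) s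
    rw [V_ind]
    refine setIntegral_congr_fun measurableSet_closedBall fun z _ => ?_
    simp only [AXW, sh, add_comm, add_zero]
  have D : Dat (F s) t m ν := by
    refine ⟨H.smooth s, H.eigen s, fun n => lt_of_lt_of_le one_pos (ht1 n), ht2, c4, ?_⟩
    intro φ hφ w' hw'
    obtain ⟨p, q, rfl⟩ := hw'
    refine two_ext hfc hT hdense _ _ (fun i => ?_) (c2 (p, q)) φ hφ
    have h6 := h1 (Sum.inl (i, (p, q)))
    have h7 : wt T φ0 (Sum.inl (i, (p, q))) = T i := rfl
    have h8 : fn (fun _ => 0) (Sum.inl (i, (p, q))) = XW (pt (p, q)) := rfl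
    rw [h7, h8, h3 (p, q)] at h6
    refine h6.congr fun n => ?_
    unfold V
    refine integral_congr_ae (Eventually.of_forall fun z => ?_)
    simp only [XW, sh, pt, add_comm, add_zero]
  have hB := h1 (Sum.inr (Sum.inr (Sum.inr true)))
  have hA := h1 (Sum.inr (Sum.inr (Sum.inr false)))
  have hB' : Tendsto (fun n => ∫ z, φ0 z * F s ((t n : ℂ) * z) ^ 4) atTop
      (𝓝 ((∫ z, φ0 z) * ((P.map F)[X4 | inv (P.map F)]) (F s))) := by
    refine Tendsto.congr (fun n => ?_) hB
    show V F φ0 (t n) X4 s = _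
    unfold V
    refine integral_congr_ae (Eventually.of_forall fun z => ?_)
    simp only [X4, sh, zero_add]
  have hBv := fin_B D _ (isCompact_closedBall (0 : ℂ) (2 : ℕ)) φ0 hφ0 hφpos
    (((P.map F)[X4 | inv (P.map F)]) (F s)) hB' (c4 2) (by
      intro ε hε R0
      obtain ⟨R, hR, hfr⟩ := h2 ε hε R0
      refine ⟨R, hR, hfr.mono fun n hn => ?_⟩
      unfold Dv at hn
      rw [h4] at hn
      exact hn)
  rw [h4, hBv]
  have hpar : 0 ≤ parallel ν := measureReal_nonneg
  nlinarith [mul_nonneg (sq_nonneg m) hpar]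

end

end Pool.Agent.U26.SG
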