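import Mathlib.MeasureTheory.Function.ConditionalExpectation.Real
import Mathlib.MeasureTheory.Measure.Prokhorov
import Mathlib.Analysis.SpecialFunctions.Trigonometric.Basic
import Mathlib.Tactic

/-!
# Project SG (helper26): signs of quantum ergodic eigenfunctions without a decomposition

Statements of the packages CPT and COND.
-/

set_option autoImplicit false
open MeasureTheory Filter Topology
open scoped ENNReal

namespace Pool.Agent.U26.SG

noncomputable section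

/-- `∫ cos (a · (cos α, sin α)) dν(α)` -/
def co (ν : Measure ℝ) (a : ℚ × ℚ) : ℝ :=
  ∫ α, Real.cos ((a.1 : ℝ) * Real.cos α + (a.2 : ℝ) * Real.sin α) ∂ν

/-- CPT: compactness of the directions -/
def S_CPT : Prop := ∀ (ν : ℕ → Measure ℝ) (m : ℕ → ℝ), (∀ n, IsProbabilityMeasure (ν n)) →
  (∀ n, 0 ≤ m n) → ∀ C : ℚ × ℚ → ℝ,
  (∀ a, Tendsto (fun n => m n * co (ν n) a) atTop (𝓝 (C a))) →
  ∃ (m' : ℝ) (ν' : Measure ℝ), 0 ≤ m' ∧ IsProbabilityMeasure ν' ∧ ∀ a, C a = m' * co ν' a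

/-- COND: both signs, conditionally -/
def S_COND : Prop := ∀ (Z : Type) (m0 : MeasurableSpace Z) (m : MeasurableSpace Z) (_ : m ≤ m0)
  (P : @Measure Z m0) (_ : IsProbabilityMeasure P) (X : Z → ℝ), @Measurable Z ℝ m0 _ X →
  Integrable (fun z => X z ^ 4) P → P[X | m] =ᵐ[P] (fun _ => (0 : ℝ)) →
  (P[fun z => X z ^ 4 | m] ≤ᵐ[P] fun z => 3 * (P[fun z => X z ^ 2 | m]) z ^ 2) →
  ∀ A : Set Z, @MeasurableSet Z m A →
    (2 * √3 - 3) / 3 * P.real (A ∩ {z | 0 < (P[fun z => X z ^ 2 | m]) z}) ≤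
      P.real (A ∩ {z | 0 < X z})

end

end Pool.Agent.U26.SG
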