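import Pool.Agent.U26.SG.Main3
import Pool.Agent.U26.SG.Fin4
import Pool.Agent.U26.SG.Stm

/-!
# The directions of one sample path
-/

set_option autoImplicit false
open MeasureTheory Filter Topology ProbabilityTheory
open scoped ENNReal

namespace Pool.Agent.U26.SG

open Pool.Agent.W745.RW (lap dx dy TF W)
open Pool.Agent.N661.BR
open Pool.Agent.N141.BRERG4 (ev ev_meas wv)
open Pool.Agent.R989.Erg (sh inv inv_le)
open Pool.Agent.R989.Asm (XW XW_meas X4 pt Wv)
open Pool.Agent.U26.SB (pow_int)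

section

variable {μ : Measure MW}

/-- conditioning on an invariant set -/
theorem cond_stat (hs : IsStationary μ) {B : Set MW} (hB : MeasurableSet B)
    (hinv : ∀ x : ℂ, shift x ⁻¹' B =ᵐ[μ] B) : IsStationary (cond μ B) := by
  intro x
  ext E hE
  rw [Measure.map_apply (meas_shift x) hE, cond_apply hB, cond_apply hB]
  congr 1
  have hmp : MeasurePreserving (shift x) μ μ := ⟨meas_shift x, hs x⟩
  calc μ (B ∩ shift x ⁻¹' E) = μ (shift x ⁻¹' B ∩ shift x ⁻¹' E) :=
        measure_congr ((hinv x).symm.inter (ae_eq_refl _))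
    _ = μ (shift x ⁻¹' (B ∩ E)) := by rw [Set.preimage_inter]
    _ = μ (B ∩ E) := hmp.measure_preimage (hB.inter hE).nullMeasurableSet

theorem inv_ev {A : Set (ℂ → ℝ)} (hA : MeasurableSet[inv (μ.map ev)] A) (x : ℂ) :
    shift x ⁻¹' (ev ⁻¹' A) =ᵐ[μ] ev ⁻¹' A :=
  (ev_meas.quasiMeasurePreserving μ).preimage_ae_eq (hA.2 x)

theorem int_cond {g : MW → ℝ} (hg : Integrable g μ) {B : Set MW} (hB : μ B ≠ 0) :
    Integrable g (cond μ B) :=
  (hg.restrict (s := B)).smul_measure (ENNReal.inv_ne_top.2 hB)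

theorem co_eq (ν : Measure ℝ) (a : ℚ × ℚ) : co ν a = cov ν (pt a) := by
  unfold co cov pt
  refine integral_congr_ae (Eventually.of_forall fun α => ?_)
  simp

/-- the two point functions of a path are those of one law of directions -/
theorem path [IsProbabilityMeasure μ] (hCPT : S_CPT) (hs : IsStationary μ)
    (h4 : Integrable (fun f : MW => f 0 ^ 4) μ) :
    ∀ᵐ f ∂μ, ∃ (m : ℝ) (ν : Measure ℝ), IsProbabilityMeasure ν ∧ ∀ a : ℚ × ℚ,
      ((μ.map ev)[XW (pt a) | inv (μ.map ev)]) (ev f) = m * cov ν (pt a) := by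
  have H := wv hs h4
  set ν0 := μ.map ev with hν0
  have hp0 : IsProbabilityMeasure ν0 := Measure.isProbabilityMeasure_map ev_meas.aemeasurable
  have i2 : Integrable (fun f : MW => f 0 ^ 2) μ := pow_int (meas_eval 0) h4 (by norm_num)
  let C : (ℂ → ℝ) → (ℚ × ℚ → ℝ) := fun o a => (ν0[XW (pt a) | inv ν0]) o
  have hCi : Measurable[inv ν0] C := by
    refine @measurable_pi_lambda _ _ _ (inv ν0) _ _ fun a => ?_
    exact stronglyMeasurable_condExp.measurable
  have hCm : Measurable C := hCi.mono (inv_le ν0) le_rfl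
  have hsup : ∀ᵐ o ∂ν0, C o ∈ (ν0.map C).support :=
    ae_of_ae_map hCm.aemeasurable Measure.support_mem_ae
  have hsup' : ∀ᵐ f ∂μ, C (ev f) ∈ (ν0.map C).support :=
    ae_of_ae_map ev_meas.aemeasurable hsup
  filter_upwards [hsup'] with f hf
  obtain ⟨e, he⟩ := exists_surjective_nat (ℚ × ℚ)
  set x0 := C (ev f) with hx0
  rw [Measure.mem_support_iff_forall] at hf
  let U : ℕ → Set (ℚ × ℚ → ℝ) := fun n => {x | ∀ i ∈ Finset.range n, |x (e i) - x0 (e i)| < 1 / ((n : ℝ) + 1)}
  have hUo : ∀ n, IsOpen (U n) := by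
    intro n
    have e1 : U n = ⋂ i ∈ Finset.range n, {x | |x (e i) - x0 (e i)| < 1 / ((n : ℝ) + 1)} := by
      ext x
      simp only [U, Set.mem_ofPred_eq, Set.mem_iInter]
    rw [e1]
    refine isOpen_biInter_finset fun i _ => ?_
    exact isOpen_lt (by fun_prop) continuous_const
  have hUx : ∀ n, x0 ∈ U n := by
    intro n i _
    rw [sub_self, abs_zero]
    positivity
  have hUp : ∀ n, 0 < ν0 (C ⁻¹' U n) := by
    intro n
    have h1 := hf (U n) ((hUo n).mem_nhds (hUx n))
    rwa [Measure.map_apply hCm (hUo n).measurableSet] at h1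
  let A : ℕ → Set (ℂ → ℝ) := fun n => C ⁻¹' U n
  have hAi : ∀ n, MeasurableSet[inv ν0] (A n) := fun n => hCi (hUo n).measurableSet
  have hAm : ∀ n, MeasurableSet (A n) := fun n => inv_le ν0 _ (hAi n)
  have hB0 : ∀ n, μ (ev ⁻¹' A n) ≠ 0 := by
    intro n
    have h1 := hUp n
    rw [hν0, Measure.map_apply ev_meas (hAm n)] at h1
    exact h1.ne'
  have hst : ∀ n, IsStationary (cond μ (ev ⁻¹' A n)) := fun n =>
    cond_stat hs (ev_meas (hAm n)) fun x => inv_ev (hAi n) x
  have hpr : ∀ n, IsProbabilityMeasure (cond μ (ev ⁻¹' A n)) := fun n =>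
    cond_isProbabilityMeasure (hB0 n)
  have hB := fun n => Pool.Agent.N878.BR.BOCH _ (hpr n) (hst n) (int_cond i2 (hB0 n))
  choose m ν hν hm hcov using hB
  have hlim : ∀ a, Tendsto (fun n => m n * co (ν n) a) atTop (𝓝 (x0 a)) := by
    intro a
    obtain ⟨i, rfl⟩ := he a
    rw [Metric.tendsto_atTop]
    intro ε hε
    obtain ⟨N, hN⟩ := exists_nat_one_div_lt hε
    refine ⟨max N (i + 1), fun n hn => ?_⟩
    have hn1 : N ≤ n := (le_max_left _ _).trans hn
    have hn2 : i ∈ Finset.range n := Finset.mem_range.2 ((le_max_right _ _).trans hn)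
    have e1 : m n * co (ν n) (e i) = ∫ o, C o (e i) ∂(cond ν0 (A n)) := by
      have e2 := hcov n (pt (e i)) 0
      rw [sub_zero] at e2
      rw [co_eq, ← e2]
      rw [ProbabilityTheory.cond, integral_smul_measure, ProbabilityTheory.cond, integral_smul_measure]
      have e3 : μ (ev ⁻¹' A n) = ν0 (A n) := (Measure.map_apply ev_meas (hAm n)).symm
      rw [e3]
      congr 1
      have e4 : ∫ o in A n, C o (e i) ∂ν0 = ∫ o in A n, XW (pt (e i)) o ∂ν0 :=
        setIntegral_condExp (inv_le ν0) (H.xw _) (hAi n)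
      rw [e4, hν0, setIntegral_map (hAm n) (XW_meas _).aestronglyMeasurable ev_meas.aemeasurable]
      refine integral_congr_ae (Eventually.of_forall fun f => ?_)
      show f (pt (e i)) * f 0 = f 0 * f (pt (e i))
      ring
    have hpc : IsProbabilityMeasure (cond ν0 (A n)) := cond_isProbabilityMeasure (hUp n).ne'
    have hCint : Integrable (fun o => C o (e i)) (cond ν0 (A n)) :=
      ((integrable_condExp (m := inv ν0) (μ := ν0) (f := XW (pt (e i)))).restrict
        (s := A n)).smul_measure (ENNReal.inv_ne_top.2 (hUp n).ne')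
    rw [e1, Real.dist_eq]
    have e5 : ∫ o, C o (e i) ∂(cond ν0 (A n)) - x0 (e i) =
        ∫ o, (C o (e i) - x0 (e i)) ∂(cond ν0 (A n)) := by
      rw [integral_sub hCint (integrable_const _), integral_const, probReal_univ, one_smul]
    rw [e5]
    have h6 : ∀ᵐ o ∂(cond ν0 (A n)), ‖C o (e i) - x0 (e i)‖ ≤ 1 / ((n : ℝ) + 1) := by
      have h7 : ∀ᵐ o ∂(cond ν0 (A n)), o ∈ A n := ae_cond_mem (hAm n)
      filter_upwards [h7] with o ho
      rw [Real.norm_eq_abs]
      exact (ho i hn2).le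
    have h8 := norm_integral_le_of_norm_le_const h6
    rw [probReal_univ, mul_one, Real.norm_eq_abs] at h8
    refine lt_of_le_of_lt h8 (lt_of_le_of_lt ?_ hN)
    have : (N : ℝ) ≤ n := by exact_mod_cast hn1
    gcongr
  obtain ⟨m', ν', -, hν', hC⟩ := hCPT ν m hν hm x0 hlim
  refine ⟨m', ν', hν', fun a => ?_⟩
  rw [← co_eq]
  exact hC a

end

end Pool.Agent.U26.SG
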