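import Pool.Agent.U26.SG.Stm3
import Pool.Agent.N661.BR.Stm
import Pool.Agent.Y265.RW.Bs
import Pool.Agent.R989.Wvm

/-!
# Project SG (helper26), fourth part: all stationary waves with finite variance

No quantum ergodicity: `μ` is an arbitrary translation invariant law on `MW` with finite second
moment. The aim is that the conditional fourth moments are finite. Statements of the packages.
-/

set_option autoImplicit false
open MeasureTheory Filter Topology Complex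
open scoped ContDiff ENNReal

namespace Pool.Agent.U26.SG

open Pool.Agent.W745.RW (lap TF W Dp)
open Pool.Agent.Y265.RW (sy rr Fam Pair Unit2)
open Pool.Agent.N661.BR (MW IsStationary cov)
open Pool.Agent.R989.Der (Rt)
open Pool.Agent.R989.Det (sm)

noncomputable section

/-- the functions `z ↦ f (t n z)` have the two point functions `m cov ν`, locally uniformly bounded
second moments; no bound on fourth moments -/
structure Dat2 (f : MW) (t : ℕ → ℝ) (m : ℝ) (ν : Measure ℝ) : Prop where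
  tp : ∀ n, 0 < t n
  tl : Tendsto t atTop atTop
  bd : ∀ N : ℕ, ∃ C : ℝ, ∀ᶠ n in atTop,
    ∫ z in Metric.closedBall (0 : ℂ) N, f ((t n : ℂ) * z) ^ 2 ≤ C
  two : ∀ φ, TF Set.univ φ → ∀ w ∈ Rt, Tendsto
    (fun n => ∫ z, φ z * (f ((t n : ℂ) * z) * f ((t n : ℂ) * z + w))) atTop
    (𝓝 ((∫ z, φ z) * (m * cov ν w)))

/-- the derivatives `W 1 f a`, dilated -/
def UF (f : MW) (t : ℕ → ℝ) (n : ℕ) (a : ℤ) (z : ℂ) : ℂ := W 1 f a ((t n : ℂ) * z)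

/-- HSC2: from values to derivatives, with second moments only (the counterpart of
`Pool.Agent.R989.Det.hsc`, whose proof uses bounds in `L⁴` only to quote the structure `MC`; the
structure `M2C` of `Pool.Agent.Y265.HY.B`, with `M2.sol`, is the `L²` version) -/
def S_HSC2 : Prop := ∀ (f : MW) (t : ℕ → ℝ) (m : ℝ) (ν : Measure ℝ), IsProbabilityMeasure ν →
  Dat2 f t m ν → ∀ φ, TF Set.univ φ → ∀ k : ℕ,
  Tendsto (fun n => ∫ z, (φ z : ℂ) * (UF f t n 0 z * UF f t n k z)) atTop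
    (𝓝 (((∫ z, φ z : ℝ) : ℂ) * ((m : ℂ) * ∫ α, sy α ^ k ∂(sm ν))))

/-- the shape of the pair constants -/
structure Kq (κ : ℤ → ℤ → ℂ) (Q : ℤ → ℂ) : Prop where
  shape : ∀ a b : ℤ, κ a b = if Even (a + b) then (-1) ^ a.natAbs * Q (a + b) else 0
  zero : Q 0 = 1
  le : ∀ k, ‖Q k‖ ≤ 1
  conj : ∀ k : ℤ, Q (-(2 * k)) = starRingEnd ℂ (Q (2 * k))

/-- NP: all pair correlations of the normalised family -/
def S_NP : Prop := ∀ (f : MW) (t : ℕ → ℝ) (m : ℝ) (q : ℕ → ℂ), 0 < m → (∀ n, 0 < t n) →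
  Tendsto t atTop atTop → q 0 = m →
  (∀ φ, TF Set.univ φ → ∀ k : ℕ, Tendsto (fun n => ∫ z, (φ z : ℂ) * (UF f t n 0 z * UF f t n k z))
    atTop (𝓝 (q k * (∫ z, φ z : ℝ)))) →
  ∃ (κ : ℤ → ℤ → ℂ) (Q : ℤ → ℂ), Kq κ Q ∧
    Fam Set.univ (fun n => 1 / t n) (fun n a z => ((1 / √m : ℝ) : ℂ) * UF f t n a z) ∧
    Unit2 Set.univ (fun n a z => ((1 / √m : ℝ) : ℂ) * UF f t n a z) ∧
    Pair Set.univ (fun n a z => ((1 / √m : ℝ) : ℂ) * UF f t n a z)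
      (fun n a z => ((1 / √m : ℝ) : ℂ) * UF f t n a z) κ

/-- NT: telescoping of the null forms `RR (2 i + p) (-2 i - 2 - p)` (theorem `RR_lim`) -/
def S_NT : Prop := ∀ (h : ℕ → ℝ) (U : ℕ → ℤ → ℂ → ℂ) (κ : ℤ → ℤ → ℂ) (Q : ℤ → ℂ),
  (∀ n, 0 < h n) → Tendsto h atTop (𝓝 0) → Fam Set.univ h U → Unit2 Set.univ U →
  Pair Set.univ U U κ → Kq κ Q → ∀ φ, TF Set.univ φ → (∀ z, 0 ≤ φ z) → ∀ (p : ℤ) (J : ℕ) (ε : ℝ),
  0 < ε → ∀ᶠ n in atTop,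
    ∫ z, φ z * (‖U n (2 * (J : ℤ) + p) z‖ ^ 2 - ‖U n p z‖ ^ 2) ^ 2 ≤ 4 * (∫ z, φ z) + ε

/-- the two properties of a sample path which are used -/
structure Good (f : MW) (t : ℕ → ℝ) (m : ℝ) : Prop where
  nonneg : 0 ≤ m
  two : ∀ φ, TF Set.univ φ → ∀ a : ℤ,
    Tendsto (fun n => ∫ z, φ z * ‖UF f t n a z‖ ^ 2) atTop (𝓝 (m * ∫ z, φ z))
  four : ∀ φ, TF Set.univ φ → (∀ z, 0 ≤ φ z) → ∀ (p : ℤ) (J : ℕ) (ε : ℝ), 0 < ε →
    ∀ᶠ n in atTop, ∫ z, φ z * (‖UF f t n (2 * (J : ℤ) + p) z‖ ^ 2 - ‖UF f t n p z‖ ^ 2) ^ 2 ≤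
      4 * m ^ 2 * (∫ z, φ z) + ε

/-- XB: the fourth moments of the differences (Tonelli, stationarity and the reverse Fatou lemma
for the truncations `min (X ^ 2) K`) -/
def S_XB : Prop := ∀ (μ : Measure MW), IsProbabilityMeasure μ → IsStationary μ → ∀ (c : ℝ)
  (t : ℕ → ℝ), (∀ n, 0 < t n) → (∀ᵐ f ∂μ, ∃ m ≤ c, Good f t m) → ∀ (p : ℤ) (J : ℕ),
  ∫⁻ f : MW, ENNReal.ofReal ((‖W 1 f (2 * (J : ℤ) + p) 0‖ ^ 2 - ‖W 1 f p 0‖ ^ 2) ^ 2) ∂μ ≤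
    ENNReal.ofReal (4 * c ^ 2)

/-- FI: finite fourth moments. With `M k = AV 0 (4^k) + AV 1 (4^k)` (`Pool.Agent.N136.BRFIN.M`),
`M k - M 0` is bounded in `L²` by XB and `M k v - M k 0 → 0` almost surely (`M_ae`), hence
`M 0 v - M 0 0` is bounded in `L²` uniformly in `v` (Fatou); average over `v = t n z` with a weight
and use `Good.two` for `M 0 = |W 0|² + |W 1|²` and Fatou again -/
def S_FI : Prop := ∀ (μ : Measure MW), IsProbabilityMeasure μ → IsStationary μ → ∀ (c : ℝ)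
  (t : ℕ → ℝ), (∀ n, 0 < t n) → (∀ᵐ f ∂μ, ∃ m ≤ c, Good f t m) →
  (∀ (a : ℤ) (w : ℂ), ∫⁻ f : MW, ENNReal.ofReal (‖W 1 f a w‖ ^ 2) ∂μ ≤ ENNReal.ofReal c) →
  (∀ (p : ℤ) (J : ℕ),
    ∫⁻ f : MW, ENNReal.ofReal ((‖W 1 f (2 * (J : ℤ) + p) 0‖ ^ 2 - ‖W 1 f p 0‖ ^ 2) ^ 2) ∂μ ≤
      ENNReal.ofReal (4 * c ^ 2)) →
  Integrable (fun f : MW => f 0 ^ 4) μ

end

end Pool.Agent.U26.SG
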