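import Pool.Agent.U26.SG.Path
import Pool.Agent.U26.SG.Stm4

/-!
# Sample paths of stationary waves with finite variance
-/

set_option autoImplicit false
open MeasureTheory Filter Topology ProbabilityTheory
open scoped ENNReal

namespace Pool.Agent.U26.SG

open Pool.Agent.W745.RW (lap dx dy TF W)
open Pool.Agent.N661.BR
open Pool.Agent.N141.BRERG4 (ev ev_meas)
open Pool.Agent.R989.Erg (sh inv inv_le x2 Fld F_meas law_prob V)
open Pool.Agent.R989.Asm (XW XW_meas AXW AXW_meas pt ind ind_meas ind_int V_ind lim_of_tendsto two_ext)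
open Pool.Agent.R989.Der (Rt)

section

variable {μ : Measure MW}

theorem sq_int (hs : IsStationary μ) (i2 : Integrable (fun f : MW => f 0 ^ 2) μ) (w : ℂ) :
    Integrable (fun f : MW => f w ^ 2) μ := by
  have hmp : MeasurePreserving (shift w) μ μ := ⟨meas_shift w, hs w⟩
  have h1 := hmp.integrable_comp_of_integrable i2
  refine h1.congr (Eventually.of_forall fun f => ?_)
  show f (0 + w) ^ 2 = f w ^ 2
  rw [zero_add]

theorem xw_int (hs : IsStationary μ) (i2 : Integrable (fun f : MW => f 0 ^ 2) μ) (w : ℂ) :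
    Integrable (XW w) (μ.map ev) := by
  rw [integrable_map_measure (XW_meas w).aestronglyMeasurable ev_meas.aemeasurable]
  refine Integrable.mono' (i2.add (sq_int hs i2 w))
    ((XW_meas w).comp ev_meas).aestronglyMeasurable (Eventually.of_forall fun f => ?_)
  show ‖f 0 * f w‖ ≤ f 0 ^ 2 + f w ^ 2
  rw [Real.norm_eq_abs, abs_le]
  constructor <;> nlinarith [sq_nonneg (f 0 - f w), sq_nonneg (f 0 + f w), sq_nonneg (f 0),
    sq_nonneg (f w)]

/-- the two point functions of a path are those of one law of directions -/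
theorem path2 [IsProbabilityMeasure μ] (hCPT : S_CPT) (hs : IsStationary μ)
    (i2 : Integrable (fun f : MW => f 0 ^ 2) μ) :
    ∀ᵐ f ∂μ, ∃ (m : ℝ) (ν : Measure ℝ), IsProbabilityMeasure ν ∧ ∀ a : ℚ × ℚ,
      ((μ.map ev)[XW (pt a) | inv (μ.map ev)]) (ev f) = m * cov ν (pt a) := by
  set ν0 := μ.map ev with hν0
  have hp0 : IsProbabilityMeasure ν0 := Measure.isProbabilityMeasure_map ev_meas.aemeasurable
  let C : (ℂ → ℝ) → (ℚ × ℚ → ℝ) := fun o a => (ν0[XW (pt a) | inv ν0]) o
  have hCi : Measurable[inv ν0] C := by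
    refine @measurable_pi_lambda _ _ _ (inv ν0) _ _ fun a => ?_
    exact stronglyMeasurable_condExp.measurable
  have hCm : Measurable C := hCi.mono (inv_le ν0) le_rfl
  have hsup : ∀ᵐ o ∂ν0, C o ∈ (ν0.map C).support :=
    ae_of_ae_map hCm.aemeasurable Measure.support_mem_ae
  have hsup' : ∀ᵐ f ∂μ, C (ev f) ∈ (ν0.map C).support :=
    ae_of_ae_map ev_meas.aemeasurable hsup
  filter_upwards [hsup'] with f hf
  obtain ⟨e, he⟩ := exists_surjective_nat (ℚ × ℚ)
  set x0 := C (ev f) with hx0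
  rw [Measure.mem_support_iff_forall] at hf
  let U : ℕ → Set (ℚ × ℚ → ℝ) := fun n => {x | ∀ i ∈ Finset.range n, |x (e i) - x0 (e i)| < 1 / ((n : ℝ) + 1)}
  have hUo : ∀ n, IsOpen (U n) := by
    intro n
    have e1 : U n = ⋂ i ∈ Finset.range n, {x | |x (e i) - x0 (e i)| < 1 / ((n : ℝ) + 1)} := by
      ext x
      simp only [U, Set.mem_ofPred_eq, Set.mem_iInter]
    rw [e1]
    refine isOpen_biInter_finset fun i _ => ?_
    exact isOpen_lt (by fun_prop) continuous_const
  have hUx : ∀ n, x0 ∈ U n := by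
    intro n i _
    rw [sub_self, abs_zero]
    positivity
  have hUp : ∀ n, 0 < ν0 (C ⁻¹' U n) := by
    intro n
    have h1 := hf (U n) ((hUo n).mem_nhds (hUx n))
    rwa [Measure.map_apply hCm (hUo n).measurableSet] at h1
  let A : ℕ → Set (ℂ → ℝ) := fun n => C ⁻¹' U n
  have hAi : ∀ n, MeasurableSet[inv ν0] (A n) := fun n => hCi (hUo n).measurableSet
  have hAm : ∀ n, MeasurableSet (A n) := fun n => inv_le ν0 _ (hAi n)
  have hB0 : ∀ n, μ (ev ⁻¹' A n) ≠ 0 := by
    intro n
    have h1 := hUp n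
    rw [hν0, Measure.map_apply ev_meas (hAm n)] at h1
    exact h1.ne'
  have hst : ∀ n, IsStationary (cond μ (ev ⁻¹' A n)) := fun n =>
    cond_stat hs (ev_meas (hAm n)) fun x => inv_ev (hAi n) x
  have hpr : ∀ n, IsProbabilityMeasure (cond μ (ev ⁻¹' A n)) := fun n =>
    cond_isProbabilityMeasure (hB0 n)
  have hB := fun n => Pool.Agent.N878.BR.BOCH _ (hpr n) (hst n) (int_cond i2 (hB0 n))
  choose m ν hν hm hcov using hB
  have hlim : ∀ a, Tendsto (fun n => m n * co (ν n) a) atTop (𝓝 (x0 a)) := by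
    intro a
    obtain ⟨i, rfl⟩ := he a
    rw [Metric.tendsto_atTop]
    intro ε hε
    obtain ⟨N, hN⟩ := exists_nat_one_div_lt hε
    refine ⟨max N (i + 1), fun n hn => ?_⟩
    have hn1 : N ≤ n := (le_max_left _ _).trans hn
    have hn2 : i ∈ Finset.range n := Finset.mem_range.2 ((le_max_right _ _).trans hn)
    have e1 : m n * co (ν n) (e i) = ∫ o, C o (e i) ∂(cond ν0 (A n)) := by
      have e2 := hcov n (pt (e i)) 0
      rw [sub_zero] at e2
      rw [co_eq, ← e2]
      rw [ProbabilityTheory.cond, integral_smul_measure, ProbabilityTheory.cond, integral_smul_measure]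
      have e3 : μ (ev ⁻¹' A n) = ν0 (A n) := (Measure.map_apply ev_meas (hAm n)).symm
      rw [e3]
      congr 1
      have e4 : ∫ o in A n, C o (e i) ∂ν0 = ∫ o in A n, XW (pt (e i)) o ∂ν0 :=
        setIntegral_condExp (inv_le ν0) (xw_int hs i2 _) (hAi n)
      rw [e4, hν0, setIntegral_map (hAm n) (XW_meas _).aestronglyMeasurable ev_meas.aemeasurable]
      refine integral_congr_ae (Eventually.of_forall fun f => ?_)
      show f (pt (e i)) * f 0 = f 0 * f (pt (e i))
      ring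
    have hpc : IsProbabilityMeasure (cond ν0 (A n)) := cond_isProbabilityMeasure (hUp n).ne'
    have hCint : Integrable (fun o => C o (e i)) (cond ν0 (A n)) :=
      ((integrable_condExp (m := inv ν0) (μ := ν0) (f := XW (pt (e i)))).restrict
        (s := A n)).smul_measure (ENNReal.inv_ne_top.2 (hUp n).ne')
    rw [e1, Real.dist_eq]
    have e5 : ∫ o, C o (e i) ∂(cond ν0 (A n)) - x0 (e i) =
        ∫ o, (C o (e i) - x0 (e i)) ∂(cond ν0 (A n)) := by
      rw [integral_sub hCint (integrable_const _), integral_const, probReal_univ, one_smul]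
    rw [e5]
    have h6 : ∀ᵐ o ∂(cond ν0 (A n)), ‖C o (e i) - x0 (e i)‖ ≤ 1 / ((n : ℝ) + 1) := by
      have h7 : ∀ᵐ o ∂(cond ν0 (A n)), o ∈ A n := ae_cond_mem (hAm n)
      filter_upwards [h7] with o ho
      rw [Real.norm_eq_abs]
      exact (ho i hn2).le
    have h8 := norm_integral_le_of_norm_le_const h6
    rw [probReal_univ, mul_one, Real.norm_eq_abs] at h8
    refine lt_of_le_of_lt h8 (lt_of_le_of_lt ?_ hN)
    have : (N : ℝ) ≤ n := by exact_mod_cast hn1
    gcongr
  obtain ⟨m', ν', -, hν', hC⟩ := hCPT ν m hν hm x0 hlim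
  refine ⟨m', ν', hν', fun a => ?_⟩
  rw [← co_eq]
  exact hC a


theorem ev_st (hs : IsStationary μ) (a : ℂ) :
    μ.map (fun f => sh a (ev f)) = μ.map ev := by
  have h1 : (fun f : MW => sh a (ev f)) = ev ∘ shift a := rfl
  rw [h1, ← Measure.map_map ev_meas (meas_shift a), hs a]

/-- the sample paths have asymptotically constant two point functions -/
theorem path_dat [IsProbabilityMeasure μ] (hCPT : S_CPT) (hs : IsStationary μ)
    (i2 : Integrable (fun f : MW => f 0 ^ 2) μ) :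
    ∃ t : ℕ → ℝ, (∀ n, 0 < t n) ∧ ∀ᵐ f ∂μ, ∃ ν : Measure ℝ, IsProbabilityMeasure ν ∧
      Dat2 f t (((μ.map ev)[x2 | inv (μ.map ev)]) (ev f)) ν := by
  have hjoint : Measurable fun p : MW × ℂ => ev p.1 p.2 := SB.joint_ev
  have hmps : ∀ a, MeasurePreserving (sh a) (μ.map ev) (μ.map ev) := fun a =>
    Pool.Agent.R989.Erg.mps hjoint (fun b => ev_st hs b) a
  have hfld : Fld μ (μ.map ev) ev := ⟨hjoint, rfl⟩
  have hlp : IsProbabilityMeasure (μ.map ev) := law_prob hjoint
  obtain ⟨T, hT, hdense⟩ := Pool.Agent.R989.Erg.dense_TF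
  have hTm : ∀ i, Measurable (T i) := fun i => (hT i).1.continuous.measurable
  have hTi : ∀ i, Integrable (T i) := fun i =>
    (hT i).1.continuous.integrable_of_hasCompactSupport (hT i).2.1
  let wt : ((ℕ × ℕ) × (ℚ × ℚ)) ⊕ (ℕ × (ℚ × ℚ)) → ℂ → ℝ :=
    Sum.elim (fun p => T p.1) (fun p => ind p.1)
  let fn : ((ℕ × ℕ) × (ℚ × ℚ)) ⊕ (ℕ × (ℚ × ℚ)) → (ℂ → ℝ) → ℝ :=
    Sum.elim (fun p => XW (pt p.2)) (fun p => AXW (pt p.2))
  have wm : ∀ i, Measurable (wt i) := by
    rintro (p | p)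
    · exact hTm p.1
    · exact ind_meas p.1
  have wi : ∀ i, Integrable (wt i) := by
    rintro (p | p)
    · exact hTi p.1
    · exact ind_int p.1
  have fm : ∀ i, Measurable (fn i) := by
    rintro (p | p)
    · exact XW_meas _
    · exact AXW_meas _
  have fi : ∀ i, Integrable (fn i) (μ.map ev) := by
    rintro (p | p)
    · exact xw_int hs i2 _
    · exact (xw_int hs i2 _).abs
  obtain ⟨t, ht1, ht2, hsub⟩ := Pool.Agent.R989.Erg.subseq (P := μ) hmps wt wm wi fn fm fi hfld
  have ht0 : ∀ n, 0 < t n := fun n => lt_of_lt_of_le one_pos (ht1 n)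
  refine ⟨t, ht0, ?_⟩
  filter_upwards [hsub, path2 hCPT hs i2] with f h1 h0
  obtain ⟨m, ν, hν, h3⟩ := h0
  have h4 : ((μ.map ev)[x2 | inv (μ.map ev)]) (ev f) = m := by
    have h5 := h3 (0, 0)
    rw [XW_zero, pt_zero, show cov ν 0 = 1 from Pool.Agent.R989.Asm.cov_zero ν, mul_one] at h5
    exact h5
  have hfc : Continuous f.1 := f.2.1.continuous
  have c2 : ∀ a : ℚ × ℚ, ∀ N : ℕ, ∃ C : ℝ, ∀ᶠ n in atTop,
      ∫ z in Metric.closedBall (0 : ℂ) N,
        |f ((t n : ℂ) * z) * f ((t n : ℂ) * z + pt a)| ≤ C := by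
    intro a N
    have h6 := lim_of_tendsto (h1 (Sum.inr (N, a)))
    refine ⟨_, h6.mono fun n hn => le_trans (le_of_eq ?_) hn⟩
    show _ = V ev (ind N) (t n) (AXW (pt a)) f
    rw [V_ind]
    refine setIntegral_congr_fun measurableSet_closedBall fun z _ => ?_
    simp only [AXW, sh, ev, add_comm, add_zero]
  refine ⟨ν, hν, ⟨ht0, ht2, fun N => ?_, ?_⟩⟩
  · obtain ⟨C, hC⟩ := c2 (0, 0) N
    refine ⟨C, hC.mono fun n hn => le_trans (le_of_eq ?_) hn⟩
    refine setIntegral_congr_fun measurableSet_closedBall fun z _ => ?_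
    simp only [pt_zero, add_zero]
    rw [← sq, abs_of_nonneg (sq_nonneg _)]
  · intro φ hφ w' hw'
    obtain ⟨p, q, rfl⟩ := hw'
    rw [h4]
    refine two_ext hfc hT hdense _ _ (fun i => ?_) (c2 (p, q)) φ hφ
    have h6 := h1 (Sum.inl (i, (p, q)))
    have h7 : wt (Sum.inl (i, (p, q))) = T i := rfl
    have h8 : fn (Sum.inl (i, (p, q))) = XW (pt (p, q)) := rfl
    rw [h7, h8, h3 (p, q)] at h6
    refine h6.congr fun n => ?_
    unfold V
    refine integral_congr_ae (Eventually.of_forall fun z => ?_)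
    simp only [XW, sh, ev, pt, add_comm, add_zero]

end

end Pool.Agent.U26.SG
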