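import Pool.Agent.U26.SG.AsmG
import Pool.Agent.U934.SG.CPT
import Pool.Agent.U882.SG.HSC2
import Pool.Agent.U346.SG.NP
import Pool.Agent.U688.SG.NT
import Pool.Agent.U319.SG.XB
import Pool.Agent.U88.SG.FI

/-!
# All the parts of the ergodic theory of stationary waves
-/

set_option autoImplicit false

namespace Pool.Agent.U26.SG

theorem pts : Pts :=
  ⟨Pool.Agent.U934.SG.t_CPT, Pool.Agent.U882.SG.t_HSC2, Pool.Agent.U346.SG.t_NP,
    Pool.Agent.U688.SG.t_NT, Pool.Agent.U319.SG.t_XB, Pool.Agent.U88.SG.FI.t_FI⟩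

end Pool.Agent.U26.SG
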