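import Pool.Agent.W745.RW.Stm
import Mathlib.MeasureTheory.Measure.Prokhorov

/-!
# Project SG (helper26), second part: existence of the limit laws

Statements of the packages PROK, SER and TAY.
-/

set_option autoImplicit false
open MeasureTheory Filter Topology Complex
open scoped ContDiff ENNReal BoundedContinuousFunction

namespace Pool.Agent.U26.SG

open Pool.Agent.W745.RW (lap)

noncomputable section

/-- the sequences `x k = (∂x - i∂y)^k f (0)` of real functions (`x (-k) = (-1)^k conj (x k)`) -/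
def Sym (x : ℤ → ℂ) : Prop := ∀ k : ℤ, x (-k) = (-1) ^ k.natAbs * starRingEnd ℂ (x k)

/-- the terms of the Taylor expansion at `0` of the solution of `Δf + f = 0` with the coefficients
`x` -/
def tm (x : ℤ → ℂ) (w : ℂ) (p : ℕ × ℕ) : ℂ :=
  (-1) ^ p.2 * x ((p.1 : ℤ) - p.2) * ((w / 2) ^ p.1 * (starRingEnd ℂ w / 2) ^ p.2) /
    (p.1.factorial * p.2.factorial : ℕ)

/-- partial sums -/
def PS (N : ℕ) (x : ℤ → ℂ) (w : ℂ) : ℂ := ∑ p ∈ Finset.range N ×ˢ Finset.range N, tm x w p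

/-- SER: the sum of the expansion -/
def S_SER : Prop := ∀ x : ℤ → ℂ, Sym x → (∃ C : ℝ, ∀ k : ℤ, ‖x k‖ ≤ C * 2 ^ k.natAbs) →
  ∃ f : ℂ → ℝ, ContDiff ℝ ∞ f ∧ (∀ z, lap f z + f z = 0) ∧ ∀ w : ℂ, HasSum (tm x w) (f w : ℂ)

/-- TAY: the expansion of the plane waves -/
def S_TAY : Prop := ∀ (w : ℂ) (ε : ℝ), 0 < ε → ∀ᶠ N in atTop, ∀ α : ℝ,
  ‖Complex.exp (((w.re * Real.cos α + w.im * Real.sin α : ℝ) : ℂ) * I) -
    PS N (fun k => (I * Complex.exp (-(α : ℂ) * I)) ^ k) w‖ ≤ ε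

/-- PROK: compactness of the laws of the coefficients -/
def S_PROK : Prop := ∀ (Z : Type) (_ : MeasurableSpace Z) (P : Measure Z) (_ : IsProbabilityMeasure P)
  (Y : ℕ → ℤ → Z → ℂ) (φ : ℕ → Z → ℝ), (∀ n a, AEMeasurable (Y n a) P) →
  (∀ i, Measurable (φ i)) → (∀ i z, φ i z ∈ Set.Icc (0 : ℝ) 1) →
  Tendsto (fun i => ∫ z, φ i z ∂P) atTop (𝓝 1) →
  (∀ i a, ∀ᶠ n in atTop, Integrable (fun z => φ i z * ‖Y n a z‖ ^ 2) P) →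
  (∀ i a, Tendsto (fun n => ∫ z, φ i z * ‖Y n a z‖ ^ 2 ∂P) atTop (𝓝 (∫ z, φ i z ∂P))) →
  (∀ n, ∀ᵐ z ∂P, Sym fun a => Y n a z) →
  ∃ (σ : ℕ → ℕ) (Λ : Measure (ℤ → ℂ)), StrictMono σ ∧ IsProbabilityMeasure Λ ∧
    (∀ᵐ x ∂Λ, Sym x) ∧ (∀ a : ℤ, ∫⁻ x, ‖x a‖ₑ ^ 2 ∂Λ ≤ 1) ∧
    ∀ g : (ℤ → ℂ) →ᵇ ℂ, Tendsto (fun n => ∫ z, g (fun a => Y (σ n) a z) ∂P) atTop
      (𝓝 (∫ x, g x ∂Λ))

end

end Pool.Agent.U26.SG
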